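import Mathlib

/-! # The Nottingham group over the field with two elements: basic definitions -/

open PowerSeries

namespace Pool.Agent.Nott

noncomputable section

/-- Formal power series over the field with two elements. -/
abbrev R := PowerSeries (ZMod 2)

instance : CharP R 2 :=
  charP_of_injective_ringHom (f := (PowerSeries.C : ZMod 2 →+* R)) PowerSeries.C_injective 2

theorem add_self (f : R) : f + f = 0 := CharTwo.add_self_eq_zero f

theorem sub_eq (f g : R) : f - g = f + g := CharTwo.sub_eq_add f g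

theorem sq_eq_expand (f : R) : f ^ 2 = expand 2 two_ne_zero f := by
  have h := MvPowerSeries.map_frobenius_expand (σ := Unit) (R := ZMod 2) 2 two_ne_zero (f := f)
  have hf : frobenius (ZMod 2) 2 = RingHom.id (ZMod 2) := by
    ext x
    simp
  rw [hf, MvPowerSeries.map_id] at h
  exact h.symm

theorem coeff_sq (f : R) (n : ℕ) : coeff n (f ^ 2) = if 2 ∣ n then coeff (n / 2) f else 0 := by
  rw [sq_eq_expand, coeff_expand]

/-- even part: `f = (ev f)^2 + X * (od f)^2` -/
def ev (f : R) : R := mk fun n => coeff (2 * n) f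
/-- odd part: `f = (ev f)^2 + X * (od f)^2` -/
def od (f : R) : R := mk fun n => coeff (2 * n + 1) f

theorem coeff_ev (f : R) (n : ℕ) : coeff n (ev f) = coeff (2 * n) f := by simp [ev]
theorem coeff_od (f : R) (n : ℕ) : coeff n (od f) = coeff (2 * n + 1) f := by simp [od]

theorem decomp (f : R) : f = ev f ^ 2 + X * od f ^ 2 := by
  ext n
  rcases Nat.even_or_odd' n with ⟨m, rfl | rfl⟩
  · rw [map_add, coeff_sq]
    have h1 : coeff (2 * m) (X * od f ^ 2) = 0 := by
      rcases m with _ | m
      · simp
      · rw [show 2 * (m + 1) = 2 * m + 1 + 1 by ring, coeff_succ_X_mul, coeff_sq, if_neg]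
        omega
    rw [h1, if_pos (dvd_mul_right 2 m), Nat.mul_div_cancel_left m two_pos, coeff_ev, add_zero]
  · rw [map_add, coeff_sq, if_neg (by omega), coeff_succ_X_mul, coeff_sq,
      if_pos (dvd_mul_right 2 m), Nat.mul_div_cancel_left m two_pos, coeff_od, zero_add]

theorem ev_add_od (e w : R) : ev (e ^ 2 + X * w ^ 2) = e := by
  ext n
  rw [coeff_ev, map_add, coeff_sq, if_pos (dvd_mul_right 2 n), Nat.mul_div_cancel_left n two_pos]
  rcases n with _ | n
  · simp
  · rw [show 2 * (n + 1) = 2 * n + 1 + 1 by ring, coeff_succ_X_mul, coeff_sq, if_neg, add_zero]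
    omega

theorem od_add_od (e w : R) : od (e ^ 2 + X * w ^ 2) = w := by
  ext n
  rw [coeff_od, map_add, coeff_sq, if_neg (by omega), coeff_succ_X_mul, coeff_sq,
    if_pos (dvd_mul_right 2 n), Nat.mul_div_cancel_left n two_pos, zero_add]

theorem add_sq' (a b : R) : (a + b) ^ 2 = a ^ 2 + b ^ 2 := by
  rw [add_sq, show (2 : R) = 0 from CharTwo.two_eq_zero]
  ring

/-- The Nottingham group over the field with two elements: power series
`X + a₂ X² + a₃ X³ + ⋯` under substitution. -/
@[ext] structure J where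
  /-- the power series -/
  ser : R
  c0 : coeff 0 ser = 0
  c1 : coeff 1 ser = 1

theorem J.cc (f : J) : constantCoeff f.ser = 0 := by
  have := f.c0
  simpa using this

theorem J.hs (f : J) : HasSubst f.ser := HasSubst.of_constantCoeff_zero' f.cc

theorem coeff_one_subst (a f : R) (ha : constantCoeff a = 0) :
    coeff 1 (f.subst a) = coeff 1 f * coeff 1 a := by
  rw [coeff_subst' (HasSubst.of_constantCoeff_zero' ha)]
  rw [finsum_eq_single (a := 1)]
  · simp
  · rintro (_ | _ | n) hn
    · simp
    · exact absurd rfl hn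
    · have : coeff 1 (a ^ (n + 1 + 1)) = 0 := by
        have h1 : X ∣ a := X_dvd_iff.mpr ha
        have h2 : (X : R) ^ (n + 2) ∣ a ^ (n + 2) := pow_dvd_pow_of_dvd h1 _
        exact (X_pow_dvd_iff.mp h2) 1 (by omega)
      rw [this, smul_zero]

instance : Mul J := ⟨fun f g => ⟨f.ser.subst g.ser, by
  rw [coeff_zero_eq_constantCoeff_apply]
  exact constantCoeff_subst_eq_zero g.cc _ f.cc, by
  rw [coeff_one_subst _ _ g.cc, f.c1, g.c1, one_mul]⟩⟩

theorem mul_ser (f g : J) : (f * g).ser = f.ser.subst g.ser := rfl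

instance : One J := ⟨⟨X, by simp, by simp⟩⟩

theorem one_ser : (1 : J).ser = X := rfl

theorem J.u1 (f : J) : IsUnit (coeff 1 f.ser) := by rw [f.c1]; exact isUnit_one

instance : Inv J := ⟨fun f => ⟨f.ser.substInvOfIsUnit f.u1, by
  rw [coeff_zero_eq_constantCoeff_apply]; exact constantCoeff_substInvOfIsUnit _ _, by
  rw [coeff_one_substInvOfIsUnit]
  have h : (f.u1.unit : ZMod 2) = 1 := by rw [IsUnit.unit_spec]; exact f.c1
  have h2 : f.u1.unit = 1 := Units.ext h
  rw [h2]; simp⟩⟩

theorem inv_ser (f : J) : (f⁻¹).ser = f.ser.substInvOfIsUnit f.u1 := rfl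

instance : Group J := Group.ofLeftAxioms
  (fun f g h => by
    apply J.ext
    rw [mul_ser, mul_ser, mul_ser, mul_ser]
    exact subst_comp_subst_apply g.hs h.hs f.ser)
  (fun f => by
    apply J.ext
    rw [mul_ser, one_ser]
    exact subst_X f.hs)
  (fun f => by
    apply J.ext
    rw [mul_ser, inv_ser, one_ser]
    exact subst_substInvOfIsUnit_left f.ser f.cc f.u1)

/-- substitution of `g` as a ring endomorphism -/
def sub (g : J) : R →+* R := (substAlgHom g.hs : R →ₐ[ZMod 2] R).toRingHom

theorem sub_apply (g : J) (f : R) : sub g f = f.subst g.ser := by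
  show (substAlgHom g.hs) f = _
  rw [coe_substAlgHom]

theorem mul_ser' (f g : J) : (f * g).ser = sub g f.ser := by rw [sub_apply]; rfl

theorem sub_X (g : J) : sub g X = g.ser := by rw [sub_apply]; exact subst_X g.hs

theorem sub_mul (f g : J) (x : R) : sub (f * g) x = sub g (sub f x) := by
  rw [sub_apply, sub_apply, sub_apply, mul_ser]
  exact (subst_comp_subst_apply f.hs g.hs x).symm

theorem sub_one (x : R) : sub 1 x = x := by
  rw [sub_apply]
  exact X_subst x

/-- the series `w` with `f' = w^2` (the derivative of `f` is a square) -/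
def w (f : J) : R := od f.ser

theorem w_one : w 1 = 1 := by
  have h : ((1 : J).ser) = 0 ^ 2 + X * 1 ^ 2 := by rw [one_ser]; ring
  rw [w, h, od_add_od]

theorem od_sub (g : J) (f : R) : od (sub g f) = w g * sub g (od f) := by
  have h1 : sub g f = (sub g (ev f) + ev g.ser * sub g (od f)) ^ 2 +
      X * (w g * sub g (od f)) ^ 2 := by
    conv_lhs => rw [decomp f]
    rw [map_add, map_mul, map_pow, map_pow, sub_X]
    conv_lhs => rw [decomp g.ser]
    rw [add_sq', w]
    ring
  rw [h1, od_add_od]

theorem w_mul (f g : J) : w (f * g) = w g * sub g (w f) := by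
  rw [w, mul_ser', od_sub]; rfl

/-- the filtration `F_n`: `f ≡ X mod X^(n+1)` and `f' ≡ 1 mod X^(2(n-1))` -/
def inF (n : ℕ) (f : J) : Prop := X ^ (n + 1) ∣ f.ser + X ∧ X ^ (n - 1) ∣ w f + 1

end

end Pool.Agent.Nott
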