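import Mathlib

/-! # Calculus of commutators and squares for an invariant homomorphism on a normal subgroup -/

namespace Pool.Agent.Nott

/-- the commutator `x⁻¹ y⁻¹ x y` -/
def comm {G : Type} [Group G] (x y : G) : G := x⁻¹ * y⁻¹ * x * y

section basic
variable {G : Type} [Group G]

theorem comm_inv (x y : G) : (comm x y)⁻¹ = comm y x := by simp only [comm]; group
theorem comm_mul_left (x y z : G) : comm (x * y) z = y⁻¹ * comm x z * y * comm y z := by
  simp only [comm]; group
theorem comm_mul_right (x y z : G) : comm x (y * z) = comm x z * (z⁻¹ * comm x y * z) := by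
  simp only [comm]; group
theorem comm_self (x : G) : comm x x = 1 := by simp only [comm]; group
theorem comm_one_left (x : G) : comm 1 x = 1 := by simp only [comm]; group
theorem comm_one_right (x : G) : comm x 1 = 1 := by simp only [comm]; group
theorem map_comm {H : Type} [Group H] (f : G →* H) (x y : G) : f (comm x y) = comm (f x) (f y) := by
  simp only [comm, map_mul, map_inv]
theorem comm_conj (x y g : G) : comm (g⁻¹ * x * g) (g⁻¹ * y * g) = g⁻¹ * comm x y * g := by
  simp only [comm]; group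
theorem conj_eq (x g : G) : g⁻¹ * x * g = x * comm x g := by simp only [comm]; group

theorem comm_inv_left (x y : G) : comm x⁻¹ y = x * (comm x y)⁻¹ * x⁻¹ := by
  simp only [comm]; group

theorem inv_identity (x y u : G) :
    comm (comm x y) u = (comm x y)⁻¹ * ((comm x u)⁻¹ * comm x (comm y u) * (comm x u) *
      comm (comm x u) (comm y u)) * (comm x y) * comm (comm x y) (comm x u * comm y u) *
      ((comm y u)⁻¹ * comm (comm x u) y * comm y u) := by
  simp only [comm]; group

theorem sq_identity (x u : G) :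
    comm (x * x) u = (comm x u * comm x u) * ((comm x u)⁻¹ * comm (comm x u) x * comm x u) := by
  simp only [comm]; group

theorem mul_sq_identity (x y : G) :
    (x * y) * (x * y) = (x * x) * (y * y) * (y⁻¹ * comm y x * y) := by
  simp only [comm]; group

end basic

/-- an extension-type situation: `T` is an invariant homomorphism on `π⁻¹(D)` -/
structure Sys (G : Type) [Group G] where
  /-- the covering group -/
  Γ : Type
  [gr : Group Γ]
  /-- the projection -/
  π : Γ →* G
  surj : Function.Surjective π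
  /-- the normal subgroup -/
  D : Subgroup G
  nor : D.Normal
  /-- the invariant homomorphism -/
  T : Γ → ZMod 2
  add : ∀ a b, π a ∈ D → π b ∈ D → T (a * b) = T a + T b
  inv : ∀ g a, π a ∈ D → T (g * a * g⁻¹) = T a

attribute [instance] Sys.gr

namespace Sys
variable {G : Type} [Group G] (S : Sys G)

theorem zz (a : ZMod 2) : a + a = 0 := CharTwo.add_self_eq_zero a

theorem T_one : S.T 1 = 0 := by
  have h := S.add 1 1 (by rw [map_one]; exact S.D.one_mem) (by rw [map_one]; exact S.D.one_mem)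
  rw [mul_one] at h
  have h2 : S.T 1 + 0 = S.T 1 + S.T 1 := by rw [add_zero]; exact h
  exact (add_left_cancel h2).symm

theorem T_inv (a : S.Γ) (ha : S.π a ∈ S.D) : S.T a⁻¹ = S.T a := by
  have h := S.add a a⁻¹ ha (by rw [map_inv]; exact S.D.inv_mem ha)
  rw [mul_inv_cancel, S.T_one] at h
  have h2 : S.T a + S.T a⁻¹ = S.T a + S.T a := by rw [zz]; exact h.symm
  exact add_left_cancel h2

theorem T_conj (g a : S.Γ) (ha : S.π a ∈ S.D) : S.T (g⁻¹ * a * g) = S.T a := by
  have := S.inv g⁻¹ a ha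
  rwa [inv_inv] at this

/-- section -/
noncomputable def s (x : G) : S.Γ := Function.surjInv S.surj x

theorem π_s (x : G) : S.π (S.s x) = x := Function.surjInv_eq S.surj x

/-- the domain of `c` -/
def Dom (x y : G) : Prop := comm x y ∈ S.D

/-- commutator form -/
noncomputable def c (x y : G) : ZMod 2 := S.T (comm (S.s x) (S.s y))

/-- square form -/
noncomputable def q (x : G) : ZMod 2 := S.T (S.s x * S.s x)

theorem D_conj (g a : G) (ha : a ∈ S.D) : g⁻¹ * a * g ∈ S.D := by
  have := S.nor.conj_mem a ha g⁻¹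
  rwa [inv_inv] at this

theorem dom_symm {x y : G} (h : S.Dom x y) : S.Dom y x := by
  unfold Dom at *
  rw [← comm_inv]
  exact S.D.inv_mem h

theorem dom_mul_left {x y z : G} (hx : S.Dom x z) (hy : S.Dom y z) : S.Dom (x * y) z := by
  unfold Dom at *
  rw [comm_mul_left]
  exact S.D.mul_mem (S.D_conj _ _ hx) hy

theorem dom_mul_right {x y z : G} (hy : S.Dom x y) (hz : S.Dom x z) : S.Dom x (y * z) :=
  S.dom_symm (S.dom_mul_left (S.dom_symm hy) (S.dom_symm hz))

theorem dom_one_left (x : G) : S.Dom 1 x := by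
  unfold Dom; rw [comm_one_left]; exact S.D.one_mem

theorem dom_one_right (x : G) : S.Dom x 1 := by
  unfold Dom; rw [comm_one_right]; exact S.D.one_mem

theorem dom_self (x : G) : S.Dom x x := by
  unfold Dom; rw [comm_self]; exact S.D.one_mem

theorem dom_of_mem {x : G} (hx : x ∈ S.D) (y : G) : S.Dom x y := by
  unfold Dom
  have h : comm x y = x⁻¹ * (y⁻¹ * x * y) := by simp only [comm]; group
  rw [h]
  exact S.D.mul_mem (S.D.inv_mem hx) (S.D_conj _ _ hx)

theorem dom_inv_left {x y : G} (h : S.Dom x y) : S.Dom x⁻¹ y := by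
  unfold Dom at *
  rw [comm_inv_left]
  exact S.nor.conj_mem _ (S.D.inv_mem h) x

theorem dom_pow_left {x y : G} (h : S.Dom x y) (n : ℕ) : S.Dom (x ^ n) y := by
  induction n with
  | zero => rw [pow_zero]; exact S.dom_one_left y
  | succ n ih => rw [pow_succ]; exact S.dom_mul_left ih h

theorem T_comm_mul_left (x y z : S.Γ) (hx : S.Dom (S.π x) (S.π z)) (hy : S.Dom (S.π y) (S.π z)) :
    S.T (comm (x * y) z) = S.T (comm x z) + S.T (comm y z) := by
  have h1 : S.π (comm x z) ∈ S.D := by rw [map_comm]; exact hx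
  have h2 : S.π (comm y z) ∈ S.D := by rw [map_comm]; exact hy
  rw [comm_mul_left, S.add _ _ _ h2, S.T_conj _ _ h1]
  rw [map_mul, map_mul, map_inv]
  exact S.D_conj _ _ h1

theorem T_comm_symm (x y : S.Γ) (h : S.Dom (S.π x) (S.π y)) :
    S.T (comm x y) = S.T (comm y x) := by
  rw [← comm_inv y x, S.T_inv]
  rw [map_comm]
  exact S.dom_symm h

theorem T_comm_ker (r y : S.Γ) (hr : S.π r ∈ S.D) : S.T (comm r y) = 0 := by
  have h : comm r y = r⁻¹ * (y⁻¹ * r * y) := by simp only [comm]; group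
  have h1 : S.π r⁻¹ ∈ S.D := by rw [map_inv]; exact S.D.inv_mem hr
  have h2 : S.π (y⁻¹ * r * y) ∈ S.D := by
    rw [map_mul, map_mul, map_inv]; exact S.D_conj _ _ hr
  rw [h, S.add _ _ h1 h2, S.T_inv _ hr, S.T_conj _ _ hr, zz]

theorem T_comm_congr_left (x x' y : S.Γ) (h : S.π x = S.π x') (hd : S.Dom (S.π x) (S.π y)) :
    S.T (comm x y) = S.T (comm x' y) := by
  have e : x = x' * (x'⁻¹ * x) := by group
  have hk : S.π (x'⁻¹ * x) = 1 := by rw [map_mul, map_inv, h]; group
  have hk' : S.π (x'⁻¹ * x) ∈ S.D := by rw [hk]; exact S.D.one_mem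
  rw [e, S.T_comm_mul_left _ _ _ (by rw [← h]; exact hd) (S.dom_of_mem hk' _),
    S.T_comm_ker _ _ hk', add_zero]

/-- `c` can be computed with any lifts -/
theorem lift (x y : S.Γ) (hd : S.Dom (S.π x) (S.π y)) :
    S.T (comm x y) = S.c (S.π x) (S.π y) := by
  have h1 : S.π (S.s (S.π x)) = S.π x := S.π_s _
  have h2 : S.π (S.s (S.π y)) = S.π y := S.π_s _
  rw [S.T_comm_congr_left x (S.s (S.π x)) y h1.symm hd]
  have hd1 : S.Dom (S.π (S.s (S.π x))) (S.π y) := by rw [h1]; exact hd
  rw [S.T_comm_symm _ _ hd1, S.T_comm_congr_left y (S.s (S.π y)) _ h2.symm (S.dom_symm hd1)]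
  have hd2 : S.Dom (S.π (S.s (S.π y))) (S.π (S.s (S.π x))) := by
    rw [h1, h2]; exact S.dom_symm hd
  rw [S.T_comm_symm _ _ hd2]
  rfl

theorem lift' (x y : S.Γ) (x' y' : G) (hx : S.π x = x') (hy : S.π y = y') (hd : S.Dom x' y') :
    S.T (comm x y) = S.c x' y' := by
  subst hx hy; exact S.lift x y hd

theorem c_mul_left {x y z : G} (hx : S.Dom x z) (hy : S.Dom y z) :
    S.c (x * y) z = S.c x z + S.c y z := by
  have h := S.T_comm_mul_left (S.s x) (S.s y) (S.s z) (by rw [π_s, π_s]; exact hx)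
    (by rw [π_s, π_s]; exact hy)
  rw [S.lift' _ _ (x * y) z (by rw [map_mul, π_s, π_s]) (S.π_s z) (S.dom_mul_left hx hy)] at h
  exact h

theorem c_symm {x y : G} (h : S.Dom x y) : S.c x y = S.c y x :=
  S.T_comm_symm _ _ (by rw [π_s, π_s]; exact h)

theorem c_mul_right {x y z : G} (hy : S.Dom x y) (hz : S.Dom x z) :
    S.c x (y * z) = S.c x y + S.c x z := by
  rw [S.c_symm (S.dom_mul_right hy hz), S.c_mul_left (S.dom_symm hy) (S.dom_symm hz),
    S.c_symm hy, S.c_symm hz]

theorem c_self (x : G) : S.c x x = 0 := by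
  unfold c; rw [comm_self, S.T_one]

theorem c_mem {x : G} (hx : x ∈ S.D) (y : G) : S.c x y = 0 :=
  S.T_comm_ker _ _ (by rw [π_s]; exact hx)

theorem c_mem_right {y : G} (hy : y ∈ S.D) (x : G) : S.c x y = 0 := by
  rw [S.c_symm (S.dom_symm (S.dom_of_mem hy x)), S.c_mem hy]

theorem c_one_left (y : G) : S.c 1 y = 0 := S.c_mem S.D.one_mem y

theorem c_pow_left {x y : G} (h : S.Dom x y) (n : ℕ) : S.c (x ^ n) y = n * S.c x y := by
  induction n with
  | zero => rw [pow_zero, S.c_one_left]; simp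
  | succ n ih => rw [pow_succ, S.c_mul_left (S.dom_pow_left h n) h, ih]; push_cast; ring

theorem c_inv_left {x y : G} (h : S.Dom x y) : S.c x⁻¹ y = S.c x y := by
  have h1 := S.c_mul_left (S.dom_inv_left h) h
  rw [inv_mul_cancel, S.c_one_left] at h1
  have h2 : S.c x⁻¹ y + S.c x y = S.c x y + S.c x y := by rw [← h1, zz]
  exact add_right_cancel h2

/-- the domain of `q` -/
def DomQ (x : G) : Prop := x * x ∈ S.D

theorem liftq (x : S.Γ) (hd : S.DomQ (S.π x)) : S.T (x * x) = S.q (S.π x) := by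
  have h1 : S.π (S.s (S.π x)) = S.π x := S.π_s _
  set y := S.s (S.π x) with hy
  have e : x = y * (y⁻¹ * x) := by group
  have hk : S.π (y⁻¹ * x) = 1 := by rw [map_mul, map_inv, h1]; group
  have hk' : S.π (y⁻¹ * x) ∈ S.D := by rw [hk]; exact S.D.one_mem
  have hyy : S.π (y * y) ∈ S.D := by rw [map_mul, h1]; exact hd
  set r := y⁻¹ * x with hr
  have hrr : S.π (r * r) ∈ S.D := by rw [map_mul]; exact S.D.mul_mem hk' hk'
  have hc : S.π (comm r y) ∈ S.D := by rw [map_comm]; exact S.dom_of_mem hk' _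
  have hc' : S.π (r⁻¹ * comm r y * r) ∈ S.D := by
    rw [map_mul, map_mul, map_inv]; exact S.D_conj _ _ hc
  have h3 : S.T (x * x) = S.T (y * y) := by
    conv_lhs => rw [e]
    rw [mul_sq_identity, S.add _ _ (by rw [map_mul]; exact S.D.mul_mem hyy hrr) hc',
      S.add _ _ hyy hrr, S.T_conj _ _ hc, S.T_comm_ker _ _ hk', S.add _ _ hk' hk', zz]
    simp
  rw [h3]; rfl

theorem domq_mul {x y : G} (hx : S.DomQ x) (hy : S.DomQ y) (h : S.Dom x y) :
    S.DomQ (x * y) := by
  unfold DomQ at *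
  rw [mul_sq_identity]
  exact S.D.mul_mem (S.D.mul_mem hx hy) (S.D_conj _ _ (S.dom_symm h))

theorem q_mul {x y : G} (hx : S.DomQ x) (hy : S.DomQ y) (h : S.Dom x y) :
    S.q (x * y) = S.q x + S.q y + S.c x y := by
  have h0 := S.liftq (S.s x * S.s y) (by rw [map_mul, π_s, π_s]; exact S.domq_mul hx hy h)
  rw [map_mul, π_s, π_s] at h0
  rw [← h0, mul_sq_identity]
  have hxx : S.π (S.s x * S.s x) ∈ S.D := by rw [map_mul, π_s]; exact hx
  have hyy : S.π (S.s y * S.s y) ∈ S.D := by rw [map_mul, π_s]; exact hy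
  have hc : S.π (comm (S.s y) (S.s x)) ∈ S.D := by
    rw [map_comm, π_s, π_s]; exact S.dom_symm h
  have hc' : S.π ((S.s y)⁻¹ * comm (S.s y) (S.s x) * (S.s y)) ∈ S.D := by
    rw [map_mul, map_mul, map_inv]; exact S.D_conj _ _ hc
  rw [S.add _ _ (by rw [map_mul]; exact S.D.mul_mem hxx hyy) hc', S.add _ _ hxx hyy,
    S.T_conj _ _ hc, S.c_symm h]
  rfl

theorem domq_of_mem {x : G} (hx : x ∈ S.D) : S.DomQ x := S.D.mul_mem hx hx

theorem q_mem {x : G} (hx : x ∈ S.D) : S.q x = 0 := by
  unfold q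
  rw [S.add _ _ (by rw [π_s]; exact hx) (by rw [π_s]; exact hx), zz]

theorem domq_pow {x : G} (hx : S.DomQ x) (n : ℕ) : S.DomQ (x ^ n) := by
  unfold DomQ at *
  rw [← (Commute.refl x).mul_pow n]
  exact S.D.pow_mem hx n

theorem q_pow {x : G} (hx : S.DomQ x) (n : ℕ) : S.q (x ^ n) = n * S.q x := by
  induction n with
  | zero => rw [pow_zero, S.q_mem S.D.one_mem]; simp
  | succ n ih =>
    rw [pow_succ, S.q_mul (S.domq_pow hx n) hx (S.dom_pow_left (S.dom_self x) n), ih,
      S.c_pow_left (S.dom_self x), S.c_self]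
    push_cast
    ring

/-- invariance under `u` -/
theorem INV {x y u : G} (h1 : S.Dom x (comm y u)) (h2 : S.Dom (comm x u) (comm y u))
    (h3 : S.Dom (comm x u) y) (h4 : S.Dom (comm x y) (comm x u * comm y u)) :
    S.Dom (comm x y) u ∧ S.c (comm x y) u = S.c x (comm y u) + S.c (comm x u) (comm y u) +
      S.c (comm x u) y + S.c (comm x y) (comm x u * comm y u) := by
  have hd : S.Dom (comm x y) u := by
    unfold Dom
    rw [inv_identity]
    have e : (comm x y)⁻¹ * ((comm x u)⁻¹ * comm x (comm y u) * (comm x u) *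
      comm (comm x u) (comm y u)) * (comm x y) ∈ S.D :=
      S.D_conj _ _ (S.D.mul_mem (S.D_conj _ _ h1) h2)
    exact S.D.mul_mem (S.D.mul_mem e h4) (S.D_conj _ _ h3)
  refine ⟨hd, ?_⟩
  set X := S.s x
  set Y := S.s y
  set U := S.s u
  have hX : S.π X = x := S.π_s x
  have hY : S.π Y = y := S.π_s y
  have hU : S.π U = u := S.π_s u
  have e0 := S.lift' (comm X Y) U (comm x y) u (by rw [map_comm, hX, hY]) hU hd
  have e1 := S.lift' X (comm Y U) x (comm y u) hX (by rw [map_comm, hY, hU]) h1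
  have e2 := S.lift' (comm X U) (comm Y U) (comm x u) (comm y u) (by rw [map_comm, hX, hU])
    (by rw [map_comm, hY, hU]) h2
  have e3 := S.lift' (comm X U) Y (comm x u) y (by rw [map_comm, hX, hU]) hY h3
  have e4 := S.lift' (comm X Y) (comm X U * comm Y U) (comm x y) (comm x u * comm y u)
    (by rw [map_comm, hX, hY]) (by rw [map_mul, map_comm, map_comm, hX, hY, hU]) h4
  rw [← e0, inv_identity]
  have m1 : S.π (comm X (comm Y U)) ∈ S.D := by
    rw [map_comm, map_comm, hX, hY, hU]; exact h1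
  have m2 : S.π (comm (comm X U) (comm Y U)) ∈ S.D := by
    rw [map_comm, map_comm, map_comm, hX, hY, hU]; exact h2
  have m3 : S.π (comm (comm X U) Y) ∈ S.D := by
    rw [map_comm, map_comm, hX, hY, hU]; exact h3
  have m4 : S.π (comm (comm X Y) (comm X U * comm Y U)) ∈ S.D := by
    rw [map_comm, map_mul, map_comm, map_comm, map_comm, hX, hY, hU]; exact h4
  have m1' : S.π ((comm X U)⁻¹ * comm X (comm Y U) * (comm X U)) ∈ S.D := by
    rw [map_mul, map_mul, map_inv]; exact S.D_conj _ _ m1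
  have m12 : S.π ((comm X U)⁻¹ * comm X (comm Y U) * (comm X U) *
      comm (comm X U) (comm Y U)) ∈ S.D := by
    rw [map_mul]; exact S.D.mul_mem m1' m2
  have m12' : S.π ((comm X Y)⁻¹ * ((comm X U)⁻¹ * comm X (comm Y U) * (comm X U) *
      comm (comm X U) (comm Y U)) * (comm X Y)) ∈ S.D := by
    rw [map_mul, map_mul, map_inv]; exact S.D_conj _ _ m12
  have m3' : S.π ((comm Y U)⁻¹ * comm (comm X U) Y * comm Y U) ∈ S.D := by
    rw [map_mul, map_mul, map_inv]; exact S.D_conj _ _ m3
  rw [S.add _ _ (by rw [map_mul]; exact S.D.mul_mem m12' m4) m3', S.add _ _ m12' m4,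
    S.T_conj _ _ m12, S.add _ _ m1' m2, S.T_conj _ _ m1, S.T_conj _ _ m3, e1, e2, e3, e4]
  ring

/-- squares -/
theorem SQ {x u : G} (h1 : S.DomQ (comm x u)) (h2 : S.Dom (comm x u) x) :
    S.Dom (x * x) u ∧ S.c (x * x) u = S.q (comm x u) + S.c (comm x u) x := by
  have hd : S.Dom (x * x) u := by
    unfold Dom
    rw [sq_identity]
    exact S.D.mul_mem h1 (S.D_conj _ _ h2)
  refine ⟨hd, ?_⟩
  set X := S.s x
  set U := S.s u
  have hX : S.π X = x := S.π_s x
  have hU : S.π U = u := S.π_s u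
  have e0 := S.lift' (X * X) U (x * x) u (by rw [map_mul, hX]) hU hd
  have e1 := S.liftq (comm X U) (by rw [map_comm, hX, hU]; exact h1)
  have e2 := S.lift' (comm X U) X (comm x u) x (by rw [map_comm, hX, hU]) hX h2
  rw [map_comm, hX, hU] at e1
  have m1 : S.π (comm X U * comm X U) ∈ S.D := by
    rw [map_mul, map_comm, hX, hU]; exact h1
  have m2 : S.π (comm (comm X U) X) ∈ S.D := by
    rw [map_comm, map_comm, hX, hU]; exact h2
  have m2' : S.π ((comm X U)⁻¹ * comm (comm X U) X * comm X U) ∈ S.D := by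
    rw [map_mul, map_mul, map_inv]; exact S.D_conj _ _ m2
  rw [← e0, sq_identity, S.add _ _ m1 m2', S.T_conj _ _ m2, e1, e2]

end Sys

end Pool.Agent.Nott
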