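import Pool.Agent.Nott.Calc

/-! # The list of facts about the Nottingham group used in the presentation argument -/

namespace Pool.Agent.Nott

/-- `x` and `y` are congruent modulo the (normal) subgroup `D` -/
def Cg {G : Type} [Group G] (D : Subgroup G) (x y : G) : Prop := y⁻¹ * x ∈ D

/-- `χ` is a `G`-invariant homomorphism on the normal subgroup `D` -/
def IsInv {G : Type} [Group G] (D : Subgroup G) (χ : G → ZMod 2) : Prop :=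
  (∀ a b, a ∈ D → b ∈ D → χ (a * b) = χ a + χ b) ∧ ∀ g a, a ∈ D → χ (g * a * g⁻¹) = χ a

/-- Facts about a group `G` with a filtration `F` and elements `o i` (`i` odd), `h j`. -/
structure Facts (G : Type) [Group G] where
  /-- filtration -/
  F : ℕ → Subgroup G
  /-- elements of odd depth, `o i ∈ F i` -/
  o : ℕ → G
  /-- elements of even depth, `h j ∈ F (j+2)` -/
  h : ℕ → G
  nor : ∀ n, (F n).Normal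
  anti : ∀ m n, m ≤ n → F n ≤ F m
  top : ∀ x, x ∈ F 1
  oF : ∀ i, i % 2 = 1 → o i ∈ F i
  hF : ∀ j, h j ∈ F (j + 2)
  cm : ∀ i j x y, x ∈ F i → y ∈ F j → comm x y ∈ F (i + j)
  sq : ∀ m x, x ∈ F m → x * x ∈ F (2 * m - 1)
  gen_one : ∀ x, ∃ a : ℕ, Cg (F 2) x (o 1 ^ a)
  gen_even : ∀ n x, n % 2 = 0 → 2 ≤ n → x ∈ F n → ∃ b : ℕ, Cg (F (n + 1)) x (h (n - 2) ^ b)
  gen_odd : ∀ n x, n % 2 = 1 → 3 ≤ n → x ∈ F n →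
    ∃ a b : ℕ, Cg (F (n + 1)) x (o n ^ a * h (n - 2) ^ b)
  sh_even : ∀ j, j % 2 = 0 → 2 ≤ j → Cg (F (j + 4)) (comm (h j) (o 1)) (h (j + 1))
  sh_odd : ∀ j, j % 2 = 1 → comm (h j) (o 1) ∈ F (j + 4)
  sh_ref : ∀ q, 2 ≤ q → Cg (F (2 * q + 6)) (comm (h (2 * q)) (o 1))
    (h (2 * q + 1) * h (2 * q + 2) ^ q * h (2 * q + 3) ^ q)
  so : ∀ i, i % 2 = 1 → comm (o i) (o 1) ∈ F (i + 2)
  rh_even : ∀ j, j % 2 = 0 → 2 ≤ j →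
    ∃ e : ℕ, Cg (F (j + 8)) (comm (h j) (h 0)) (h (j + 2) * h (j + 4) ^ e)
  rh_odd : ∀ j, j % 2 = 1 → 5 ≤ j → ∃ e : ℕ, Cg (F (j + 8)) (comm (h j) (h 0)) (h (j + 4) ^ e)
  rh_1 : comm (h 1) (h 0) ∈ F 6
  rh_3 : comm (h 3) (h 0) ∈ F 10
  ro : ∀ i, i % 2 = 1 → Cg (F (i + 4)) (comm (o i) (h 0)) (o (i + 2) * h i * h (i + 1))
  kh_even : ∀ k, k % 2 = 0 → 6 ≤ k → Cg (F (k + 10)) (comm (h k) (h 2)) (h (k + 6))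
  ko : ∀ i, i % 2 = 1 → 9 ≤ i →
    Cg (F (i + 8)) (comm (o i) (h 2)) (h (i + 2) * o (i + 6) * h (i + 5))
  t3h : ∀ j, j % 2 = 0 → 6 ≤ j →
    Cg (F (j + 10)) (comm (h j) (o 3)) (h (j + 3) * h (j + 6) ^ (j / 2))
  t3o : ∀ i, i % 2 = 1 → 9 ≤ i → Cg (F (i + 8)) (comm (o i) (o 3)) (o (i + 6) ^ ((i + 1) / 2))
  oh_even : ∀ i j, i % 2 = 1 → j % 2 = 0 →
    Cg (F (i + j + 2 + min i j)) (comm (o i) (h j)) (h (i + j))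
  oh_odd : ∀ i j, i % 2 = 1 → j % 2 = 1 → comm (o i) (h j) ∈ F (i + j + 2 + min i j)
  hh : ∀ i j, comm (h i) (h j) ∈ F (i + j + 4 + min i j)
  oo : ∀ i j, i % 2 = 1 → j % 2 = 1 → comm (o i) (o j) ∈ F (i + j + min i j)
  sqh : ∀ x, Cg (F (3 * x + 4)) (h x * h x) (h (2 * x + 1))
  sqo : ∀ i, i % 2 = 1 → o i * o i ∈ F (3 * i)
  sqo1 : o 1 * o 1 = o 3
  sqr : Cg (F 5) (h 0 * h 0) (h 1 * h 2)
  chiE : ∀ N, N % 2 = 0 → 2 ≤ N → ∃ χ : G → ZMod 2, IsInv (F (N + 1)) χ ∧ χ (h (N - 1)) = 1 ∧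
    ∀ a ∈ F (N + 2), χ a = 0
  chiE' : ∀ N, N % 2 = 0 → 2 ≤ N → ∃ χ : G → ZMod 2, IsInv (F (N + 1)) χ ∧ χ (h N) = 1 ∧
    ∀ a ∈ F (N + 3), χ a = 0
  chiO : ∀ N, N % 2 = 1 → 3 ≤ N → ∃ χ : G → ZMod 2, IsInv (F (N + 1)) χ ∧ χ (o (N + 2)) = 1 ∧
    χ (h N) = 0 ∧ ∀ a ∈ F (N + 3), χ a = 0

end Pool.Agent.Nott
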