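import Pool.Agent.Nott.Basic
import Pool.Agent.Nott.Facts

/-! # Taylor expansions and the coset criterion in the Nottingham group -/

open PowerSeries

namespace Pool.Agent.Nott

noncomputable section

theorem two_R : (2 : R) = 0 := CharTwo.two_eq_zero

theorem X_dvd_ser (g : J) : X ∣ g.ser := X_dvd_iff.mpr g.cc

theorem dvd_sub {a : ℕ} {F : R} (g : J) (h : X ^ a ∣ F) : X ^ a ∣ sub g F := by
  obtain ⟨c, rfl⟩ := h
  rw [map_mul, map_pow, sub_X]
  exact Dvd.dvd.mul_right (pow_dvd_pow_of_dvd (X_dvd_ser g) a) _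

theorem dvd_ev {a : ℕ} {F : R} (h : X ^ a ∣ F) : X ^ ((a + 1) / 2) ∣ ev F := by
  rw [X_pow_dvd_iff] at h ⊢
  intro m hm
  rw [coeff_ev]
  exact h _ (by omega)

theorem dvd_od {a : ℕ} {F : R} (h : X ^ a ∣ F) : X ^ (a / 2) ∣ od F := by
  rw [X_pow_dvd_iff] at h ⊢
  intro m hm
  rw [coeff_od]
  exact h _ (by omega)

theorem sq_dvd {m n : ℕ} {c : R} (h : X ^ m ∣ c) (hn : n ≤ 2 * m) : X ^ n ∣ c ^ 2 := by
  have h1 : (X : R) ^ (2 * m) ∣ c ^ 2 := by
    rw [mul_comm, pow_mul]
    exact pow_dvd_pow_of_dvd h 2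
  exact dvd_trans (pow_dvd_pow _ hn) h1

theorem dvd_mul' {m n k : ℕ} {a b : R} (h1 : X ^ m ∣ a) (h2 : X ^ n ∣ b) (hk : k ≤ m + n) :
    X ^ k ∣ a * b := by
  have := mul_dvd_mul h1 h2
  rw [← pow_add] at this
  exact dvd_trans (pow_dvd_pow _ hk) this

theorem dvd_mono {m n : ℕ} {a : R} (h : X ^ m ∣ a) (hn : n ≤ m) : X ^ n ∣ a :=
  dvd_trans (pow_dvd_pow _ hn) h

/-- the difference of two substitutions -/
theorem delta_eq (g g' : J) (F : R) : sub g' F + sub g F =
    (sub g' (ev F) + sub g (ev F)) ^ 2 + g'.ser * (sub g' (od F) + sub g (od F)) ^ 2 +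
      (g'.ser + g.ser) * sub g (od F) ^ 2 := by
  have h1 : sub g' F = sub g' (ev F) ^ 2 + g'.ser * sub g' (od F) ^ 2 := by
    conv_lhs => rw [decomp F]
    rw [map_add, map_mul, map_pow, map_pow, sub_X]
  have h2 : sub g F = sub g (ev F) ^ 2 + g.ser * sub g (od F) ^ 2 := by
    conv_lhs => rw [decomp F]
    rw [map_add, map_mul, map_pow, map_pow, sub_X]
  rw [h1, h2]
  linear_combination (-(sub g' (ev F) * sub g (ev F)) -
    g'.ser * (sub g' (od F) * sub g (od F)) - g'.ser * sub g (od F) ^ 2) * two_R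

theorem const_delta (g g' : J) (F : R) : X ∣ sub g' F + sub g F := by
  have key : ∀ (g : J), X ∣ sub g F + C (constantCoeff F) := by
    intro g
    have h1 : X ∣ F - C (constantCoeff F) := by
      rw [X_dvd_iff]; simp
    have h2 : X ^ 1 ∣ sub g (F - C (constantCoeff F)) := dvd_sub g (by rwa [pow_one])
    rw [pow_one, map_sub] at h2
    have h3 : sub g (C (constantCoeff F)) = C (constantCoeff F) := by
      have : ∀ c : ZMod 2, sub g (C c) = C c := by
        intro c
        fin_cases c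
        · show sub g (C 0) = C 0
          rw [map_zero, map_zero]
        · show sub g (C 1) = C 1
          rw [map_one, map_one]
      exact this _
    rw [h3, sub_eq] at h2
    exact h2
  have h := dvd_add (key g') (key g)
  have e : sub g' F + C (constantCoeff F) + (sub g F + C (constantCoeff F)) =
      sub g' F + sub g F := by
    linear_combination C (constantCoeff F) * two_R
  rwa [e] at h

theorem taylor_aux (g g' : J) (b : ℕ) (he : X ^ (b + 1) ∣ g'.ser + g.ser) :
    ∀ (k a : ℕ) (F : R), X ^ a ∣ F → X ^ (min (a + b) (2 ^ k)) ∣ sub g' F + sub g F := by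
  intro k
  induction k with
  | zero =>
    intro a F _
    have h := const_delta g g' F
    refine dvd_mono (m := 1) (by rwa [pow_one]) (min_le_right _ _)
  | succ k ih =>
    intro a F hF
    have hk : 1 ≤ 2 ^ k := Nat.one_le_two_pow
    have hk2 : 2 ^ (k + 1) = 2 * 2 ^ k := by ring
    rw [delta_eq, hk2]
    have h1 := ih _ _ (dvd_ev hF)
    have h2 := ih _ _ (dvd_od hF)
    have h3 : X ^ 1 ∣ g'.ser := by rw [pow_one]; exact X_dvd_ser g'
    have h4 : X ^ (2 * (a / 2)) ∣ sub g (od F) ^ 2 := sq_dvd (dvd_sub g (dvd_od hF)) le_rfl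
    refine dvd_add (dvd_add (sq_dvd h1 ?_) (dvd_mul' h3 (sq_dvd h2 le_rfl) ?_))
      (dvd_mul' he h4 ?_)
    · omega
    · omega
    · omega

/-- **Taylor, first order** -/
theorem taylor1 {g g' : J} {b a n : ℕ} {F : R} (he : X ^ (b + 1) ∣ g'.ser + g.ser)
    (hF : X ^ a ∣ F) (hn : n ≤ a + b) : X ^ n ∣ sub g' F + sub g F := by
  have h := taylor_aux g g' b he (a + b) a F hF
  refine dvd_mono h (le_trans hn ?_)
  exact le_min le_rfl (le_of_lt Nat.lt_two_pow_self)

/-- **Taylor, second order** -/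
theorem taylor2 {g g' : J} {b a n : ℕ} {F : R} (he : X ^ (b + 1) ∣ g'.ser + g.ser)
    (hF : X ^ a ∣ F) (hn : n ≤ a + 2 * b) :
    X ^ n ∣ sub g' F + sub g F + (g'.ser + g.ser) * sub g (od F) ^ 2 := by
  rw [delta_eq]
  have h1 := taylor1 (n := (a + 1) / 2 + b) he (dvd_ev hF) le_rfl
  have h2 := taylor1 (n := a / 2 + b) he (dvd_od hF) le_rfl
  have h3 : X ^ 1 ∣ g'.ser := by rw [pow_one]; exact X_dvd_ser g'
  have e : ∀ x y z : R, x + y + z + z = x + y := fun x y z => by linear_combination z * two_R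
  rw [e]
  refine dvd_add (sq_dvd h1 ?_) (dvd_mul' h3 (sq_dvd h2 le_rfl) ?_)
  · omega
  · omega

/-- congruence modulo `F n` -/
def cg (n : ℕ) (x y : J) : Prop := X ^ (n + 1) ∣ x.ser + y.ser ∧ X ^ (n - 1) ∣ w x + w y

theorem cg_refl (n : ℕ) (x : J) : cg n x x := by
  constructor <;> rw [add_self] <;> exact dvd_zero _

theorem cg_symm {n : ℕ} {x y : J} (h : cg n x y) : cg n y x := by
  obtain ⟨h1, h2⟩ := h
  exact ⟨by rwa [add_comm y.ser], by rwa [add_comm (w y)]⟩

theorem cg_trans {n : ℕ} {x y z : J} (h : cg n x y) (h' : cg n y z) : cg n x z := by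
  obtain ⟨h1, h2⟩ := h
  obtain ⟨h3, h4⟩ := h'
  constructor
  · have := dvd_add h1 h3
    have e : x.ser + y.ser + (y.ser + z.ser) = x.ser + z.ser := by
      linear_combination y.ser * two_R
    rwa [e] at this
  · have := dvd_add h2 h4
    have e : w x + w y + (w y + w z) = w x + w z := by
      linear_combination w y * two_R
    rwa [e] at this

theorem cg_mul_right {n : ℕ} {x y : J} (h : cg n x y) (g : J) : cg n (x * g) (y * g) := by
  obtain ⟨h1, h2⟩ := h
  constructor
  · rw [mul_ser', mul_ser', ← map_add]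
    exact dvd_sub g h1
  · rw [w_mul, w_mul, ← mul_add, ← map_add]
    exact Dvd.dvd.mul_left (dvd_sub g h2) _

theorem cg_mul_left {n : ℕ} {x y : J} (h : cg n x y) (g : J) : cg n (g * x) (g * y) := by
  obtain ⟨h1, h2⟩ := h
  constructor
  · rw [mul_ser', mul_ser']
    exact taylor1 (a := 1) (b := n) h1 (by rw [pow_one]; exact X_dvd_ser g) (by omega)
  · rw [w_mul, w_mul]
    have h3 : X ^ (n - 1) ∣ sub x (w g) + sub y (w g) :=
      taylor1 (a := 0) (b := n) h1 (by rw [pow_zero]; exact one_dvd _) (by omega)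
    have e : w x * sub x (w g) + w y * sub y (w g) =
        (w x + w y) * sub x (w g) + w y * (sub x (w g) + sub y (w g)) := by
      linear_combination -(w y * sub x (w g)) * two_R
    rw [e]
    exact dvd_add (Dvd.dvd.mul_right h2 _) (Dvd.dvd.mul_left h3 _)

theorem inF_iff (n : ℕ) (x : J) : inF n x ↔ cg n x 1 := by
  unfold inF cg
  rw [one_ser, w_one]

theorem cg_iff (n : ℕ) (x y : J) : cg n x y ↔ inF n (y⁻¹ * x) := by
  rw [inF_iff]
  constructor
  · intro h
    have := cg_mul_left h y⁻¹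
    rwa [inv_mul_cancel] at this
  · intro h
    have := cg_mul_left h y
    rwa [mul_inv_cancel_left, mul_one] at this

/-- the filtration subgroups -/
def Fn (n : ℕ) : Subgroup J where
  carrier := {x | inF n x}
  one_mem' := by
    show inF n 1
    rw [inF_iff]
    exact cg_refl n 1
  mul_mem' := by
    intro a b ha hb
    have ha' := (inF_iff n a).mp ha
    have hb' := (inF_iff n b).mp hb
    have := cg_mul_right ha' b
    rw [one_mul] at this
    exact (inF_iff n (a * b)).mpr (cg_trans this hb')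
  inv_mem' := by
    intro a ha
    have ha' := (inF_iff n a).mp ha
    have := cg_mul_left ha' a⁻¹
    rw [inv_mul_cancel, mul_one] at this
    exact (inF_iff n a⁻¹).mpr (cg_symm this)

theorem mem_Fn (n : ℕ) (x : J) : x ∈ Fn n ↔ inF n x := Iff.rfl

theorem mem_Fn' (n : ℕ) (x : J) : x ∈ Fn n ↔ X ^ (n + 1) ∣ x.ser + X ∧ X ^ (n - 1) ∣ w x + 1 :=
  Iff.rfl

theorem Cg_iff (n : ℕ) (x y : J) : Cg (Fn n) x y ↔ cg n x y := (cg_iff n x y).symm

theorem Fn_normal (n : ℕ) : (Fn n).Normal := by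
  constructor
  intro a ha g
  have ha' := (inF_iff n a).mp ha
  have := cg_mul_right (cg_mul_left ha' g) g⁻¹
  rw [mul_one, mul_inv_cancel] at this
  exact (inF_iff n _).mpr this

theorem Fn_anti (m n : ℕ) (h : m ≤ n) : Fn n ≤ Fn m := by
  rintro x ⟨h1, h2⟩
  exact ⟨dvd_mono h1 (by omega), dvd_mono h2 (by omega)⟩

theorem Fn_one (x : J) : x ∈ Fn 1 := by
  constructor
  · rw [X_pow_dvd_iff]
    intro m hm
    have : m = 0 ∨ m = 1 := by omega
    rcases this with rfl | rfl
    · rw [map_add, x.c0]; simp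
    · rw [map_add, x.c1, coeff_one_X]; exact CharTwo.add_self_eq_zero 1
  · exact one_dvd _

theorem Fn_zero (x : J) : x ∈ Fn 0 := Fn_anti 0 1 (by norm_num) (Fn_one x)

theorem comm_cg (n : ℕ) (x u a : J) : Cg (Fn n) (comm x u) a ↔ cg n (x * u) (u * (x * a)) := by
  rw [cg_iff]
  unfold Cg
  have : a⁻¹ * comm x u = (u * (x * a))⁻¹ * (x * u) := by simp only [comm]; group
  rw [this]
  rfl

theorem comm_mem (n : ℕ) (x u : J) : comm x u ∈ Fn n ↔ cg n (x * u) (u * x) := by
  have h := comm_cg n x u 1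
  rw [mul_one] at h
  rw [← h]
  unfold Cg
  rw [inv_one, one_mul]

/-- coordinate `x - X` -/
def xi (x : J) : R := x.ser + X

/-- coordinate `w x - 1` -/
def om (x : J) : R := w x + 1

theorem ser_eq (x : J) : x.ser = X + xi x := by
  unfold xi; linear_combination -X * two_R
theorem w_eq (x : J) : w x = 1 + om x := by
  unfold om; linear_combination -two_R

theorem od_add (F G : R) : od (F + G) = od F + od G := by
  ext n
  rw [coeff_od, map_add, map_add, coeff_od, coeff_od]

theorem od_X : od (X : R) = 1 := w_one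

theorem od_xi (x : J) : od (xi x) = om x := by
  unfold xi om
  rw [od_add, od_X]
  rfl

theorem mem_coord {k : ℕ} {x : J} : x ∈ Fn k ↔ X ^ (k + 1) ∣ xi x ∧ X ^ (k - 1) ∣ om x := Iff.rfl

theorem xi_one : xi 1 = 0 := by unfold xi; rw [one_ser]; exact add_self _
theorem om_one : om 1 = 0 := by unfold om; rw [w_one]; exact add_self _

/-- coordinates of a product -/
theorem xi_mul (x y : J) : xi (x * y) = xi x + xi y + (sub y (xi x) + sub 1 (xi x)) := by
  unfold xi
  rw [mul_ser', map_add, map_add, sub_X, sub_one, sub_X, one_ser]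
  linear_combination (-x.ser - y.ser - X) * two_R

theorem om_mul (x y : J) : om (x * y) = om x + om y + om x * om y +
    (sub y (om x) + sub 1 (om x)) * w y := by
  have e : sub y (w x) = 1 + sub y (om x) := by rw [w_eq x, map_add, map_one]
  have e1 : sub 1 (om x) = om x := sub_one _
  rw [e1]
  have e2 : om (x * y) = w y * sub y (w x) + 1 := by
    show w (x * y) + 1 = _
    rw [w_mul]
  rw [e2, e, w_eq y]
  linear_combination (-om x * (1 + om y) + 1) * two_R

theorem xi_mul_cg {k l n : ℕ} {x y : J} (hx : x ∈ Fn k) (hy : y ∈ Fn l) (hn : n ≤ k + l + 1) :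
    X ^ n ∣ xi (x * y) + (xi x + xi y) := by
  rw [xi_mul]
  have h1 := (mem_coord.mp hx).1
  have h2 := (mem_coord.mp hy).1
  have e : xi x + xi y + (sub y (xi x) + sub 1 (xi x)) + (xi x + xi y) =
      sub y (xi x) + sub 1 (xi x) := by linear_combination (xi x + xi y) * two_R
  rw [e]
  exact taylor1 (a := k + 1) (b := l) (by rw [one_ser]; exact h2) h1 (by omega)

theorem om_mul_cg {k l n : ℕ} {x y : J} (hx : x ∈ Fn k) (hy : y ∈ Fn l) (hn : n + 2 ≤ k + l) :
    X ^ n ∣ om (x * y) + (om x + om y) := by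
  rw [om_mul]
  have h1 := (mem_coord.mp hx).2
  have h2 := (mem_coord.mp hy).2
  have h3 := (mem_coord.mp hy).1
  have e : om x + om y + om x * om y + (sub y (om x) + sub 1 (om x)) * w y + (om x + om y) =
      om x * om y + (sub y (om x) + sub 1 (om x)) * w y := by
    linear_combination (om x + om y) * two_R
  rw [e]
  refine dvd_add (dvd_mul' h1 h2 (by omega)) (Dvd.dvd.mul_right ?_ _)
  exact taylor1 (a := k - 1) (b := l) (by rw [one_ser]; exact h3) h1 (by omega)

/-- **linearised commutator criterion** -/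
theorem lin {k k' n : ℕ} {x u a : J} (hx : x ∈ Fn k) (ha : a ∈ Fn k') (hk : 1 ≤ k) (hkk : k ≤ k')
    (hk2 : 2 ≤ k')
    (h2 : n ≤ 2 * k) (h3 : n + 1 ≤ k + k')
    (e1 : X ^ (n + 1) ∣ sub u (xi x) + (xi x + xi a) * w u ^ 2)
    (e2 : X ^ (n - 1) ∣ w u * (sub u (om x) + om x + om a) + (xi x + xi a) * od (w u) ^ 2) :
    Cg (Fn n) (comm x u) a := by
  rw [comm_cg]
  have hxa : x * a ∈ Fn k := (Fn k).mul_mem hx (Fn_anti _ _ hkk ha)
  have z1 := (mem_coord.mp hxa).1
  have x1 := mem_coord.mp hx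
  have a1 := mem_coord.mp ha
  have t1 : X ^ (n + 1) ∣ sub (x * a) u.ser + sub 1 u.ser +
      ((x * a).ser + (1 : J).ser) * sub 1 (od u.ser) ^ 2 :=
    taylor2 (a := 1) (b := k) (by rw [one_ser]; exact z1) (by rw [pow_one]; exact X_dvd_ser u)
      (by omega)
  have hadd := xi_mul_cg (n := n + 1) hx ha (by omega)
  constructor
  · rw [mul_ser', mul_ser']
    have s1 : sub u x.ser = u.ser + sub u (xi x) := by rw [ser_eq x, map_add, sub_X]
    have s2 : (x * a).ser + (1 : J).ser = xi (x * a) := by rw [one_ser]; rfl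
    have s3 : sub 1 (od u.ser) = w u := sub_one _
    rw [s2, s3, sub_one] at t1
    rw [s1]
    have := dvd_add (dvd_add t1 e1) (Dvd.dvd.mul_right hadd (w u ^ 2))
    have e : sub (x * a) u.ser + u.ser + xi (x * a) * w u ^ 2 +
        (sub u (xi x) + (xi x + xi a) * w u ^ 2) + (xi (x * a) + (xi x + xi a)) * w u ^ 2 =
        u.ser + sub u (xi x) + sub (x * a) u.ser := by
      linear_combination (xi (x * a) * w u ^ 2 + (xi x + xi a) * w u ^ 2) * two_R
    rwa [e] at this
  · rw [w_mul, w_mul]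
    have s1 : sub u (w x) = 1 + sub u (om x) := by rw [w_eq x, map_add, map_one]
    have t2 : X ^ (n - 1) ∣ sub (x * a) (w u) + sub 1 (w u) +
        ((x * a).ser + (1 : J).ser) * sub 1 (od (w u)) ^ 2 :=
      taylor2 (a := 0) (b := k) (by rw [one_ser]; exact z1) (by rw [pow_zero]; exact one_dvd _)
        (by omega)
    have s2 : (x * a).ser + (1 : J).ser = xi (x * a) := by rw [one_ser]; rfl
    rw [s2, sub_one, sub_one] at t2
    have hom := om_mul_cg (n := n - 1) hx ha (by omega)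
    rw [s1]
    set A := w (x * a) with hA
    set B := sub (x * a) (w u) with hB
    have hA' : om (x * a) = A + 1 := rfl
    rw [hA'] at hom
    -- A ≡ 1 + om x + om a, B ≡ w u + xi (x a) * (od (w u))^2
    have hadd' : X ^ (n - 1) ∣ xi (x * a) + (xi x + xi a) := dvd_mono hadd (by omega)
    have hA1 : X ^ (k - 1) ∣ A + 1 := (mem_coord.mp hxa).2
    have hprod : X ^ (n - 1) ∣ (A + 1) * (xi (x * a) * od (w u) ^ 2) :=
      dvd_mul' hA1 (Dvd.dvd.mul_right z1 _) (by omega)
    have := dvd_add (dvd_add (dvd_add (Dvd.dvd.mul_left t2 A) e2) hprod)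
      (dvd_add (Dvd.dvd.mul_right hom (w u)) (Dvd.dvd.mul_right hadd' (od (w u) ^ 2)))
    have e : A * (B + w u + xi (x * a) * od (w u) ^ 2) +
        (w u * (sub u (om x) + om x + om a) + (xi x + xi a) * od (w u) ^ 2) +
        (A + 1) * (xi (x * a) * od (w u) ^ 2) +
        ((A + 1 + (om x + om a)) * w u + (xi (x * a) + (xi x + xi a)) * od (w u) ^ 2) =
        w u * (1 + sub u (om x)) + A * B := by
      linear_combination (A * w u + A * (xi (x * a) * od (w u) ^ 2) +
        w u * (om x + om a) + (xi x + xi a) * od (w u) ^ 2 + xi (x * a) * od (w u) ^ 2) * two_R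
    rwa [e] at this

theorem od_X_pow_even (m : ℕ) : od ((X : R) ^ (2 * m)) = 0 := by
  ext n
  rw [coeff_od, coeff_X_pow, if_neg (by omega), map_zero]

theorem od_X_pow_odd (m : ℕ) : od ((X : R) ^ (2 * m + 1)) = X ^ m := by
  ext n
  rw [coeff_od, coeff_X_pow, coeff_X_pow]
  by_cases h : n = m
  · rw [if_pos (by omega), if_pos h]
  · rw [if_neg (by omega), if_neg h]

theorem ev_X_pow_even (m : ℕ) : ev ((X : R) ^ (2 * m)) = X ^ m := by
  ext n
  rw [coeff_ev, coeff_X_pow, coeff_X_pow]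
  by_cases h : n = m
  · rw [if_pos (by omega), if_pos h]
  · rw [if_neg (by omega), if_neg h]

/-- the element `X + X^(m+2)` -/
def mono (m : ℕ) : J := ⟨X + X ^ (m + 2), by
  rw [map_add, coeff_zero_X, coeff_X_pow, if_neg (by omega), add_zero], by
  rw [map_add, coeff_one_X, coeff_X_pow, if_neg (by omega), add_zero]⟩

theorem xi_mono (m : ℕ) : xi (mono m) = X ^ (m + 2) := by
  show X + X ^ (m + 2) + X = _
  linear_combination X * two_R

/-- `o i = X + X^(i+1)` (for `i ≥ 1`) -/
def oJ (i : ℕ) : J := mono (i - 1)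

/-- `h j = X + X^(2j+3)` -/
def hJ (j : ℕ) : J := mono (2 * j + 1)

theorem oJ_ser (i : ℕ) (hi : 1 ≤ i) : (oJ i).ser = X + X ^ (i + 1) := by
  show X + X ^ (i - 1 + 2) = _
  rw [show i - 1 + 2 = i + 1 by omega]

theorem hJ_ser (j : ℕ) : (hJ j).ser = X + X ^ (2 * j + 3) := rfl

theorem xi_o (i : ℕ) (hi : 1 ≤ i) : xi (oJ i) = X ^ (i + 1) := by
  unfold oJ
  rw [xi_mono, show i - 1 + 2 = i + 1 by omega]

theorem xi_h (j : ℕ) : xi (hJ j) = X ^ (2 * j + 3) := xi_mono _

theorem om_o (i : ℕ) (hi : i % 2 = 1) : om (oJ i) = 0 := by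
  rw [← od_xi, xi_o i (by omega), show i + 1 = 2 * ((i + 1) / 2) by omega, od_X_pow_even]

theorem om_h (j : ℕ) : om (hJ j) = X ^ (j + 1) := by
  rw [← od_xi, xi_h, show 2 * j + 3 = 2 * (j + 1) + 1 by omega, od_X_pow_odd]

theorem w_o (i : ℕ) (hi : i % 2 = 1) : w (oJ i) = 1 := by rw [w_eq, om_o i hi, add_zero]

theorem w_h (j : ℕ) : w (hJ j) = 1 + X ^ (j + 1) := by rw [w_eq, om_h]

theorem oJ_mem (i : ℕ) (hi : i % 2 = 1) : oJ i ∈ Fn i := by
  rw [mem_coord, xi_o i (by omega), om_o i hi]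
  exact ⟨dvd_rfl, dvd_zero _⟩

theorem hJ_mem (j : ℕ) : hJ j ∈ Fn (j + 2) := by
  rw [mem_coord, xi_h, om_h]
  exact ⟨pow_dvd_pow _ (by omega), pow_dvd_pow _ (by omega)⟩

end

end Pool.Agent.Nott
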