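import Pool.Agent.Nott.Coset

/-! # Small and diagonal relations in the Nottingham group -/

open PowerSeries

namespace Pool.Agent.Nott

noncomputable section

/-- congruence of series modulo `X ^ n` -/
def Mo (n : ℕ) (a b : R) : Prop := X ^ n ∣ a + b

namespace Mo

theorem refl (n : ℕ) (a : R) : Mo n a a := by unfold Mo; rw [add_self]; exact dvd_zero _

theorem symm {n : ℕ} {a b : R} (h : Mo n a b) : Mo n b a := by unfold Mo at *; rwa [add_comm]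

theorem trans {n : ℕ} {a b c : R} (h : Mo n a b) (h' : Mo n b c) : Mo n a c := by
  unfold Mo at *
  have := dvd_add h h'
  have e : a + b + (b + c) = a + c := by linear_combination b * two_R
  rwa [e] at this

theorem add {n : ℕ} {a b c d : R} (h : Mo n a b) (h' : Mo n c d) : Mo n (a + c) (b + d) := by
  unfold Mo at *
  have := dvd_add h h'
  have e : a + b + (c + d) = a + c + (b + d) := by ring
  rwa [e] at this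

theorem mul {n : ℕ} {a b c d : R} (h : Mo n a b) (h' : Mo n c d) : Mo n (a * c) (b * d) := by
  unfold Mo at *
  have := dvd_add (Dvd.dvd.mul_right h c) (Dvd.dvd.mul_left h' b)
  have e : (a + b) * c + b * (c + d) = a * c + b * d := by linear_combination (b * c) * two_R
  rwa [e] at this

theorem pow {n : ℕ} {a b : R} (h : Mo n a b) (k : ℕ) : Mo n (a ^ k) (b ^ k) := by
  induction k with
  | zero => rw [pow_zero, pow_zero]; exact refl n 1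
  | succ k ih => rw [pow_succ, pow_succ]; exact mul ih h

end Mo

theorem hmul_ser (j : ℕ) (g : J) : (hJ j * g).ser = g.ser + g.ser ^ (2 * j + 3) := by
  rw [mul_ser', hJ_ser, map_add, map_pow, sub_X]

theorem omul_ser (i : ℕ) (hi : 1 ≤ i) (g : J) : (oJ i * g).ser = g.ser + g.ser ^ (i + 1) := by
  rw [mul_ser', oJ_ser i hi, map_add, map_pow, sub_X]

theorem hmul_w (j : ℕ) (g : J) : w (hJ j * g) = w g * (1 + g.ser ^ (j + 1)) := by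
  rw [w_mul, w_h, map_add, map_pow, sub_X, map_one]

theorem omul_w (i : ℕ) (hi : i % 2 = 1) (g : J) : w (oJ i * g) = w g := by
  rw [w_mul, w_o i hi, map_one, mul_one]

/-- `(1 + y) ^ n ≡ 1` modulo `y` -/
theorem one_add_pow_dvd (y : R) (n : ℕ) : y ∣ (1 + y) ^ n + 1 := by
  have h : (1 + y) - 1 ∣ (1 + y) ^ n - 1 ^ n := sub_dvd_pow_sub_pow _ _ _
  rwa [one_pow, add_sub_cancel_left, sub_eq] at h

theorem J_sqo (i : ℕ) (hi : i % 2 = 1) : oJ i * oJ i ∈ Fn (3 * i) := by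
  rw [mem_Fn']
  constructor
  · rw [omul_ser i (by omega), oJ_ser i (by omega)]
    obtain ⟨m, rfl⟩ : ∃ m, i = 2 * m + 1 := ⟨i / 2, by omega⟩
    obtain ⟨c, hc⟩ := one_add_pow_dvd (X ^ (2 * (2 * m + 1))) (m + 1)
    have e1 : (X + X ^ (2 * m + 1 + 1) : R) ^ (2 * m + 1 + 1) =
        X ^ (2 * m + 2) * (1 + X ^ (2 * (2 * m + 1))) ^ (m + 1) := by
      have : (X + X ^ (2 * m + 1 + 1) : R) ^ 2 = X ^ 2 * (1 + X ^ (2 * (2 * m + 1))) := by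
        rw [add_sq']; ring
      rw [show 2 * m + 1 + 1 = 2 * (m + 1) by ring, pow_mul,
        show 2 * (m + 1) = 2 * m + 1 + 1 by ring, this, mul_pow]
      congr 1
      rw [← pow_mul]; congr 1
    rw [e1]
    refine ⟨c, ?_⟩
    have e2 : (1 + X ^ (2 * (2 * m + 1)) : R) ^ (m + 1) = 1 + X ^ (2 * (2 * m + 1)) * c := by
      rw [← hc]; linear_combination -two_R
    rw [e2]
    linear_combination (X + X ^ (2 * m + 2)) * two_R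
  · rw [omul_w i hi, w_o i hi, add_self]
    exact dvd_zero _

theorem J_sqo1 : oJ 1 * oJ 1 = oJ 3 := by
  apply J.ext
  rw [omul_ser 1 le_rfl, oJ_ser 1 le_rfl, oJ_ser 3 (by norm_num)]
  linear_combination (X ^ 2 + X ^ 3) * two_R

theorem J_sqh (x : ℕ) : Cg (Fn (3 * x + 4)) (hJ x * hJ x) (hJ (2 * x + 1)) := by
  rw [Cg_iff]
  constructor
  · rw [hmul_ser, hJ_ser, hJ_ser]
    obtain ⟨c, hc⟩ := one_add_pow_dvd (X ^ (2 * x + 2)) (2 * x + 3)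
    have e1 : (X + X ^ (2 * x + 3) : R) ^ (2 * x + 3) =
        X ^ (2 * x + 3) * (1 + X ^ (2 * x + 2)) ^ (2 * x + 3) := by
      rw [← mul_pow]; congr 1; ring
    have e2 : (1 + X ^ (2 * x + 2) : R) ^ (2 * x + 3) = 1 + X ^ (2 * x + 2) * c := by
      rw [← hc]; linear_combination -two_R
    rw [e1, e2]
    refine ⟨X ^ x * c + X ^ x, ?_⟩
    rw [show 2 * (2 * x + 1) + 3 = (3 * x + 4 + 1) + x by ring, pow_add (X : R) (3 * x + 4 + 1) x]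
    linear_combination (X + X ^ (2 * x + 3)) * two_R
  · rw [hmul_w, w_h, w_h, hJ_ser]
    obtain ⟨c, hc⟩ := one_add_pow_dvd (X ^ (2 * x + 2)) (x + 1)
    have e1 : (X + X ^ (2 * x + 3) : R) ^ (x + 1) =
        X ^ (x + 1) * (1 + X ^ (2 * x + 2)) ^ (x + 1) := by
      rw [← mul_pow]; congr 1; ring
    have e2 : (1 + X ^ (2 * x + 2) : R) ^ (x + 1) = 1 + X ^ (2 * x + 2) * c := by
      rw [← hc]; linear_combination -two_R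
    rw [e1, e2, show 3 * x + 4 - 1 = 3 * x + 3 by omega]
    refine ⟨c + X ^ (x + 1) * c, ?_⟩
    rw [show 3 * x + 3 = (x + 1) + (x + 1) + (x + 1) by ring,
      show 2 * x + 2 = (x + 1) + (x + 1) by ring, pow_add, pow_add]
    linear_combination (1 + X ^ (x + 1) + X ^ (x + 1) * X ^ (x + 1)) * two_R

theorem J_sqr : Cg (Fn 5) (hJ 0 * hJ 0) (hJ 1 * hJ 2) := by
  rw [Cg_iff]
  constructor
  · rw [hmul_ser, hmul_ser, hJ_ser, hJ_ser]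
    exact ⟨X ^ 3 + X ^ 5 + X ^ 23 + X ^ 29, by linear_combination (X ^ 1 + X ^ 3 + 2 * X ^ 5 + 2 * X ^ 7 + 2 * X ^ 11 + 5 * X ^ 17 + 5 * X ^ 23 + 2 * X ^ 29) * two_R⟩
  · rw [hmul_w, hmul_w, w_h, w_h, hJ_ser, hJ_ser]
    exact ⟨1 + X ^ 1 + X ^ 10 + X ^ 13, by linear_combination (1 + X ^ 1 + X ^ 2 + X ^ 3 + X ^ 8 + X ^ 11) * two_R⟩

theorem J_rh_1 : comm (hJ 1) (hJ 0) ∈ Fn 6 := by
  rw [comm_mem]
  constructor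
  · rw [hmul_ser, hmul_ser, hJ_ser, hJ_ser]
    exact ⟨X ^ 4 + X ^ 6, by linear_combination (X ^ 1 + X ^ 3 + X ^ 5 + 4 * X ^ 7 + 5 * X ^ 9 + 6 * X ^ 11 + 2 * X ^ 13 + X ^ 15) * two_R⟩
  · rw [hmul_w, hmul_w, w_h, w_h, hJ_ser, hJ_ser]
    exact ⟨1 + X ^ 1, by linear_combination (1 + X ^ 1 + X ^ 2 + X ^ 3 + X ^ 4 + X ^ 5 + X ^ 7) * two_R⟩

theorem J_rh_3 : comm (hJ 3) (hJ 0) ∈ Fn 10 := by
  rw [comm_mem]
  constructor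
  · rw [hmul_ser, hmul_ser, hJ_ser, hJ_ser]
    exact ⟨X ^ 8 + X ^ 14, by linear_combination (X ^ 1 + X ^ 3 + X ^ 9 + 6 * X ^ 11 + 18 * X ^ 13 + 42 * X ^ 15 + 63 * X ^ 17 + 64 * X ^ 19 + 42 * X ^ 21 + 18 * X ^ 23 + 4 * X ^ 25 + X ^ 27) * two_R⟩
  · rw [hmul_w, hmul_w, w_h, w_h, hJ_ser, hJ_ser]
    exact ⟨1 + X ^ 3, by linear_combination (1 + X ^ 1 + X ^ 4 + X ^ 5 + 2 * X ^ 6 + 2 * X ^ 7 + 3 * X ^ 8 + 3 * X ^ 9 + 2 * X ^ 10 + 2 * X ^ 11 + X ^ 13) * two_R⟩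

theorem J_ro_1 : Cg (Fn 5) (comm (oJ 1) (hJ 0)) (oJ 3 * hJ 1 * hJ 2) := by
  rw [comm_cg]
  have b0 : (hJ 1 * hJ 2).ser = (X + X ^ 7) + (X + X ^ 7) ^ 5 := by rw [hmul_ser, hJ_ser]
  have b1 : Mo 6 (hJ 1 * hJ 2).ser (X + X ^ 5) := by
    rw [b0]
    exact ⟨X ^ 1 + X ^ 5 + X ^ 23 + X ^ 29, by linear_combination (X ^ 1 + X ^ 5 + 2 * X ^ 11 + 5 * X ^ 17 + 5 * X ^ 23 + 2 * X ^ 29) * two_R⟩
  have a1 : Mo 6 (oJ 3 * hJ 1 * hJ 2).ser (X + X ^ 4 + X ^ 5) := by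
    rw [mul_assoc, omul_ser 3 (by norm_num)]
    refine (b1.add (b1.pow 4)).trans ?_
    exact ⟨X ^ 14, by linear_combination (X ^ 1 + X ^ 4 + X ^ 5 + 2 * X ^ 8 + 3 * X ^ 12 + 2 * X ^ 16) * two_R⟩
  have u1 : Mo 6 (oJ 1 * (oJ 3 * hJ 1 * hJ 2)).ser (X + X ^ 2 + X ^ 4 + X ^ 5) := by
    rw [omul_ser 1 (by norm_num)]
    refine (a1.add (a1.pow 2)).trans ?_
    exact ⟨X ^ 2 + X ^ 4, by linear_combination (X ^ 1 + X ^ 2 + X ^ 4 + 2 * X ^ 5 + X ^ 6 + X ^ 9) * two_R⟩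
  have v1 : Mo 6 (hJ 0 * (oJ 1 * (oJ 3 * hJ 1 * hJ 2))).ser (X + X ^ 2 + X ^ 3) := by
    rw [hmul_ser]
    refine (u1.add (u1.pow 3)).trans ?_
    exact ⟨X ^ 1 + X ^ 2 + X ^ 4 + X ^ 5 + X ^ 7 + X ^ 8 + X ^ 9, by linear_combination (X ^ 1 + X ^ 2 + X ^ 3 + 2 * X ^ 4 + 2 * X ^ 5 + 2 * X ^ 6 + 4 * X ^ 7 + 4 * X ^ 8 + 3 * X ^ 9 + 4 * X ^ 10 + 4 * X ^ 11 + 2 * X ^ 12 + X ^ 13 + X ^ 14) * two_R⟩
  have l1 : Mo 6 (oJ 1 * hJ 0).ser (X + X ^ 2 + X ^ 3) := by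
    rw [omul_ser 1 le_rfl, hJ_ser]
    exact ⟨1, by linear_combination (X ^ 1 + X ^ 2 + X ^ 3 + X ^ 4) * two_R⟩
  have wa : Mo 4 (w (oJ 3 * hJ 1 * hJ 2)) (1 + X ^ 2 + X ^ 3) := by
    rw [mul_assoc, omul_w 3 rfl, hmul_w, w_h, hJ_ser]
    exact ⟨X ^ 1 + X ^ 10 + X ^ 13, by linear_combination (1 + X ^ 2 + X ^ 3 + X ^ 8 + X ^ 11) * two_R⟩
  refine ⟨l1.trans v1.symm, ?_⟩
  have u2 : Mo 4 (oJ 1 * (oJ 3 * hJ 1 * hJ 2)).ser (X + X ^ 2 + X ^ 4 + X ^ 5) :=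
    dvd_mono u1 (by norm_num)
  have e := wa.mul ((Mo.refl 4 1).add (u2.pow 1))
  rw [omul_w 1 rfl, w_h, hmul_w, omul_w 1 rfl]
  refine Mo.trans ?_ e.symm
  exact ⟨1 + X ^ 2 + X ^ 4, by linear_combination (1 + X ^ 1 + X ^ 2 + X ^ 3 + X ^ 4 + X ^ 5 + X ^ 7) * two_R⟩

theorem J_ro_3 : Cg (Fn 7) (comm (oJ 3) (hJ 0)) (oJ 5 * hJ 3 * hJ 4) := by
  rw [comm_cg]
  have b0 : (hJ 3 * hJ 4).ser = (X + X ^ 11) + (X + X ^ 11) ^ 9 := by rw [hmul_ser, hJ_ser]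
  have b1 : Mo 8 (hJ 3 * hJ 4).ser X := by
    rw [b0]
    exact ⟨X ^ 1 + X ^ 3 + X ^ 11 + X ^ 81 + X ^ 91, by linear_combination (X ^ 1 + 4 * X ^ 19 + 18 * X ^ 29 + 42 * X ^ 39 + 63 * X ^ 49 + 63 * X ^ 59 + 42 * X ^ 69 + 18 * X ^ 79 + 4 * X ^ 89) * two_R⟩
  have a1 : Mo 8 (oJ 5 * hJ 3 * hJ 4).ser (X + X ^ 6) := by
    rw [mul_assoc, omul_ser 5 (by norm_num)]
    exact b1.add (b1.pow 6)
  have u1 : Mo 8 (oJ 3 * (oJ 5 * hJ 3 * hJ 4)).ser (X + X ^ 4 + X ^ 6) := by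
    rw [omul_ser 3 (by norm_num)]
    refine (a1.add (a1.pow 4)).trans ?_
    exact ⟨X ^ 16, by linear_combination (X ^ 1 + X ^ 4 + X ^ 6 + 2 * X ^ 9 + 3 * X ^ 14 + 2 * X ^ 19) * two_R⟩
  have v1 : Mo 8 (hJ 0 * (oJ 3 * (oJ 5 * hJ 3 * hJ 4))).ser (X + X ^ 3 + X ^ 4) := by
    rw [hmul_ser]
    refine (u1.add (u1.pow 3)).trans ?_
    exact ⟨1 + X ^ 1 + X ^ 4 + X ^ 5 + X ^ 6 + X ^ 8 + X ^ 10, by linear_combination (X ^ 1 + X ^ 3 + X ^ 4 + 2 * X ^ 6 + X ^ 8 + X ^ 9 + 3 * X ^ 11 + X ^ 13 + X ^ 14 + X ^ 16) * two_R⟩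
  have l1 : Mo 8 (oJ 3 * hJ 0).ser (X + X ^ 3 + X ^ 4) := by
    rw [omul_ser 3 (by norm_num), hJ_ser]
    exact ⟨X ^ 4, by linear_combination (X ^ 1 + X ^ 3 + X ^ 4 + 2 * X ^ 6 + 3 * X ^ 8 + 2 * X ^ 10) * two_R⟩
  have wa : Mo 6 (w (oJ 5 * hJ 3 * hJ 4)) (1 + X ^ 4 + X ^ 5) := by
    rw [mul_assoc, omul_w 5 rfl, hmul_w, w_h, hJ_ser]
    exact ⟨X ^ 3 + X ^ 38 + X ^ 43, by linear_combination (1 + X ^ 4 + X ^ 5 + 2 * X ^ 14 + 2 * X ^ 19 + 3 * X ^ 24 + 3 * X ^ 29 + 2 * X ^ 34 + 2 * X ^ 39) * two_R⟩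
  refine ⟨l1.trans v1.symm, ?_⟩
  have u2 : Mo 6 (oJ 3 * (oJ 5 * hJ 3 * hJ 4)).ser (X + X ^ 4 + X ^ 6) :=
    dvd_mono u1 (by norm_num)
  have e := wa.mul ((Mo.refl 6 1).add (u2.pow 1))
  rw [omul_w 3 rfl, w_h, hmul_w, omul_w 3 rfl]
  refine Mo.trans ?_ e.symm
  exact ⟨X ^ 2 + X ^ 3 + X ^ 4 + X ^ 5, by linear_combination (1 + X ^ 1 + X ^ 4 + X ^ 5 + X ^ 6) * two_R⟩

theorem J_ro_1_3 (i : ℕ) (hi : i = 1 ∨ i = 3) :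
    Cg (Fn (i + 4)) (comm (oJ i) (hJ 0)) (oJ (i + 2) * hJ i * hJ (i + 1)) := by
  rcases hi with rfl | rfl
  · exact J_ro_1
  · exact J_ro_3

theorem J_rh_even_2 : Cg (Fn 10) (comm (hJ 2) (hJ 0)) (hJ 4 * hJ 6 ^ 0) := by
  rw [pow_zero, mul_one, comm_cg]
  have u1 : Mo 11 (hJ 2 * hJ 4).ser (X + X ^ 7) := by
    rw [hmul_ser, hJ_ser]
    exact ⟨1 + X ^ 6 + X ^ 16 + X ^ 26 + X ^ 36 + X ^ 46 + X ^ 56 + X ^ 66, by linear_combination (X ^ 1 + X ^ 7 + 3 * X ^ 17 + 10 * X ^ 27 + 17 * X ^ 37 + 17 * X ^ 47 + 10 * X ^ 57 + 3 * X ^ 67) * two_R⟩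
  have v1 : Mo 11 (hJ 0 * (hJ 2 * hJ 4)).ser (X + X ^ 3 + X ^ 7 + X ^ 9) := by
    rw [hmul_ser]
    refine (u1.add (u1.pow 3)).trans ?_
    exact ⟨X ^ 4 + X ^ 10, by linear_combination (X ^ 1 + X ^ 3 + X ^ 7 + 2 * X ^ 9 + X ^ 15) * two_R⟩
  have l1 : Mo 11 (hJ 2 * hJ 0).ser (X + X ^ 3 + X ^ 7 + X ^ 9) := by
    rw [hmul_ser, hJ_ser]
    exact ⟨1 + X ^ 2 + X ^ 4 + X ^ 6 + X ^ 8 + X ^ 10, by linear_combination (X ^ 1 + X ^ 3 + X ^ 7 + 4 * X ^ 9 + 10 * X ^ 11 + 17 * X ^ 13 + 17 * X ^ 15 + 10 * X ^ 17 + 3 * X ^ 19) * two_R⟩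
  refine ⟨l1.trans v1.symm, ?_⟩
  have u2 : Mo 9 (hJ 2 * hJ 4).ser (X + X ^ 7) := dvd_mono u1 (by norm_num)
  have wa : Mo 9 (w (hJ 2 * hJ 4)) (1 + X ^ 3 + X ^ 5 + X ^ 8) := by
    rw [hmul_w, w_h, hJ_ser]
    exact ⟨X ^ 4 + X ^ 9 + X ^ 14 + X ^ 19 + X ^ 24 + X ^ 29, by linear_combination (1 + X ^ 3 + X ^ 5 + X ^ 8 + X ^ 13 + X ^ 18 + X ^ 23 + X ^ 28) * two_R⟩
  have e := wa.mul ((Mo.refl 9 1).add (u2.pow 1))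
  rw [hmul_w, hmul_w 0, w_h, hJ_ser]
  refine Mo.trans ?_ e.symm
  exact ⟨X ^ 3 + X ^ 6, by linear_combination (1 + X ^ 1 + X ^ 3 + X ^ 4 + 2 * X ^ 5 + 2 * X ^ 6 + 2 * X ^ 7 + 2 * X ^ 8 + X ^ 9 + X ^ 10) * two_R⟩

end

end Pool.Agent.Nott
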