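import Pool.Agent.Nott.Coset

/-! # Commutators of the generators: the (o,h), (h,h) and (o,o) congruences -/

open PowerSeries

namespace Pool.Agent.Nott

noncomputable section

/-- substitution changes a power of `X` little -/
theorem sub_pow_cg {b a n : ℕ} {u : J} (hu : X ^ (b + 1) ∣ xi u) (hn : n ≤ a + b) :
    X ^ n ∣ sub u (X ^ a) + X ^ a := by
  have h := taylor1 (g := 1) (g' := u) (b := b) (a := a) (n := n) (F := X ^ a)
    (by rw [one_ser]; exact hu) dvd_rfl hn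
  rwa [sub_one] at h

/-- substitution changes an even power of `X` very little -/
theorem sub_even_cg {b a n : ℕ} {u : J} (hu : X ^ (b + 1) ∣ xi u) (ha : a % 2 = 0)
    (hn : n ≤ a + 2 * b) : X ^ n ∣ sub u (X ^ a) + X ^ a := by
  obtain ⟨m, rfl⟩ : ∃ m, a = 2 * m := ⟨a / 2, by omega⟩
  have h := sub_pow_cg (a := m) (n := m + b) hu le_rfl
  have e : sub u (X ^ (2 * m)) + X ^ (2 * m) = (sub u (X ^ m) + X ^ m) ^ 2 := by
    rw [mul_comm 2 m, pow_mul, map_pow]
    linear_combination -(sub u (X ^ m) * X ^ m) * two_R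
  rw [e]
  exact sq_dvd h (by omega)

/-- substitution into an odd power of `X`, second order -/
theorem sub_odd_cg {b m n : ℕ} {u : J} (hu : X ^ (b + 1) ∣ xi u)
    (hn : n ≤ 2 * m + 1 + 2 * b) :
    X ^ n ∣ sub u (X ^ (2 * m + 1)) + X ^ (2 * m + 1) + xi u * X ^ (2 * m) := by
  have h := taylor2 (g := 1) (g' := u) (b := b) (a := 2 * m + 1) (n := n) (F := X ^ (2 * m + 1))
    (by rw [one_ser]; exact hu) dvd_rfl hn
  rw [sub_one, sub_one, od_X_pow_odd, one_ser, ← pow_mul, mul_comm m 2] at h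
  exact h

theorem J_oo (i j : ℕ) (hi : i % 2 = 1) (hj : j % 2 = 1) :
    comm (oJ i) (oJ j) ∈ Fn (i + j + min i j) := by
  rw [comm_mem]
  have hx : X ^ (i + 1) ∣ xi (oJ i) := by rw [xi_o i (by omega)]
  have hu : X ^ (j + 1) ∣ xi (oJ j) := by rw [xi_o j (by omega)]
  constructor
  · rw [mul_ser', mul_ser', oJ_ser i (by omega), oJ_ser j (by omega), map_add, map_add, sub_X,
      sub_X, oJ_ser i (by omega), oJ_ser j (by omega)]
    have h1 := sub_even_cg (a := i + 1) (n := i + j + min i j + 1) hu (by omega) (by omega)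
    have h2 := sub_even_cg (a := j + 1) (n := i + j + min i j + 1) hx (by omega) (by omega)
    have := dvd_add h1 h2
    have e : sub (oJ j) (X ^ (i + 1)) + X ^ (i + 1) + (sub (oJ i) (X ^ (j + 1)) + X ^ (j + 1)) =
        X + X ^ (j + 1) + sub (oJ j) (X ^ (i + 1)) +
          (X + X ^ (i + 1) + sub (oJ i) (X ^ (j + 1))) := by
      linear_combination -X * two_R
    rwa [e] at this
  · rw [w_mul, w_mul, w_o i hi, w_o j hj, map_one, map_one, add_self]
    exact dvd_zero _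

theorem J_hh (i j : ℕ) : comm (hJ i) (hJ j) ∈ Fn (i + j + 4 + min i j) := by
  rw [comm_mem]
  have hx : X ^ (2 * i + 2 + 1) ∣ xi (hJ i) := by rw [xi_h]
  have hu : X ^ (2 * j + 2 + 1) ∣ xi (hJ j) := by rw [xi_h]
  constructor
  · rw [mul_ser', mul_ser', hJ_ser i, hJ_ser j, map_add, map_add, sub_X,
      sub_X, hJ_ser i, hJ_ser j]
    have h1 := sub_pow_cg (a := 2 * i + 3) (n := i + j + 4 + min i j + 1) hu (by omega)
    have h2 := sub_pow_cg (a := 2 * j + 3) (n := i + j + 4 + min i j + 1) hx (by omega)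
    have := dvd_add h1 h2
    have e : sub (hJ j) (X ^ (2 * i + 3)) + X ^ (2 * i + 3) +
        (sub (hJ i) (X ^ (2 * j + 3)) + X ^ (2 * j + 3)) =
        X + X ^ (2 * j + 3) + sub (hJ j) (X ^ (2 * i + 3)) +
          (X + X ^ (2 * i + 3) + sub (hJ i) (X ^ (2 * j + 3))) := by
      linear_combination -X * two_R
    rwa [e] at this
  · rw [w_mul, w_mul, w_h, w_h, map_add, map_add, map_one, map_one]
    have h1 := sub_pow_cg (a := i + 1) (n := i + j + 4 + min i j - 1) hu (by omega)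
    have h2 := sub_pow_cg (a := j + 1) (n := i + j + 4 + min i j - 1) hx (by omega)
    have := dvd_add (Dvd.dvd.mul_left h1 (1 + X ^ (j + 1))) (Dvd.dvd.mul_left h2 (1 + X ^ (i + 1)))
    have e : (1 + X ^ (j + 1)) * (sub (hJ j) (X ^ (i + 1)) + X ^ (i + 1)) +
        (1 + X ^ (i + 1)) * (sub (hJ i) (X ^ (j + 1)) + X ^ (j + 1)) =
        (1 + X ^ (j + 1)) * (1 + sub (hJ j) (X ^ (i + 1))) +
          (1 + X ^ (i + 1)) * (1 + sub (hJ i) (X ^ (j + 1))) := by
      linear_combination (X ^ (j + 1) * X ^ (i + 1) - 1) * two_R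
    rwa [e] at this

theorem J_oh_odd (i j : ℕ) (hi : i % 2 = 1) (hj : j % 2 = 1) :
    comm (oJ i) (hJ j) ∈ Fn (i + j + 2 + min i j) := by
  rw [comm_mem]
  have hx : X ^ (i + 1) ∣ xi (oJ i) := by rw [xi_o i (by omega)]
  have hu : X ^ (2 * j + 2 + 1) ∣ xi (hJ j) := by rw [xi_h]
  constructor
  · rw [mul_ser', mul_ser', oJ_ser i (by omega), hJ_ser j, map_add, map_add, sub_X,
      sub_X, oJ_ser i (by omega), hJ_ser j]
    have h1 := sub_even_cg (a := i + 1) (n := i + j + 2 + min i j + 1) hu (by omega) (by omega)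
    have h2 := sub_pow_cg (a := 2 * j + 3) (n := i + j + 2 + min i j + 1) hx (by omega)
    have := dvd_add h1 h2
    have e : sub (hJ j) (X ^ (i + 1)) + X ^ (i + 1) +
        (sub (oJ i) (X ^ (2 * j + 3)) + X ^ (2 * j + 3)) =
        X + X ^ (2 * j + 3) + sub (hJ j) (X ^ (i + 1)) +
          (X + X ^ (i + 1) + sub (oJ i) (X ^ (2 * j + 3))) := by
      linear_combination -X * two_R
    rwa [e] at this
  · rw [w_mul, w_mul, w_o i hi, w_h, map_one, map_add, map_one]
    have h1 := sub_even_cg (a := j + 1) (n := i + j + 2 + min i j - 1) hx (by omega) (by omega)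
    have e : sub (oJ i) (X ^ (j + 1)) + X ^ (j + 1) =
        (1 + X ^ (j + 1)) * 1 + 1 * (1 + sub (oJ i) (X ^ (j + 1))) := by
      linear_combination -two_R
    rwa [e] at h1

theorem J_oh_even (i j : ℕ) (hi : i % 2 = 1) (hj : j % 2 = 0) :
    Cg (Fn (i + j + 2 + min i j)) (comm (oJ i) (hJ j)) (hJ (i + j)) := by
  rw [comm_cg]
  have hx : X ^ (i + 1) ∣ xi (oJ i) := by rw [xi_o i (by omega)]
  have hu : X ^ (2 * j + 2 + 1) ∣ xi (hJ j) := by rw [xi_h]
  have ha : X ^ (2 * (i + j) + 2 + 1) ∣ xi (hJ (i + j)) := by rw [xi_h]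
  -- the product `x * a`
  have hxa1 : X ^ (2 * (i + j) + 3) ∣ xi (oJ i * hJ (i + j)) + X ^ (i + 1) := by
    have h1 := sub_pow_cg (a := i + 1) (n := 2 * (i + j) + 3) ha (by omega)
    have h2 : (X : R) ^ (2 * (i + j) + 3) ∣ X ^ (2 * (i + j) + 3) := dvd_rfl
    have := dvd_add h1 h2
    have e : sub (hJ (i + j)) (X ^ (i + 1)) + X ^ (i + 1) + X ^ (2 * (i + j) + 3) =
        xi (oJ i * hJ (i + j)) + X ^ (i + 1) := by
      unfold xi
      rw [mul_ser', oJ_ser i (by omega), map_add, sub_X, hJ_ser]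
      linear_combination -X * two_R
    rwa [e] at this
  have hxa2 : X ^ (i + 1) ∣ xi (oJ i * hJ (i + j)) := by
    have h1 : (X : R) ^ (i + 1) ∣ X ^ (i + 1) := dvd_rfl
    have h2 : X ^ (i + 1) ∣ xi (oJ i * hJ (i + j)) + X ^ (i + 1) := dvd_mono hxa1 (by omega)
    have := dvd_add h2 h1
    have e : xi (oJ i * hJ (i + j)) + X ^ (i + 1) + X ^ (i + 1) = xi (oJ i * hJ (i + j)) := by
      linear_combination X ^ (i + 1) * two_R
    rwa [e] at this
  have hw : w (oJ i * hJ (i + j)) = 1 + X ^ (i + j + 1) := by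
    rw [w_mul, w_o i hi, w_h, map_one, mul_one]
  constructor
  · rw [mul_ser' (oJ i), mul_ser' (hJ j), oJ_ser i (by omega), hJ_ser j, map_add, map_add, sub_X,
      sub_X, hJ_ser j, ser_eq (oJ i * hJ (i + j))]
    have h1 := sub_even_cg (a := i + 1) (n := i + j + 2 + min i j + 1) hu (by omega) (by omega)
    have h2 := sub_pow_cg (a := 2 * j + 3) (n := i + j + 2 + min i j + 1) hxa2 (by omega)
    have h3 : X ^ (i + j + 2 + min i j + 1) ∣ xi (oJ i * hJ (i + j)) + X ^ (i + 1) :=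
      dvd_mono hxa1 (by omega)
    have := dvd_add (dvd_add h1 h2) h3
    have e : sub (hJ j) (X ^ (i + 1)) + X ^ (i + 1) +
        (sub (oJ i * hJ (i + j)) (X ^ (2 * j + 3)) + X ^ (2 * j + 3)) +
        (xi (oJ i * hJ (i + j)) + X ^ (i + 1)) =
        X + X ^ (2 * j + 3) + sub (hJ j) (X ^ (i + 1)) +
          (X + xi (oJ i * hJ (i + j)) + sub (oJ i * hJ (i + j)) (X ^ (2 * j + 3))) := by
      linear_combination (X ^ (i + 1) - X) * two_R
    rwa [e] at this
  · rw [w_mul (oJ i), w_mul (hJ j), w_o i hi, w_h, map_one, map_add, map_one, hw]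
    obtain ⟨m, rfl⟩ : ∃ m, j = 2 * m := ⟨j / 2, by omega⟩
    set x := oJ i * hJ (i + 2 * m) with hxdef
    have h1 := sub_odd_cg (m := m) (n := i + 2 * m + 2 + min i (2 * m) - 1) hxa2 (by omega)
    have h2 : X ^ (i + 2 * m + 2 + min i (2 * m) - 1) ∣ (xi x + X ^ (i + 1)) * X ^ (2 * m) :=
      Dvd.dvd.mul_right (dvd_mono hxa1 (by omega)) _
    have h3 : (X : R) ^ (i + 2 * m + 2 + min i (2 * m) - 1) ∣
        X ^ (i + 2 * m + 1) * (X ^ (2 * m + 1) + X ^ (i + 2 * m + 1)) := by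
      refine dvd_mul' (m := i + 2 * m + 1) (n := 2 * m + 1) dvd_rfl
        (dvd_add dvd_rfl (pow_dvd_pow _ (by omega))) (by omega)
    have := dvd_add (Dvd.dvd.mul_left (dvd_add h1 h2) (1 + X ^ (i + 2 * m + 1))) h3
    have e : (1 + X ^ (i + 2 * m + 1)) *
        (sub x (X ^ (2 * m + 1)) + X ^ (2 * m + 1) + xi x * X ^ (2 * m) +
          (xi x + X ^ (i + 1)) * X ^ (2 * m)) +
        X ^ (i + 2 * m + 1) * (X ^ (2 * m + 1) + X ^ (i + 2 * m + 1)) =
        (1 + X ^ (2 * m + 1)) * 1 + (1 + X ^ (i + 2 * m + 1)) *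
          (1 + sub x (X ^ (2 * m + 1))) := by
      have e1 : (X : R) ^ (i + 2 * m + 1) = X ^ (i + 1) * X ^ (2 * m) := by
        rw [← pow_add]; congr 1; omega
      rw [e1]
      linear_combination ((1 + X ^ (i + 1) * X ^ (2 * m)) * xi x * X ^ (2 * m) +
        (X ^ (i + 1) * X ^ (2 * m)) ^ 2 + X ^ (i + 1) * X ^ (2 * m) * X ^ (2 * m + 1) - 1) * two_R
    rwa [e] at this

end

end Pool.Agent.Nott
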