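import Pool.Agent.Nott.Coset

/-! # Commutators with small elements in the Nottingham group -/

open PowerSeries

namespace Pool.Agent.Nott

noncomputable section

theorem bin1 (Y : R) (m : ℕ) : ∃ c : R, (1 + Y) ^ m = 1 + (m : R) * Y + Y ^ 2 * c := by
  induction m with
  | zero => exact ⟨0, by simp⟩
  | succ m ih =>
    obtain ⟨c, hc⟩ := ih
    refine ⟨c + m + Y * c, ?_⟩
    rw [pow_succ, hc]
    push_cast
    ring

theorem bin_even (Y : R) (m : ℕ) : ∃ c : R, (1 + Y) ^ (2 * m) = 1 + (m : R) * Y ^ 2 + Y ^ 4 * c := by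
  obtain ⟨c, hc⟩ := bin1 (Y ^ 2) m
  refine ⟨c, ?_⟩
  have e : (1 + Y) ^ 2 = 1 + Y ^ 2 := by rw [add_sq', one_pow]
  rw [pow_mul, e, hc]
  ring

theorem bin_odd (Y : R) (m : ℕ) : ∃ c : R, (1 + Y) ^ (2 * m + 1) =
    1 + Y + (m : R) * Y ^ 2 + (m : R) * Y ^ 3 + Y ^ 4 * c := by
  obtain ⟨c, hc⟩ := bin_even Y m
  refine ⟨c + Y * c, ?_⟩
  rw [pow_succ, hc]
  ring

theorem sub_pow {u : J} {s : ℕ} (hu : u.ser = X * (1 + X ^ s)) (m : ℕ) :
    sub u (X ^ m) = X ^ m * (1 + X ^ s) ^ m := by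
  rw [map_pow, sub_X, hu, mul_pow]

theorem o1_ser : (oJ 1).ser = X * (1 + X ^ 1) := by rw [oJ_ser 1 le_rfl]; ring
theorem o3_ser : (oJ 3).ser = X * (1 + X ^ 3) := by rw [oJ_ser 3 (by norm_num)]; ring
theorem h0_ser : (hJ 0).ser = X * (1 + X ^ 2) := by rw [hJ_ser]; ring
theorem h2_ser : (hJ 2).ser = X * (1 + X ^ 6) := by rw [hJ_ser]; ring

theorem od_one : od (1 : R) = 0 := by
  have := od_X_pow_even 0
  simpa using this

theorem w_o1 : w (oJ 1) = 1 := w_o 1 rfl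
theorem w_o3 : w (oJ 3) = 1 := w_o 3 rfl
theorem w_h0 : w (hJ 0) = 1 + X := by rw [w_h]; ring
theorem w_h2 : w (hJ 2) = 1 + X ^ 3 := by rw [w_h]
theorem od_w_h0 : od (w (hJ 0)) = 1 := by rw [w_h0, od_add, od_one, od_X, zero_add]
theorem od_w_h2 : od (w (hJ 2)) = X := by
  rw [w_h2, od_add, od_one, zero_add]
  have := od_X_pow_odd 1
  simpa using this

theorem xi_dvd_mul {m : ℕ} {x y : J} (hx : X ^ m ∣ xi x) (hy : X ^ m ∣ xi y) :
    X ^ m ∣ xi (x * y) := by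
  rw [xi_mul, sub_one]
  have e : xi x + xi y + (sub y (xi x) + xi x) = xi y + sub y (xi x) := by
    linear_combination xi x * two_R
  rw [e]
  exact dvd_add hy (dvd_sub y hx)

theorem xi_dvd_pow {m : ℕ} {x : J} (hx : X ^ m ∣ xi x) (e : ℕ) : X ^ m ∣ xi (x ^ e) := by
  induction e with
  | zero => rw [pow_zero, xi_one]; exact dvd_zero _
  | succ e ih => rw [pow_succ]; exact xi_dvd_mul ih hx

theorem xi_pow_cg {k n : ℕ} {x : J} (hx : x ∈ Fn k) (hn : n ≤ 2 * k + 1) (e : ℕ) :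
    X ^ n ∣ xi (x ^ e) + (e : R) * xi x := by
  induction e with
  | zero => rw [pow_zero, xi_one]; simp
  | succ e ih =>
    have h := xi_mul_cg (n := n) ((Fn k).pow_mem hx e) hx (by omega)
    rw [pow_succ]
    have := dvd_add h ih
    have e1 : xi (x ^ e * x) + (xi (x ^ e) + xi x) + (xi (x ^ e) + (e : R) * xi x) =
        xi (x ^ e * x) + ((e + 1 : ℕ) : R) * xi x := by
      push_cast
      linear_combination xi (x ^ e) * two_R
    rwa [e1] at this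

theorem om_pow_cg {k n : ℕ} {x : J} (hx : x ∈ Fn k) (hn : n + 2 ≤ 2 * k) (e : ℕ) :
    X ^ n ∣ om (x ^ e) + (e : R) * om x := by
  induction e with
  | zero => rw [pow_zero, om_one]; simp
  | succ e ih =>
    have h := om_mul_cg (n := n) ((Fn k).pow_mem hx e) hx (by omega)
    rw [pow_succ]
    have := dvd_add h ih
    have e1 : om (x ^ e * x) + (om (x ^ e) + om x) + (om (x ^ e) + (e : R) * om x) =
        om (x ^ e * x) + ((e + 1 : ℕ) : R) * om x := by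
      push_cast
      linear_combination om (x ^ e) * two_R
    rwa [e1] at this

theorem dvd_X_pow_mul {m n : ℕ} (h : n ≤ m) (c : R) : X ^ n ∣ X ^ m * c :=
  Dvd.dvd.mul_right (pow_dvd_pow _ h) c

/-- congruence of series modulo `X^n` -/
def eqm (n : ℕ) (a b : R) : Prop := X ^ n ∣ a + b

theorem eqm.trans {n : ℕ} {a b c : R} (h : eqm n a b) (h' : eqm n b c) : eqm n a c := by
  have := dvd_add h h'
  unfold eqm
  have e : a + b + (b + c) = a + c := by linear_combination b * two_R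
  rwa [e] at this

theorem eqm.add {n : ℕ} {a b c d : R} (h : eqm n a b) (h' : eqm n c d) :
    eqm n (a + c) (b + d) := by
  have := dvd_add h h'
  unfold eqm
  have e : a + b + (c + d) = a + c + (b + d) := by ring
  rwa [e] at this

theorem eqm.mul_left {n : ℕ} {a b : R} (h : eqm n a b) (c : R) : eqm n (c * a) (c * b) := by
  unfold eqm
  rw [← mul_add]
  exact Dvd.dvd.mul_left h c

theorem eqm.mul_right {n : ℕ} {a b : R} (h : eqm n a b) (c : R) : eqm n (a * c) (b * c) := by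
  unfold eqm
  rw [← add_mul]
  exact Dvd.dvd.mul_right h c

theorem eqm.symm {n : ℕ} {a b : R} (h : eqm n a b) : eqm n b a := by
  unfold eqm at *
  rwa [add_comm]

theorem eqm_refl (n : ℕ) (a : R) : eqm n a a := by
  unfold eqm; rw [add_self]; exact dvd_zero _

theorem eqm.mono {m n : ℕ} {a b : R} (h : eqm m a b) (hn : n ≤ m) : eqm n a b := dvd_mono h hn

theorem eqm_zero {n : ℕ} {a : R} (h : X ^ n ∣ a) : eqm n a 0 := by
  unfold eqm; rwa [add_zero]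

theorem eqm.dvd {n : ℕ} {a b : R} (h : eqm n a b) (hb : X ^ n ∣ b) : X ^ n ∣ a := by
  have := dvd_add h hb
  have e : a + b + b = a := by linear_combination b * two_R
  rwa [e] at this

/-- the criterion in the form with approximations of the coordinates of `a` -/
theorem lin' {k k' n : ℕ} {x u a : J} {A B : R} (hx : x ∈ Fn k) (ha : a ∈ Fn k') (hk : 1 ≤ k)
    (hkk : k ≤ k') (hk2 : 2 ≤ k') (h2 : n ≤ 2 * k) (h3 : n + 1 ≤ k + k')
    (hA : eqm (n + 1) (xi a) A) (hB : eqm (n - 1) (om a) B)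
    (e1 : X ^ (n + 1) ∣ sub u (xi x) + (xi x + A) * w u ^ 2)
    (e2 : X ^ (n - 1) ∣ w u * (sub u (om x) + om x + B) + (xi x + A) * od (w u) ^ 2) :
    Cg (Fn n) (comm x u) a := by
  refine lin hx ha hk hkk hk2 h2 h3 ?_ ?_
  · have h := (((eqm_refl _ (xi x)).add hA).mul_right (w u ^ 2))
    exact ((eqm_refl _ (sub u (xi x))).add h).dvd e1
  · have h := (((eqm_refl _ (xi x)).add (hA.mono (show n - 1 ≤ n + 1 by omega))).mul_right
      (od (w u) ^ 2))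
    have h' := ((eqm_refl (n - 1) (sub u (om x) + om x)).add hB).mul_left (w u)
    exact (h'.add h).dvd e2

theorem J_sh_even (j : ℕ) (ej : j % 2 = 0) (hj : 2 ≤ j) :
    Cg (Fn (j + 4)) (comm (hJ j) (oJ 1)) (hJ (j + 1)) := by
  obtain ⟨m, rfl⟩ : ∃ m, j = 2 * m := ⟨j / 2, by omega⟩
  refine lin' (k := 2 * m + 2) (k' := 2 * m + 3) (A := X ^ (4 * m + 5)) (B := X ^ (2 * m + 2))
    (hJ_mem _) (hJ_mem _) (by omega) (by omega) (by omega) (by omega) (by omega) ?_ ?_ ?_ ?_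
  · rw [xi_h, show 2 * (2 * m + 1) + 3 = 4 * m + 5 by ring]; exact eqm_refl _ _
  · rw [om_h]; exact eqm_refl _ _
  · rw [w_o1, xi_h, sub_pow o1_ser]
    refine dvd_add (dvd_X_pow_mul (by omega) _) (Dvd.dvd.mul_right (dvd_add ?_ ?_) _)
    · exact pow_dvd_pow _ (by omega)
    · exact pow_dvd_pow _ (by omega)
  · rw [w_o1, od_one, om_h, sub_pow o1_ser]
    obtain ⟨c, hc⟩ := bin_odd (X ^ 1) m
    rw [hc]
    refine ⟨(m : R) + (m : R) * X + X ^ 2 * c, ?_⟩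
    rw [show 2 * m + 4 - 1 = 2 * m + 3 by omega]
    linear_combination (X ^ (2 * m + 1) + X ^ (2 * m + 2)) * two_R

theorem J_sh_odd (j : ℕ) (ej : j % 2 = 1) : comm (hJ j) (oJ 1) ∈ Fn (j + 4) := by
  obtain ⟨m, rfl⟩ : ∃ m, j = 2 * m + 1 := ⟨j / 2, by omega⟩
  have h : Cg (Fn (2 * m + 1 + 4)) (comm (hJ (2 * m + 1)) (oJ 1)) 1 := by
    refine lin' (k := 2 * m + 3) (k' := 2 * m + 3) (A := 0) (B := 0)
      (hJ_mem _) (Subgroup.one_mem _) (by omega) (by omega) (by omega) (by omega) (by omega)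
      ?_ ?_ ?_ ?_
    · rw [xi_one]; exact eqm_refl _ _
    · rw [om_one]; exact eqm_refl _ _
    · rw [w_o1, xi_h, sub_pow o1_ser]
      obtain ⟨c, hc⟩ := bin1 (X ^ 1) (2 * (2 * m + 1) + 3)
      rw [hc]
      refine dvd_trans (pow_dvd_pow X (show 2 * m + 1 + 4 + 1 ≤ 4 * m + 6 by omega)) ?_
      refine ⟨((2 * (2 * m + 1) + 3 : ℕ) : R) + X * c, ?_⟩
      linear_combination X ^ (4 * m + 5) * two_R
    · rw [w_o1, od_one, om_h, sub_pow o1_ser, show 2 * m + 1 + 1 = 2 * (m + 1) by ring]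
      obtain ⟨c, hc⟩ := bin_even (X ^ 1) (m + 1)
      rw [hc]
      refine ⟨((m + 1 : ℕ) : R) + X ^ 2 * c, ?_⟩
      rw [show 2 * m + 1 + 4 - 1 = 2 * m + 4 by omega]
      linear_combination X ^ (2 * m + 2) * two_R
  unfold Cg at h
  rwa [inv_one, one_mul] at h

theorem J_so (i : ℕ) (ei : i % 2 = 1) : comm (oJ i) (oJ 1) ∈ Fn (i + 2) := by
  rcases Nat.lt_or_ge i 3 with h3 | h3
  · have : i = 1 := by omega
    subst this
    rw [comm_self]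
    exact Subgroup.one_mem _
  obtain ⟨m, rfl⟩ : ∃ m, i = 2 * m + 1 := ⟨i / 2, by omega⟩
  have h : Cg (Fn (2 * m + 1 + 2)) (comm (oJ (2 * m + 1)) (oJ 1)) 1 := by
    refine lin' (k := 2 * m + 1) (k' := 2 * m + 3) (A := 0) (B := 0)
      (oJ_mem _ ei) (Subgroup.one_mem _) (by omega) (by omega) (by omega) (by omega) (by omega)
      ?_ ?_ ?_ ?_
    · rw [xi_one]; exact eqm_refl _ _
    · rw [om_one]; exact eqm_refl _ _
    · rw [w_o1, xi_o _ (by omega), sub_pow o1_ser, show 2 * m + 1 + 1 = 2 * (m + 1) by ring]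
      obtain ⟨c, hc⟩ := bin_even (X ^ 1) (m + 1)
      rw [hc]
      refine ⟨((m + 1 : ℕ) : R) + X ^ 2 * c, ?_⟩
      linear_combination X ^ (2 * m + 2) * two_R
    · rw [w_o1, od_one, om_o _ ei, map_zero]
      simp
  unfold Cg at h
  rwa [inv_one, one_mul] at h

theorem J_sh_ref (q : ℕ) (hq : 2 ≤ q) : Cg (Fn (2 * q + 6)) (comm (hJ (2 * q)) (oJ 1))
    (hJ (2 * q + 1) * hJ (2 * q + 2) ^ q * hJ (2 * q + 3) ^ q) := by
  have m1 : hJ (2 * q + 1) ∈ Fn (2 * q + 3) := hJ_mem _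
  have m2 : hJ (2 * q + 2) ∈ Fn (2 * q + 4) := hJ_mem _
  have m3 : hJ (2 * q + 3) ∈ Fn (2 * q + 5) := hJ_mem _
  have m2' := (Fn _).pow_mem m2 q
  have m3' := (Fn _).pow_mem m3 q
  have m12 := (Fn (2 * q + 3)).mul_mem m1 (Fn_anti (2 * q + 3) _ (by omega) m2')
  have m123 := (Fn (2 * q + 3)).mul_mem m12 (Fn_anti (2 * q + 3) _ (by omega) m3')
  refine lin' (k := 2 * q + 2) (k' := 2 * q + 3) (A := 0)
    (B := X ^ (2 * q + 2) + (q : R) * X ^ (2 * q + 3) + (q : R) * X ^ (2 * q + 4))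
    (hJ_mem _) m123 (by omega) (by omega) (by omega) (by omega) (by omega) ?_ ?_ ?_ ?_
  · apply eqm_zero
    refine xi_dvd_mul (xi_dvd_mul ?_ (xi_dvd_pow ?_ _)) (xi_dvd_pow ?_ _) <;> rw [xi_h] <;>
      exact pow_dvd_pow _ (by omega)
  · have a1 : eqm (2 * q + 6 - 1) _ _ := om_mul_cg m12 m3' (by omega)
    have a2 : eqm (2 * q + 6 - 1) _ _ := om_mul_cg m1 m2' (by omega)
    have a3 : eqm (2 * q + 6 - 1) _ _ := om_pow_cg m2 (by omega) q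
    have a4 : eqm (2 * q + 6 - 1) _ _ := om_pow_cg m3 (by omega) q
    rw [om_h] at a2 a3 a4
    exact a1.trans ((a2.trans ((eqm_refl _ _).add a3)).add a4)
  · rw [w_o1, xi_h, sub_pow o1_ser]
    obtain ⟨c, hc⟩ := bin1 (X ^ 1) (2 * (2 * q) + 3)
    rw [hc]
    refine dvd_trans (pow_dvd_pow X (show 2 * q + 6 + 1 ≤ 4 * q + 4 by omega)) ?_
    refine ⟨((2 * (2 * q) + 3 : ℕ) : R) + X * c, ?_⟩
    linear_combination X ^ (4 * q + 3) * two_R
  · rw [w_o1, od_one, om_h, sub_pow o1_ser]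
    obtain ⟨c, hc⟩ := bin_odd (X ^ 1) q
    rw [hc]
    refine ⟨c, ?_⟩
    rw [show 2 * q + 6 - 1 = 2 * q + 5 by omega]
    linear_combination (X ^ (2 * q + 1) + X ^ (2 * q + 2) + (q : R) * X ^ (2 * q + 3) +
      (q : R) * X ^ (2 * q + 4)) * two_R

theorem natCast_eq {a b : ℕ} (h : a % 2 = b % 2) : (a : R) = (b : R) := by
  have h1 : ∀ n : ℕ, (n : R) = ((n % 2 : ℕ) : R) := by
    intro n
    conv_lhs => rw [← Nat.div_add_mod n 2]
    push_cast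
    rw [two_R, zero_mul, zero_add]
  rw [h1 a, h1 b, h]

theorem J_rh_even4 (j : ℕ) (ej : j % 2 = 0) (hj : 4 ≤ j) :
    Cg (Fn (j + 8)) (comm (hJ j) (hJ 0)) (hJ (j + 2) * hJ (j + 4) ^ (j / 2)) := by
  obtain ⟨m, rfl⟩ : ∃ m, j = 2 * m := ⟨j / 2, by omega⟩
  rw [show 2 * m / 2 = m by omega]
  have m1 : hJ (2 * m + 2) ∈ Fn (2 * m + 4) := hJ_mem _
  have m2 : hJ (2 * m + 4) ∈ Fn (2 * m + 6) := hJ_mem _
  have m2' := (Fn _).pow_mem m2 m
  have m12 := (Fn (2 * m + 4)).mul_mem m1 (Fn_anti (2 * m + 4) _ (by omega) m2')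
  refine lin' (k := 2 * m + 2) (k' := 2 * m + 4) (A := 0)
    (B := X ^ (2 * m + 3) + (m : R) * X ^ (2 * m + 5))
    (hJ_mem _) m12 (by omega) (by omega) (by omega) (by omega) (by omega) ?_ ?_ ?_ ?_
  · apply eqm_zero
    refine xi_dvd_mul ?_ (xi_dvd_pow ?_ _) <;> rw [xi_h] <;> exact pow_dvd_pow _ (by omega)
  · have a1 : eqm (2 * m + 8 - 1) _ _ := om_mul_cg m1 m2' (by omega)
    have a2 : eqm (2 * m + 8 - 1) _ _ := om_pow_cg m2 (by omega) m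
    rw [om_h] at a1 a2
    exact a1.trans ((eqm_refl _ _).add a2)
  · rw [w_h0, xi_h, sub_pow h0_ser]
    obtain ⟨c, hc⟩ := bin_odd (X ^ 2) (2 * m + 1)
    rw [show 2 * (2 * m) + 3 = 2 * (2 * m + 1) + 1 by ring, hc]
    refine dvd_trans (pow_dvd_pow X (show 2 * m + 8 + 1 ≤ 4 * m + 7 by omega)) ?_
    refine ⟨((2 * m + 1 : ℕ) : R) + ((2 * m + 1 : ℕ) : R) * X ^ 2 + X ^ 4 * c, ?_⟩
    linear_combination (X ^ (4 * m + 3) + X ^ (4 * m + 5) + X ^ (4 * m + 4)) * two_R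
  · rw [od_w_h0, w_h0, om_h, xi_h, sub_pow h0_ser]
    obtain ⟨c, hc⟩ := bin_odd (X ^ 2) m
    rw [hc]
    obtain ⟨t, ht⟩ : ∃ t, 2 * (2 * m) + 3 = 2 * m + 7 + t := ⟨2 * m - 4, by omega⟩
    rw [ht, show 2 * m + 8 - 1 = 2 * m + 7 by omega]
    refine ⟨(1 + X) * ((m : R) + X ^ 2 * c) + X ^ t, ?_⟩
    linear_combination (1 + X) * (X ^ (2 * m + 1) + X ^ (2 * m + 3) +
      (m : R) * X ^ (2 * m + 5)) * two_R

theorem J_rh_odd (j : ℕ) (ej : j % 2 = 1) (hj : 5 ≤ j) :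
    Cg (Fn (j + 8)) (comm (hJ j) (hJ 0)) (hJ (j + 4) ^ ((j + 1) / 2)) := by
  obtain ⟨m, rfl⟩ : ∃ m, j = 2 * m + 1 := ⟨j / 2, by omega⟩
  rw [show (2 * m + 1 + 1) / 2 = m + 1 by omega]
  have m2 : hJ (2 * m + 1 + 4) ∈ Fn (2 * m + 7) := hJ_mem _
  have m2' := (Fn _).pow_mem m2 (m + 1)
  refine lin' (k := 2 * m + 3) (k' := 2 * m + 7) (A := 0)
    (B := ((m + 1 : ℕ) : R) * X ^ (2 * m + 6))
    (hJ_mem _) m2' (by omega) (by omega) (by omega) (by omega) (by omega) ?_ ?_ ?_ ?_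
  · apply eqm_zero
    refine xi_dvd_pow ?_ _
    rw [xi_h]
    exact pow_dvd_pow _ (by omega)
  · have a2 : eqm (2 * m + 1 + 8 - 1) _ _ := om_pow_cg m2 (by omega) (m + 1)
    rw [om_h] at a2
    exact a2
  · rw [w_h0, xi_h, sub_pow h0_ser]
    obtain ⟨c, hc⟩ := bin_odd (X ^ 2) (2 * m + 2)
    rw [show 2 * (2 * m + 1) + 3 = 2 * (2 * m + 2) + 1 by ring, hc]
    refine dvd_trans (pow_dvd_pow X (show 2 * m + 1 + 8 + 1 ≤ 4 * m + 9 by omega)) ?_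
    refine ⟨((2 * m + 2 : ℕ) : R) + ((2 * m + 2 : ℕ) : R) * X ^ 2 + X ^ 4 * c, ?_⟩
    linear_combination (X ^ (4 * m + 5) + X ^ (4 * m + 7) + X ^ (4 * m + 6)) * two_R
  · rw [od_w_h0, w_h0, om_h, xi_h, sub_pow h0_ser]
    obtain ⟨c, hc⟩ := bin_even (X ^ 2) (m + 1)
    rw [show 2 * m + 1 + 1 = 2 * (m + 1) by ring, hc]
    obtain ⟨t, ht⟩ : ∃ t, 2 * (2 * m + 1) + 3 = 2 * m + 8 + t := ⟨2 * m - 3, by omega⟩
    rw [ht, show 2 * m + 1 + 8 - 1 = 2 * m + 8 by omega]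
    refine ⟨(1 + X) * (X ^ 2 * c) + X ^ t, ?_⟩
    linear_combination (1 + X) * (X ^ (2 * m + 2) + ((m + 1 : ℕ) : R) * X ^ (2 * m + 6)) * two_R

theorem J_ro5 (i : ℕ) (ei : i % 2 = 1) (hi : 5 ≤ i) :
    Cg (Fn (i + 4)) (comm (oJ i) (hJ 0)) (oJ (i + 2) * hJ i * hJ (i + 1)) := by
  obtain ⟨m, rfl⟩ : ∃ m, i = 2 * m + 1 := ⟨i / 2, by omega⟩
  have m1 : oJ (2 * m + 1 + 2) ∈ Fn (2 * m + 3) := oJ_mem _ (by omega)
  have m2 : hJ (2 * m + 1) ∈ Fn (2 * m + 3) := hJ_mem _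
  have m3 : hJ (2 * m + 1 + 1) ∈ Fn (2 * m + 4) := hJ_mem _
  have m12 := (Fn (2 * m + 3)).mul_mem m1 m2
  have m123 := (Fn (2 * m + 3)).mul_mem m12 (Fn_anti (2 * m + 3) _ (by omega) m3)
  refine lin' (k := 2 * m + 1) (k' := 2 * m + 3) (A := X ^ (2 * m + 4))
    (B := X ^ (2 * m + 2) + X ^ (2 * m + 3))
    (oJ_mem _ ei) m123 (by omega) (by omega) (by omega) (by omega) (by omega) ?_ ?_ ?_ ?_
  · have a1 : eqm (2 * m + 1 + 4 + 1) _ _ := xi_mul_cg m12 m3 (by omega)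
    have a2 : eqm (2 * m + 1 + 4 + 1) _ _ := xi_mul_cg m1 m2 (by omega)
    have a3 : eqm (2 * m + 1 + 4 + 1) (xi (hJ (2 * m + 1))) 0 := by
      apply eqm_zero; rw [xi_h]; exact pow_dvd_pow _ (by omega)
    have a4 : eqm (2 * m + 1 + 4 + 1) (xi (hJ (2 * m + 1 + 1))) 0 := by
      apply eqm_zero; rw [xi_h]; exact pow_dvd_pow _ (by omega)
    have a5 := a1.trans ((a2.trans ((eqm_refl _ _).add a3)).add a4)
    rw [xi_o _ (by omega), add_zero, add_zero] at a5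
    exact a5
  · have a1 : eqm (2 * m + 1 + 4 - 1) _ _ := om_mul_cg m12 m3 (by omega)
    have a2 : eqm (2 * m + 1 + 4 - 1) _ _ := om_mul_cg m1 m2 (by omega)
    rw [om_o _ (by omega), om_h, zero_add] at a2
    rw [om_h] at a1
    exact a1.trans (a2.add (eqm_refl _ _))
  · rw [w_h0, xi_o _ (by omega), sub_pow h0_ser, show 2 * m + 1 + 1 = 2 * (m + 1) by ring]
    obtain ⟨c, hc⟩ := bin_even (X ^ 2) (m + 1)
    rw [hc]
    refine ⟨((m + 1 : ℕ) : R) + 1 + X ^ 4 * c, ?_⟩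
    linear_combination (X ^ (2 * m + 2) + X ^ (2 * m + 3) + X ^ (2 * m + 4) +
      X ^ (2 * m + 5)) * two_R
  · rw [od_w_h0, w_h0, om_o _ ei, xi_o _ (by omega), map_zero]
    rw [show 2 * m + 1 + 4 - 1 = 2 * m + 4 by omega]
    refine ⟨0, ?_⟩
    linear_combination (X ^ (2 * m + 2) + X ^ (2 * m + 3) + X ^ (2 * m + 4)) * two_R

theorem J_kh_even (k : ℕ) (ek : k % 2 = 0) (hk : 6 ≤ k) :
    Cg (Fn (k + 10)) (comm (hJ k) (hJ 2)) (hJ (k + 6)) := by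
  obtain ⟨m, rfl⟩ : ∃ m, k = 2 * m := ⟨k / 2, by omega⟩
  refine lin' (k := 2 * m + 2) (k' := 2 * m + 8) (A := 0) (B := X ^ (2 * m + 7))
    (hJ_mem _) (hJ_mem _) (by omega) (by omega) (by omega) (by omega) (by omega) ?_ ?_ ?_ ?_
  · apply eqm_zero
    rw [xi_h]
    exact pow_dvd_pow _ (by omega)
  · rw [om_h]; exact eqm_refl _ _
  · rw [w_h2, xi_h, sub_pow h2_ser]
    obtain ⟨c, hc⟩ := bin_odd (X ^ 6) (2 * m + 1)
    rw [show 2 * (2 * m) + 3 = 2 * (2 * m + 1) + 1 by ring, hc]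
    refine dvd_trans (pow_dvd_pow X (show 2 * m + 10 + 1 ≤ 4 * m + 15 by omega)) ?_
    refine ⟨((2 * m + 1 : ℕ) : R) + ((2 * m + 1 : ℕ) : R) * X ^ 6 + X ^ 12 * c, ?_⟩
    linear_combination (X ^ (4 * m + 3) + X ^ (4 * m + 6) + X ^ (4 * m + 9)) * two_R
  · rw [od_w_h2, w_h2, om_h, xi_h, sub_pow h2_ser]
    obtain ⟨c, hc⟩ := bin_odd (X ^ 6) m
    rw [hc]
    obtain ⟨t, ht⟩ : ∃ t, 2 * (2 * m) + 3 = 2 * m + 7 + t := ⟨2 * m - 4, by omega⟩
    rw [ht, show 2 * m + 10 - 1 = 2 * m + 9 by omega]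
    refine ⟨(1 + X ^ 3) * X ^ 4 * ((m : R) + (m : R) * X ^ 6 + X ^ 12 * c) + X ^ t, ?_⟩
    linear_combination (1 + X ^ 3) * (X ^ (2 * m + 1) + X ^ (2 * m + 7)) * two_R

theorem J_ko (i : ℕ) (ei : i % 2 = 1) (hi : 9 ≤ i) :
    Cg (Fn (i + 8)) (comm (oJ i) (hJ 2)) (hJ (i + 2) * oJ (i + 6) * hJ (i + 5)) := by
  obtain ⟨m, rfl⟩ : ∃ m, i = 2 * m + 1 := ⟨i / 2, by omega⟩
  have m1 : hJ (2 * m + 1 + 2) ∈ Fn (2 * m + 5) := hJ_mem _
  have m2 : oJ (2 * m + 1 + 6) ∈ Fn (2 * m + 7) := oJ_mem _ (by omega)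
  have m3 : hJ (2 * m + 1 + 5) ∈ Fn (2 * m + 8) := hJ_mem _
  have m12 := (Fn (2 * m + 5)).mul_mem m1 (Fn_anti (2 * m + 5) _ (by omega) m2)
  have m123 := (Fn (2 * m + 5)).mul_mem m12 (Fn_anti (2 * m + 5) _ (by omega) m3)
  refine lin' (k := 2 * m + 1) (k' := 2 * m + 5) (A := X ^ (2 * m + 8))
    (B := X ^ (2 * m + 4) + X ^ (2 * m + 7))
    (oJ_mem _ ei) m123 (by omega) (by omega) (by omega) (by omega) (by omega) ?_ ?_ ?_ ?_
  · have a1 : eqm (2 * m + 1 + 8 + 1) _ _ := xi_mul_cg m12 m3 (by omega)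
    have a2 : eqm (2 * m + 1 + 8 + 1) _ _ := xi_mul_cg m1 m2 (by omega)
    have a3 : eqm (2 * m + 1 + 8 + 1) (xi (hJ (2 * m + 1 + 2))) 0 := by
      apply eqm_zero; rw [xi_h]; exact pow_dvd_pow _ (by omega)
    have a4 : eqm (2 * m + 1 + 8 + 1) (xi (hJ (2 * m + 1 + 5))) 0 := by
      apply eqm_zero; rw [xi_h]; exact pow_dvd_pow _ (by omega)
    have a5 := a1.trans ((a2.trans (a3.add (eqm_refl _ _))).add a4)
    rw [xi_o _ (by omega), add_zero, zero_add] at a5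
    exact a5
  · have a1 : eqm (2 * m + 1 + 8 - 1) _ _ := om_mul_cg m12 m3 (by omega)
    have a2 : eqm (2 * m + 1 + 8 - 1) _ _ := om_mul_cg m1 m2 (by omega)
    rw [om_o _ (by omega), om_h, add_zero] at a2
    rw [om_h] at a1
    exact a1.trans (a2.add (eqm_refl _ _))
  · rw [w_h2, xi_o _ (by omega), sub_pow h2_ser, show 2 * m + 1 + 1 = 2 * (m + 1) by ring]
    obtain ⟨c, hc⟩ := bin_even (X ^ 6) (m + 1)
    rw [hc]
    refine ⟨X ^ 4 * (((m + 1 : ℕ) : R) + 1 + X ^ 12 * c), ?_⟩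
    linear_combination (X ^ (2 * m + 2) + X ^ (2 * m + 5) + X ^ (2 * m + 8) +
      X ^ (2 * m + 11)) * two_R
  · rw [od_w_h2, w_h2, om_o _ ei, xi_o _ (by omega), map_zero]
    rw [show 2 * m + 1 + 8 - 1 = 2 * m + 8 by omega]
    refine ⟨0, ?_⟩
    linear_combination (X ^ (2 * m + 4) + X ^ (2 * m + 7) + X ^ (2 * m + 10)) * two_R

theorem J_t3h (j : ℕ) (ej : j % 2 = 0) (hj : 6 ≤ j) :
    Cg (Fn (j + 10)) (comm (hJ j) (oJ 3)) (hJ (j + 3) * hJ (j + 6) ^ (j / 2)) := by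
  obtain ⟨m, rfl⟩ : ∃ m, j = 2 * m := ⟨j / 2, by omega⟩
  rw [show 2 * m / 2 = m by omega]
  have m1 : hJ (2 * m + 3) ∈ Fn (2 * m + 5) := hJ_mem _
  have m2 : hJ (2 * m + 6) ∈ Fn (2 * m + 8) := hJ_mem _
  have m2' := (Fn _).pow_mem m2 m
  have m12 := (Fn (2 * m + 5)).mul_mem m1 (Fn_anti (2 * m + 5) _ (by omega) m2')
  refine lin' (k := 2 * m + 2) (k' := 2 * m + 5) (A := 0)
    (B := X ^ (2 * m + 4) + (m : R) * X ^ (2 * m + 7))
    (hJ_mem _) m12 (by omega) (by omega) (by omega) (by omega) (by omega) ?_ ?_ ?_ ?_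
  · apply eqm_zero
    refine xi_dvd_mul ?_ (xi_dvd_pow ?_ _) <;> rw [xi_h] <;> exact pow_dvd_pow _ (by omega)
  · have a1 : eqm (2 * m + 10 - 1) _ _ := om_mul_cg m1 m2' (by omega)
    have a2 : eqm (2 * m + 10 - 1) _ _ := om_pow_cg m2 (by omega) m
    rw [om_h] at a1 a2
    exact a1.trans ((eqm_refl _ _).add a2)
  · rw [w_o3, xi_h, sub_pow o3_ser]
    obtain ⟨c, hc⟩ := bin1 (X ^ 3) (2 * (2 * m) + 3)
    rw [hc]
    refine dvd_trans (pow_dvd_pow X (show 2 * m + 10 + 1 ≤ 4 * m + 6 by omega)) ?_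
    refine ⟨((2 * (2 * m) + 3 : ℕ) : R) + X ^ 3 * c, ?_⟩
    linear_combination X ^ (4 * m + 3) * two_R
  · rw [w_o3, od_one, om_h, sub_pow o3_ser]
    obtain ⟨c, hc⟩ := bin_odd (X ^ 3) m
    rw [hc]
    refine ⟨X * ((m : R) + X ^ 3 * c), ?_⟩
    rw [show 2 * m + 10 - 1 = 2 * m + 9 by omega]
    linear_combination (X ^ (2 * m + 1) + X ^ (2 * m + 4) + (m : R) * X ^ (2 * m + 7)) * two_R

theorem J_t3o (i : ℕ) (ei : i % 2 = 1) (hi : 9 ≤ i) :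
    Cg (Fn (i + 8)) (comm (oJ i) (oJ 3)) (oJ (i + 6) ^ ((i + 1) / 2)) := by
  obtain ⟨m, rfl⟩ : ∃ m, i = 2 * m + 1 := ⟨i / 2, by omega⟩
  rw [show (2 * m + 1 + 1) / 2 = m + 1 by omega]
  have m2 : oJ (2 * m + 1 + 6) ∈ Fn (2 * m + 7) := oJ_mem _ (by omega)
  have m2' := (Fn _).pow_mem m2 (m + 1)
  refine lin' (k := 2 * m + 1) (k' := 2 * m + 7) (A := ((m + 1 : ℕ) : R) * X ^ (2 * m + 8))
    (B := 0) (oJ_mem _ ei) m2' (by omega) (by omega) (by omega) (by omega) (by omega) ?_ ?_ ?_ ?_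
  · have a2 : eqm (2 * m + 1 + 8 + 1) _ _ := xi_pow_cg m2 (by omega) (m + 1)
    rw [xi_o _ (by omega)] at a2
    exact a2
  · have a2 : eqm (2 * m + 1 + 8 - 1) _ _ := om_pow_cg m2 (by omega) (m + 1)
    rw [om_o _ (by omega), mul_zero] at a2
    exact a2
  · rw [w_o3, xi_o _ (by omega), sub_pow o3_ser, show 2 * m + 1 + 1 = 2 * (m + 1) by ring]
    obtain ⟨c, hc⟩ := bin_even (X ^ 3) (m + 1)
    rw [hc]
    refine ⟨X ^ 4 * c, ?_⟩
    linear_combination (X ^ (2 * m + 2) + ((m + 1 : ℕ) : R) * X ^ (2 * m + 8)) * two_R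
  · rw [w_o3, od_one, om_o _ ei, map_zero]
    simp

end

end Pool.Agent.Nott
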