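import Pool.Agent.Nott.Coset

/-! # Generation of the filtration quotients and the invariant characters -/

open PowerSeries

namespace Pool.Agent.Nott

noncomputable section

theorem zmod_two (c : ZMod 2) : c = 0 ∨ c = 1 := by
  revert c; decide

theorem zadd_self (c : ZMod 2) : c + c = 0 := CharTwo.add_self_eq_zero c

/-- one more coefficient -/
theorem dvd_succ {n : ℕ} {F : R} (h : X ^ n ∣ F) (h0 : coeff n F = 0) : X ^ (n + 1) ∣ F := by
  rw [X_pow_dvd_iff] at h ⊢
  intro m hm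
  rcases Nat.lt_succ_iff_lt_or_eq.mp hm with h1 | rfl
  · exact h m h1
  · exact h0

theorem coeff_of_dvd {m n : ℕ} {F : R} (h : X ^ n ∣ F) (hm : m < n) : coeff m F = 0 :=
  (X_pow_dvd_iff.mp h) m hm

theorem coeff_eq_of_dvd {m n : ℕ} {F G : R} (h : X ^ n ∣ F + G) (hm : m < n) :
    coeff m F = coeff m G := by
  have h1 := coeff_of_dvd h hm
  rw [map_add] at h1
  have h2 : coeff m F = coeff m F + (coeff m G + coeff m G) := by rw [zadd_self, add_zero]
  rw [h2, ← add_assoc, h1, zero_add]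

theorem cg_coord {n : ℕ} {x y : J} (h1 : X ^ (n + 1) ∣ xi x + xi y)
    (h2 : X ^ (n - 1) ∣ om x + om y) : cg n x y := by
  constructor
  · have e : x.ser + y.ser = xi x + xi y := by
      unfold xi; linear_combination -X * two_R
    rw [e]; exact h1
  · have e : w x + w y = om x + om y := by
      unfold om; linear_combination -two_R
    rw [e]; exact h2

theorem coeff_xi_odd (x : J) (m : ℕ) : coeff (2 * m + 1) (xi x) = coeff m (om x) := by
  rw [← od_xi, coeff_od]

theorem J_gen_one (x : J) : ∃ a : ℕ, Cg (Fn 2) x (oJ 1 ^ a) := by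
  have hx := mem_coord.mp (Fn_one x)
  have h2 : X ^ 2 ∣ xi x := hx.1
  have h0 : coeff 0 (om x) = 0 := by
    rw [← coeff_xi_odd]
    exact coeff_of_dvd h2 (by norm_num)
  have h1 : X ^ (2 - 1) ∣ om x := by
    have := dvd_succ (n := 0) (F := om x) (by rw [pow_zero]; exact one_dvd _) h0
    exact this
  rcases zmod_two (coeff 2 (xi x)) with hc | hc
  · refine ⟨0, ?_⟩
    rw [pow_zero, Cg_iff]
    apply cg_coord
    · rw [xi_one, add_zero]
      exact dvd_succ h2 hc
    · rw [om_one, add_zero]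
      exact h1
  · refine ⟨1, ?_⟩
    rw [pow_one, Cg_iff]
    apply cg_coord
    · rw [xi_o 1 le_rfl]
      apply dvd_succ (dvd_add h2 dvd_rfl)
      rw [map_add, hc, coeff_X_pow_self]
      exact zadd_self 1
    · rw [om_o 1 rfl, add_zero]
      exact h1

theorem J_gen_even (n : ℕ) (x : J) (en : n % 2 = 0) (hn : 2 ≤ n) (hx : x ∈ Fn n) :
    ∃ b : ℕ, Cg (Fn (n + 1)) x (hJ (n - 2) ^ b) := by
  obtain ⟨m, rfl⟩ : ∃ m, n = 2 * m := ⟨n / 2, by omega⟩
  have h1 := (mem_coord.mp hx).1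
  have h2 := (mem_coord.mp hx).2
  have hxi : coeff (2 * m + 1) (xi x) = coeff m (om x) := coeff_xi_odd x m
  rcases zmod_two (coeff (2 * m - 1) (om x)) with hc | hc
  · refine ⟨0, ?_⟩
    rw [pow_zero, Cg_iff]
    apply cg_coord
    · rw [xi_one, add_zero]
      apply dvd_succ h1
      rw [hxi]
      rcases Nat.lt_or_ge m (2 * m - 1) with h | h
      · exact coeff_of_dvd h2 h
      · have : m = 2 * m - 1 := by omega
        rw [this]; rw [← this]; rw [← this] at hc; exact hc
    · rw [om_one, add_zero]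
      have := dvd_succ h2 hc
      exact dvd_mono this (by omega)
  · refine ⟨1, ?_⟩
    rw [pow_one, Cg_iff]
    apply cg_coord
    · rw [xi_h]
      apply dvd_succ (dvd_add h1 (pow_dvd_pow _ (by omega)))
      rw [map_add, hxi, coeff_X_pow]
      rcases Nat.lt_or_ge m (2 * m - 1) with h | h
      · rw [coeff_of_dvd h2 h, if_neg (by omega), add_zero]
      · have e : m = 2 * m - 1 := by omega
        rw [← e] at hc
        rw [hc, if_pos (by omega)]
        exact zadd_self 1
    · rw [om_h]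
      have e : 2 * m - 2 + 1 = 2 * m - 1 := by omega
      rw [e]
      have := dvd_succ (dvd_add h2 (dvd_refl (X ^ (2 * m - 1)))) (by
        rw [map_add, hc, coeff_X_pow_self]; exact zadd_self 1)
      exact dvd_mono this (by omega)

theorem xi_o_pow (n c : ℕ) (hn : n % 2 = 1) (hc : c = 0 ∨ c = 1) :
    xi (oJ n ^ c) = (c : R) * X ^ (n + 1) ∧ om (oJ n ^ c) = 0 := by
  rcases hc with rfl | rfl
  · rw [pow_zero, xi_one, om_one]; simp
  · rw [pow_one, xi_o n (by omega), om_o n hn]; simp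

theorem xi_h_pow (n c : ℕ) (hc : c = 0 ∨ c = 1) :
    xi (hJ n ^ c) = (c : R) * X ^ (2 * n + 3) ∧ om (hJ n ^ c) = (c : R) * X ^ (n + 1) := by
  rcases hc with rfl | rfl
  · rw [pow_zero, xi_one, om_one]; simp
  · rw [pow_one, xi_h, om_h]; simp

theorem exists_nat_coeff (c : ZMod 2) : ∃ a : ℕ, (a = 0 ∨ a = 1) ∧ (C c : R) = (a : R) := by
  rcases zmod_two c with rfl | rfl
  · exact ⟨0, Or.inl rfl, by simp⟩
  · exact ⟨1, Or.inr rfl, by simp⟩

theorem dvd_add_coeff {n : ℕ} {F : R} (h : X ^ n ∣ F) :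
    X ^ (n + 1) ∣ F + C (coeff n F) * X ^ n := by
  apply dvd_succ (dvd_add h (Dvd.intro_left _ rfl))
  rw [map_add, coeff_C_mul, coeff_X_pow_self, mul_one]
  exact zadd_self _

theorem J_gen_odd (n : ℕ) (x : J) (en : n % 2 = 1) (hn : 3 ≤ n) (hx : x ∈ Fn n) :
    ∃ a b : ℕ, Cg (Fn (n + 1)) x (oJ n ^ a * hJ (n - 2) ^ b) := by
  have h1 := (mem_coord.mp hx).1
  have h2 := (mem_coord.mp hx).2
  obtain ⟨a, ha, ea⟩ := exists_nat_coeff (coeff (n + 1) (xi x))
  obtain ⟨b, hb, eb⟩ := exists_nat_coeff (coeff (n - 1) (om x))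
  refine ⟨a, b, ?_⟩
  rw [Cg_iff]
  have mo : oJ n ^ a ∈ Fn n := (Fn n).pow_mem (oJ_mem n en) a
  have mh : hJ (n - 2) ^ b ∈ Fn n := by
    refine (Fn n).pow_mem ?_ b
    have := hJ_mem (n - 2)
    rwa [show n - 2 + 2 = n by omega] at this
  have c1 := xi_mul_cg (n := n + 2) mo mh (by omega)
  have c2 := om_mul_cg (n := n) mo mh (by omega)
  rw [(xi_o_pow n a en ha).1, (xi_h_pow (n - 2) b hb).1] at c1
  rw [(xi_o_pow n a en ha).2, (xi_h_pow (n - 2) b hb).2, zero_add] at c2
  have d1 := dvd_add_coeff h1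
  have d2 := dvd_add_coeff h2
  rw [ea] at d1
  rw [eb] at d2
  apply cg_coord
  · have d3 : (X : R) ^ (n + 2) ∣ (b : R) * X ^ (2 * (n - 2) + 3) :=
      Dvd.dvd.mul_left (pow_dvd_pow _ (by omega)) _
    have := dvd_add (dvd_add c1 d1) d3
    have e : xi (oJ n ^ a * hJ (n - 2) ^ b) + ((a : R) * X ^ (n + 1) +
        (b : R) * X ^ (2 * (n - 2) + 3)) + (xi x + (a : R) * X ^ (n + 1)) +
        (b : R) * X ^ (2 * (n - 2) + 3) = xi x + xi (oJ n ^ a * hJ (n - 2) ^ b) := by
      linear_combination ((a : R) * X ^ (n + 1) + (b : R) * X ^ (2 * (n - 2) + 3)) * two_R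
    rwa [e] at this
  · have e0 : n - 2 + 1 = n - 1 := by omega
    rw [e0] at c2
    have d4 : X ^ n ∣ om x + (b : R) * X ^ (n - 1) := dvd_mono d2 (by omega)
    have := dvd_add c2 d4
    have e : om (oJ n ^ a * hJ (n - 2) ^ b) + (b : R) * X ^ (n - 1) +
        (om x + (b : R) * X ^ (n - 1)) = om x + om (oJ n ^ a * hJ (n - 2) ^ b) := by
      linear_combination ((b : R) * X ^ (n - 1)) * two_R
    rwa [e] at this

/-- conjugation, the `w`-coordinate -/
theorem conj_om {n k : ℕ} (g a : J) (ha : a ∈ Fn k) (hk : 1 ≤ k) (hn : n ≤ k + 1) :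
    X ^ n ∣ sub g (om (g * a * g⁻¹)) + om a := by
  set f := g * a * g⁻¹ with hf
  have h1 : f * g = g * a := by rw [hf]; group
  have h2 : w g * sub g (w f) = w a * sub a (w g) := by rw [← w_mul, ← w_mul, h1]
  rw [w_eq f, map_add, map_one, w_eq a] at h2
  have a1 := (mem_coord.mp ha).1
  have t := taylor1 (g := 1) (g' := a) (b := k) (a := 0) (n := k) (F := w g)
    (by rw [one_ser]; exact a1) (by rw [pow_zero]; exact one_dvd _) (by omega)
  have t' := taylor2 (g := 1) (g' := a) (b := k) (a := 0) (n := n) (F := w g)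
    (by rw [one_ser]; exact a1) (by rw [pow_zero]; exact one_dvd _) (by omega)
  rw [sub_one, sub_one, one_ser] at t'
  -- `X^n` divides the correction term, since `xi a` is divisible by `X^(k+1)`
  have t2 : X ^ n ∣ sub a (w g) + w g := by
    have h3 : X ^ n ∣ (a.ser + X) * od (w g) ^ 2 :=
      Dvd.dvd.mul_right (dvd_mono a1 hn) _
    have := dvd_add t' h3
    have e : sub a (w g) + w g + (a.ser + X) * od (w g) ^ 2 + (a.ser + X) * od (w g) ^ 2 =
        sub a (w g) + w g := by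
      linear_combination ((a.ser + X) * od (w g) ^ 2) * two_R
    rwa [e] at this
  have h4 : X ^ n ∣ w g * (sub g (om f) + om a) := by
    have := Dvd.dvd.mul_left t2 (1 + om a)
    have e : (1 + om a) * (sub a (w g) + w g) = w g * (sub g (om f) + om a) := by
      linear_combination -h2 + w g * two_R
    rwa [e] at this
  have hu : IsUnit (w g) := by
    rw [PowerSeries.isUnit_iff_constantCoeff]
    have : constantCoeff (w g) = 1 := by
      rw [← coeff_zero_eq_constantCoeff_apply, w, coeff_od]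
      exact g.c1
    rw [this]; exact isUnit_one
  obtain ⟨v, hv⟩ := hu
  rw [← hv] at h4
  have := Dvd.dvd.mul_left h4 (↑v⁻¹ : R)
  rwa [← mul_assoc, Units.inv_mul, one_mul] at this

/-- conjugation, the `xi`-coordinate -/
theorem conj_xi {n k : ℕ} (g a : J) (ha : a ∈ Fn k) (hn : n ≤ k + 3) (hn2 : n ≤ 2 * k + 1) :
    X ^ n ∣ sub g (xi (g * a * g⁻¹)) + xi a := by
  set f := g * a * g⁻¹ with hf
  have h1 : f * g = g * a := by rw [hf]; group
  have h2 : sub g f.ser = sub a g.ser := by rw [← mul_ser', ← mul_ser', h1]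
  rw [ser_eq f, map_add, sub_X] at h2
  have a1 := (mem_coord.mp ha).1
  have t := taylor2 (g := 1) (g' := a) (b := k) (a := 1) (n := n) (F := g.ser)
    (by rw [one_ser]; exact a1) (by rw [pow_one]; exact X_dvd_ser g) (by omega)
  rw [sub_one, sub_one, one_ser] at t
  have t0 : X ^ 1 ∣ om g := by
    have h2 : X ^ 2 ∣ xi g := (mem_coord.mp (Fn_one g)).1
    have h0 : coeff 0 (om g) = 0 := by
      rw [← coeff_xi_odd]
      exact coeff_of_dvd h2 (by norm_num)
    exact dvd_succ (n := 0) (F := om g) (by rw [pow_zero]; exact one_dvd _) h0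
  have t1 : X ^ n ∣ xi a * om g ^ 2 :=
    dvd_mul' a1 (sq_dvd (n := 2) t0 (by norm_num)) (by omega)
  have := dvd_add t t1
  have hw : od g.ser = 1 + om g := w_eq g
  rw [hw] at this
  have e : sub a g.ser + g.ser + (a.ser + X) * (1 + om g) ^ 2 + xi a * om g ^ 2 =
      sub g (xi f) + xi a := by
    rw [← h2]
    unfold xi
    linear_combination (g.ser + (a.ser + X) * om g + (a.ser + X) * om g ^ 2) * two_R
  rwa [e] at this

theorem xi_dvd_two (g : J) : X ^ (1 + 1) ∣ xi g := (mem_coord.mp (Fn_one g)).1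

theorem J_chiE (N : ℕ) (eN : N % 2 = 0) (hN : 2 ≤ N) : ∃ χ : J → ZMod 2,
    IsInv (Fn (N + 1)) χ ∧ χ (hJ (N - 1)) = 1 ∧ ∀ a ∈ Fn (N + 2), χ a = 0 := by
  refine ⟨fun x => coeff N (om x), ⟨?_, ?_⟩, ?_, ?_⟩
  · intro a b ha hb
    have := om_mul_cg (n := N + 1) ha hb (by omega)
    have := coeff_eq_of_dvd this (Nat.lt_succ_self N)
    rw [map_add] at this
    exact this
  · intro g a ha
    have h1 := conj_om (n := N + 1) g a ha (by omega) (by omega)
    have h2 := coeff_eq_of_dvd h1 (Nat.lt_succ_self N)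
    have hf : g * a * g⁻¹ ∈ Fn (N + 1) := (Fn_normal (N + 1)).conj_mem a ha g
    have h3 := (mem_coord.mp hf).2
    have h4 := taylor1 (g := 1) (g' := g) (b := 1) (a := N) (n := N + 1)
      (F := om (g * a * g⁻¹)) (by rw [one_ser]; exact xi_dvd_two g) h3 (by omega)
    rw [sub_one] at h4
    have h5 := coeff_eq_of_dvd h4 (Nat.lt_succ_self N)
    show coeff N (om (g * a * g⁻¹)) = coeff N (om a)
    rw [← h5, h2]
  · show coeff N (om (hJ (N - 1))) = 1
    rw [om_h, show N - 1 + 1 = N by omega, coeff_X_pow_self]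
  · intro a ha
    exact coeff_of_dvd (mem_coord.mp ha).2 (by omega)

theorem J_chiE' (N : ℕ) (eN : N % 2 = 0) (hN : 2 ≤ N) : ∃ χ : J → ZMod 2,
    IsInv (Fn (N + 1)) χ ∧ χ (hJ N) = 1 ∧ ∀ a ∈ Fn (N + 3), χ a = 0 := by
  refine ⟨fun x => coeff (N + 1) (om x), ⟨?_, ?_⟩, ?_, ?_⟩
  · intro a b ha hb
    have := om_mul_cg (n := N + 2) ha hb (by omega)
    have := coeff_eq_of_dvd this (show N + 1 < N + 2 by omega)
    rw [map_add] at this
    exact this
  · intro g a ha
    have h1 := conj_om (n := N + 2) g a ha (by omega) (by omega)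
    have h2 := coeff_eq_of_dvd h1 (show N + 1 < N + 2 by omega)
    have hf : g * a * g⁻¹ ∈ Fn (N + 1) := (Fn_normal (N + 1)).conj_mem a ha g
    have h3 : X ^ N ∣ om (g * a * g⁻¹) := (mem_coord.mp hf).2
    -- substitution of `g` in `X^N c`
    obtain ⟨m, rfl⟩ : ∃ m, N = 2 * m := ⟨N / 2, by omega⟩
    obtain ⟨c, hc⟩ := h3
    have s1 : X ^ (2 * m + 2) ∣ sub g (X ^ (2 * m)) + X ^ (2 * m) := by
      have h := taylor1 (g := 1) (g' := g) (b := 1) (a := m) (n := m + 1) (F := X ^ m)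
        (by rw [one_ser]; exact xi_dvd_two g) dvd_rfl le_rfl
      rw [sub_one] at h
      have e : sub g (X ^ (2 * m)) + X ^ (2 * m) = (sub g (X ^ m) + X ^ m) ^ 2 := by
        rw [mul_comm 2 m, pow_mul, map_pow]
        linear_combination -(sub g (X ^ m) * X ^ m) * two_R
      rw [e]
      exact sq_dvd h (by omega)
    have s2 : X ^ 2 ∣ sub g c + c := by
      have h := taylor2 (g := 1) (g' := g) (b := 1) (a := 0) (n := 2) (F := c)
        (by rw [one_ser]; exact xi_dvd_two g) (by rw [pow_zero]; exact one_dvd _) le_rfl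
      rw [sub_one, sub_one, one_ser] at h
      have h' : X ^ 2 ∣ (g.ser + X) * od c ^ 2 := Dvd.dvd.mul_right (xi_dvd_two g) _
      have := dvd_add h h'
      have e : sub g c + c + (g.ser + X) * od c ^ 2 + (g.ser + X) * od c ^ 2 = sub g c + c := by
        linear_combination ((g.ser + X) * od c ^ 2) * two_R
      rwa [e] at this
    have s3 : X ^ (2 * m + 2) ∣ sub g (om (g * a * g⁻¹)) + om (g * a * g⁻¹) := by
      rw [hc, map_mul]
      have d1 := Dvd.dvd.mul_right s1 (sub g c)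
      have d2 : X ^ (2 * m + 2) ∣ X ^ (2 * m) * (sub g c + c) := by
        rw [pow_add]; exact mul_dvd_mul dvd_rfl s2
      have := dvd_add d1 d2
      have e : (sub g (X ^ (2 * m)) + X ^ (2 * m)) * sub g c + X ^ (2 * m) * (sub g c + c) =
          sub g (X ^ (2 * m)) * sub g c + X ^ (2 * m) * c := by
        linear_combination (X ^ (2 * m) * sub g c) * two_R
      rwa [e] at this
    have h5 := coeff_eq_of_dvd s3 (show 2 * m + 1 < 2 * m + 2 by omega)
    show coeff (2 * m + 1) (om (g * a * g⁻¹)) = coeff (2 * m + 1) (om a)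
    rw [← h5, h2]
  · show coeff (N + 1) (om (hJ N)) = 1
    rw [om_h, coeff_X_pow_self]
  · intro a ha
    exact coeff_of_dvd (mem_coord.mp ha).2 (by omega)

/-- for odd `N ≥ 3`, elements of `F_(N+1)` have depth one more -/
theorem xi_extra {N : ℕ} {x : J} (eN : N % 2 = 1) (hN : 3 ≤ N) (hx : x ∈ Fn (N + 1)) :
    X ^ (N + 3) ∣ xi x := by
  apply dvd_succ (mem_coord.mp hx).1
  rw [show N + 1 + 1 = 2 * ((N + 1) / 2) + 1 by omega, coeff_xi_odd]
  exact coeff_of_dvd (mem_coord.mp hx).2 (by omega)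

theorem J_chiO (N : ℕ) (eN : N % 2 = 1) (hN : 3 ≤ N) : ∃ χ : J → ZMod 2,
    IsInv (Fn (N + 1)) χ ∧ χ (oJ (N + 2)) = 1 ∧ χ (hJ N) = 0 ∧ ∀ a ∈ Fn (N + 3), χ a = 0 := by
  refine ⟨fun x => coeff (N + 3) (xi x), ⟨?_, ?_⟩, ?_, ?_, ?_⟩
  · intro a b ha hb
    have := xi_mul_cg (n := N + 4) ha hb (by omega)
    have := coeff_eq_of_dvd this (show N + 3 < N + 4 by omega)
    rw [map_add] at this
    exact this
  · intro g a ha
    have h1 := conj_xi (n := N + 4) g a ha (by omega) (by omega)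
    have h2 := coeff_eq_of_dvd h1 (show N + 3 < N + 4 by omega)
    have hf : g * a * g⁻¹ ∈ Fn (N + 1) := (Fn_normal (N + 1)).conj_mem a ha g
    have h3 := xi_extra eN hN hf
    have h4 := taylor1 (g := 1) (g' := g) (b := 1) (a := N + 3) (n := N + 4)
      (F := xi (g * a * g⁻¹)) (by rw [one_ser]; exact xi_dvd_two g) h3 (by omega)
    rw [sub_one] at h4
    have h5 := coeff_eq_of_dvd h4 (show N + 3 < N + 4 by omega)
    show coeff (N + 3) (xi (g * a * g⁻¹)) = coeff (N + 3) (xi a)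
    rw [← h5, h2]
  · show coeff (N + 3) (xi (oJ (N + 2))) = 1
    rw [xi_o (N + 2) (by omega), show N + 2 + 1 = N + 3 by omega, coeff_X_pow_self]
  · show coeff (N + 3) (xi (hJ N)) = 0
    rw [xi_h, coeff_X_pow, if_neg (by omega)]
  · intro a ha
    exact coeff_of_dvd (mem_coord.mp ha).1 (by omega)

end

end Pool.Agent.Nott
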