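import Pool.Agent.Nott.Coset

/-! # Commutators and squares in the filtration -/

open PowerSeries

namespace Pool.Agent.Nott

noncomputable section

theorem J_cm_aux (i j : ℕ) (x y : J) (hi : 1 ≤ i) (hj : 1 ≤ j) (hx : x ∈ Fn i) (hy : y ∈ Fn j) :
    comm x y ∈ Fn (i + j) := by
  rw [comm_mem]
  have x1 := mem_coord.mp hx
  have y1 := mem_coord.mp hy
  constructor
  · rw [mul_ser', mul_ser']
    have t1 := taylor1 (g := 1) (g' := y) (b := j) (a := i + 1) (n := i + j + 1) (F := xi x)
      (by rw [one_ser]; exact y1.1) x1.1 (by omega)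
    have t2 := taylor1 (g := 1) (g' := x) (b := i) (a := j + 1) (n := i + j + 1) (F := xi y)
      (by rw [one_ser]; exact x1.1) y1.1 (by omega)
    rw [sub_one] at t1 t2
    have := dvd_add t1 t2
    have e1 : sub y x.ser = y.ser + sub y (xi x) := by rw [ser_eq x, map_add, sub_X]
    have e2 : sub x y.ser = x.ser + sub x (xi y) := by rw [ser_eq y, map_add, sub_X]
    rw [e1, e2]
    have e : sub y (xi x) + xi x + (sub x (xi y) + xi y) =
        y.ser + sub y (xi x) + (x.ser + sub x (xi y)) := by
      unfold xi; linear_combination X * two_R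
    rwa [e] at this
  · rw [w_mul, w_mul]
    have t1 := taylor1 (g := 1) (g' := y) (b := j) (a := i - 1) (n := i + j - 1) (F := om x)
      (by rw [one_ser]; exact y1.1) x1.2 (by omega)
    have t2 := taylor1 (g := 1) (g' := x) (b := i) (a := j - 1) (n := i + j - 1) (F := om y)
      (by rw [one_ser]; exact x1.1) y1.2 (by omega)
    rw [sub_one] at t1 t2
    have := dvd_add (Dvd.dvd.mul_left t1 (w y)) (Dvd.dvd.mul_left t2 (w x))
    have e1 : sub y (w x) = 1 + sub y (om x) := by rw [w_eq x, map_add, map_one]
    have e2 : sub x (w y) = 1 + sub x (om y) := by rw [w_eq y, map_add, map_one]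
    rw [e1, e2]
    have e : w y * (sub y (om x) + om x) + w x * (sub x (om y) + om y) =
        w y * (1 + sub y (om x)) + w x * (1 + sub x (om y)) := by
      unfold om; linear_combination (w x * w y) * two_R
    rwa [e] at this

theorem J_cm (i j : ℕ) (x y : J) (hx : x ∈ Fn i) (hy : y ∈ Fn j) : comm x y ∈ Fn (i + j) := by
  rcases Nat.eq_zero_or_pos i with rfl | hi
  · rcases Nat.eq_zero_or_pos j with rfl | hj
    · exact Fn_zero _
    · exact Fn_anti _ _ (by omega) (J_cm_aux 1 j x y le_rfl hj (Fn_one x) hy)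
  · rcases Nat.eq_zero_or_pos j with rfl | hj
    · exact Fn_anti _ _ (by omega) (J_cm_aux i 1 x y hi le_rfl hx (Fn_one y))
    · exact J_cm_aux i j x y hi hj hx hy

theorem J_sq (m : ℕ) (x : J) (hx : x ∈ Fn m) : x * x ∈ Fn (2 * m - 1) := by
  rcases Nat.eq_zero_or_pos m with rfl | hm
  · exact Fn_zero _
  · have x1 := mem_coord.mp hx
    rw [mem_coord]
    constructor
    · rw [xi_mul]
      have t1 := taylor1 (g := 1) (g' := x) (b := m) (a := m + 1) (n := 2 * m - 1 + 1) (F := xi x)
        (by rw [one_ser]; exact x1.1) x1.1 (by omega)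
      have e : xi x + xi x + (sub x (xi x) + sub 1 (xi x)) = sub x (xi x) + sub 1 (xi x) := by
        linear_combination xi x * two_R
      rwa [e]
    · rw [om_mul]
      have t1 := taylor1 (g := 1) (g' := x) (b := m) (a := m - 1) (n := 2 * m - 1 - 1) (F := om x)
        (by rw [one_ser]; exact x1.1) x1.2 (by omega)
      have t2 : X ^ (2 * m - 1 - 1) ∣ om x * om x := dvd_mul' x1.2 x1.2 (by omega)
      have := dvd_add t2 (Dvd.dvd.mul_right t1 (w x))
      have e : om x + om x + om x * om x + (sub x (om x) + sub 1 (om x)) * w x =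
          om x * om x + (sub x (om x) + sub 1 (om x)) * w x := by
        linear_combination om x * two_R
      rwa [e]

end

end Pool.Agent.Nott
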