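import Pool.Agent.Nott.Even

/-! # The extension step -/

namespace Pool.Agent.Nott

namespace Sys
variable {G : Type} [Group G] (S : Sys G)

/-- adjust the homomorphism by an invariant homomorphism of `G` -/
def adj (χ : G → ZMod 2) (hχ : IsInv S.D χ) : Sys G where
  Γ := S.Γ
  gr := S.gr
  π := S.π
  surj := S.surj
  D := S.D
  nor := S.nor
  T := fun a => S.T a + χ (S.π a)
  add := by
    intro a b ha hb
    rw [S.add a b ha hb, map_mul, hχ.1 _ _ ha hb]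
    ring
  inv := by
    intro g a ha
    rw [S.inv g a ha, map_mul, map_mul, map_inv, hχ.2 _ _ ha]

theorem adj_c (χ : G → ZMod 2) (hχ : IsInv S.D χ) (x y : G) :
    (S.adj χ hχ).c x y = S.c x y + χ (comm x y) := by
  show S.T (comm (S.s x) (S.s y)) + χ (S.π (comm (S.s x) (S.s y))) = _
  rw [map_comm, S.π_s, S.π_s]
  rfl

/-- the kernel of `T` -/
def Kr : Subgroup S.Γ where
  carrier := {b | S.π b ∈ S.D ∧ S.T b = 0}
  one_mem' := ⟨by rw [map_one]; exact S.D.one_mem, S.T_one⟩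
  mul_mem' := by
    rintro a b ⟨ha, ha'⟩ ⟨hb, hb'⟩
    exact ⟨by rw [map_mul]; exact S.D.mul_mem ha hb, by rw [S.add a b ha hb, ha', hb', add_zero]⟩
  inv_mem' := by
    rintro a ⟨ha, ha'⟩
    exact ⟨by rw [map_inv]; exact S.D.inv_mem ha, by rw [S.T_inv a ha, ha']⟩

theorem mem_Kr (b : S.Γ) : b ∈ S.Kr ↔ S.π b ∈ S.D ∧ S.T b = 0 := Iff.rfl

theorem Kr_normal : S.Kr.Normal := by
  constructor
  rintro a ⟨ha, ha'⟩ g
  refine ⟨?_, by rw [S.inv g a ha, ha']⟩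
  rw [map_mul, map_mul, map_inv]
  exact S.nor.conj_mem _ ha _

/-- extension of an invariant homomorphism -/
theorem extend (E : Subgroup G) (hE : E.Normal) (hDE : S.D ≤ E)
    (hc : ∀ v ∈ E, ∀ y, S.Dom v y ∧ S.c v y = 0) (hq : ∀ v ∈ E, S.DomQ v ∧ S.q v = 0) :
    ∃ T' : S.Γ → ZMod 2, (∀ a b, S.π a ∈ E → S.π b ∈ E → T' (a * b) = T' a + T' b) ∧
      (∀ g a, S.π a ∈ E → T' (g * a * g⁻¹) = T' a) ∧ ∀ a, S.π a ∈ S.D → T' a = S.T a := by
  have := S.Kr_normal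
  let mk := QuotientGroup.mk' S.Kr
  let A : Subgroup (S.Γ ⧸ S.Kr) := (E.comap S.π).map mk
  have hmk : ∀ x y : S.Γ, mk x = mk y ↔ x⁻¹ * y ∈ S.Kr := fun x y => by
    exact QuotientGroup.eq
  have hcomm : ∀ a b : A, a * b = b * a := by
    rintro ⟨_, x, hx, rfl⟩ ⟨_, y, hy, rfl⟩
    apply Subtype.ext
    show mk x * mk y = mk y * mk x
    rw [← map_mul, ← map_mul, hmk]
    have e : (x * y)⁻¹ * (y * x) = comm y x := by simp only [comm]; group
    rw [e, mem_Kr, map_comm]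
    obtain ⟨h1, h2⟩ := hc (S.π y) hy (S.π x)
    exact ⟨h1, by rw [S.lift _ _ h1, h2]⟩
  let _ : CommGroup A := { (inferInstance : Group A) with mul_comm := hcomm }
  have h2 : ∀ v : Additive A, 2 • v = 0 := by
    intro v
    obtain ⟨⟨_, x, hx, rfl⟩, rfl⟩ := Additive.ofMul.surjective v
    rw [← ofMul_pow]
    have : ((⟨mk x, x, hx, rfl⟩ : A) ^ 2) = 1 := by
      apply Subtype.ext
      show (mk x) ^ 2 = 1
      rw [← map_pow, pow_two]
      apply (QuotientGroup.eq_one_iff _).mpr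
      obtain ⟨h1, h2⟩ := hq (S.π x) hx
      rw [mem_Kr, map_mul]
      exact ⟨h1, by rw [S.liftq _ h1, h2]⟩
    rw [this]
    rfl
  let _ : Module (ZMod 2) (Additive A) := AddCommGroup.zmodModule h2
  have hT : ∀ b b' : S.Γ, S.π b ∈ S.D → S.π b' ∈ S.D → mk b = mk b' → S.T b = S.T b' := by
    intro b b' hb hb' h
    have h3 := ((hmk _ _).mp h).2
    rw [S.add _ _ (by rw [map_inv]; exact S.D.inv_mem hb) hb', S.T_inv _ hb] at h3
    have h4 : S.T b + S.T b' = S.T b + S.T b := by rw [h3, zz]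
    exact (add_left_cancel h4).symm
  let W : AddSubgroup (Additive A) :=
    { carrier := {v | ∃ b : S.Γ, S.π b ∈ S.D ∧ mk b = (v.toMul : S.Γ ⧸ S.Kr)}
      zero_mem' := ⟨1, by rw [map_one]; exact S.D.one_mem, by rw [map_one]; rfl⟩
      add_mem' := by
        rintro v v' ⟨b, hb, e⟩ ⟨b', hb', e'⟩
        exact ⟨b * b', by rw [map_mul]; exact S.D.mul_mem hb hb', by rw [map_mul, e, e']; rfl⟩
      neg_mem' := by
        rintro v ⟨b, hb, e⟩
        exact ⟨b⁻¹, by rw [map_inv]; exact S.D.inv_mem hb, by rw [map_inv, e]; rfl⟩ }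
  let t : W →+ ZMod 2 :=
    AddMonoidHom.mk' (fun v => S.T (Classical.choose v.2)) (by
      intro v v'
      obtain ⟨h1, h1'⟩ := Classical.choose_spec v.2
      obtain ⟨h3, h3'⟩ := Classical.choose_spec v'.2
      obtain ⟨h4, h4'⟩ := Classical.choose_spec (v + v').2
      rw [← S.add _ _ h1 h3]
      refine hT _ _ h4 (by rw [map_mul]; exact S.D.mul_mem h1 h3) ?_
      rw [h4', map_mul, h1', h3']
      rfl)
  obtain ⟨g, hg⟩ := LinearMap.exists_extend (p := AddSubgroup.toZModSubmodule 2 W)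
    (AddMonoidHom.toZModLinearMap 2 t)
  classical
  have hm : ∀ x : S.Γ, S.π x ∈ E → mk x ∈ A := fun x hx => Subgroup.mem_map_of_mem mk hx
  let T' : S.Γ → ZMod 2 := fun x => if h : S.π x ∈ E then g (Additive.ofMul ⟨mk x, hm x h⟩) else 0
  have hT' : ∀ x (h : S.π x ∈ E), T' x = g (Additive.ofMul ⟨mk x, hm x h⟩) := fun x h => dif_pos h
  refine ⟨T', ?_, ?_, ?_⟩
  · intro a b ha hb
    have hab : S.π (a * b) ∈ E := by rw [map_mul]; exact E.mul_mem ha hb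
    rw [hT' _ ha, hT' _ hb, hT' _ hab, ← map_add]
    rfl
  · intro c a ha
    have hca : S.π (c * a * c⁻¹) ∈ E := by
      rw [map_mul, map_mul, map_inv]; exact hE.conj_mem _ ha _
    rw [hT' _ ha, hT' _ hca]
    congr 2
    apply Subtype.ext
    show mk (c * a * c⁻¹) = mk a
    rw [hmk]
    have e : (c * a * c⁻¹)⁻¹ * a = (comm a c⁻¹)⁻¹ := by simp only [comm]; group
    rw [e]
    apply S.Kr.inv_mem
    rw [mem_Kr, map_comm]
    obtain ⟨h1, h2⟩ := hc (S.π a) ha (S.π c⁻¹)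
    exact ⟨h1, by rw [S.lift _ _ h1, h2]⟩
  · intro a ha
    have haE := hDE ha
    rw [hT' _ haE]
    have hw : (Additive.ofMul (⟨mk a, hm a haE⟩ : A)) ∈ W := ⟨a, ha, rfl⟩
    have e := congrArg (fun f => f ⟨_, hw⟩) hg
    have e' : g (Additive.ofMul ⟨mk a, hm a haE⟩) = t ⟨_, hw⟩ := e
    rw [e']
    obtain ⟨h1, h1'⟩ := Classical.choose_spec hw
    exact hT _ _ h1 ha h1'

end Sys

section inv
variable {G : Type} [Group G] {D : Subgroup G}

theorem IsInv.smul {χ : G → ZMod 2} (h : IsInv D χ) (c : ZMod 2) : IsInv D (fun a => c * χ a) :=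
  ⟨fun a b ha hb => by show c * _ = c * _ + c * _; rw [h.1 a b ha hb]; ring,
    fun g a ha => by show c * _ = c * _; rw [h.2 g a ha]⟩

theorem IsInv.add {χ χ' : G → ZMod 2} (h : IsInv D χ) (h' : IsInv D χ') :
    IsInv D (fun a => χ a + χ' a) :=
  ⟨fun a b ha hb => by
    show χ _ + χ' _ = (χ _ + χ' _) + (χ _ + χ' _)
    rw [h.1 a b ha hb, h'.1 a b ha hb]; ring,
    fun g a ha => by show χ _ + χ' _ = χ _ + χ' _; rw [h.2 g a ha, h'.2 g a ha]⟩

theorem IsInv.cg {χ : G → ZMod 2} (h : IsInv D χ) {E : Subgroup G} {x y : G} (hxy : Cg E x y)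
    (hy : y ∈ D) (hED : E ≤ D) (h0 : ∀ a ∈ E, χ a = 0) : χ x = χ y := by
  have e : x = y * (y⁻¹ * x) := by group
  conv_lhs => rw [e]
  rw [h.1 _ _ hy (hED hxy), h0 _ hxy, add_zero]

end inv

namespace Facts
variable {G : Type} [Group G] (Φ : Facts G)

/-- an adjustment making `c` vanish on `F N × G` -/
theorem adjust (S : Sys G) (N : ℕ) (hN : 40 ≤ N) (hD : S.D = Φ.F (N + 1)) :
    ∃ (χ : G → ZMod 2) (hχ : IsInv S.D χ), (∀ a ∈ Φ.F (N + 3), χ a = 0) ∧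
      ∀ v ∈ Φ.F N, ∀ y, (S.adj χ hχ).c v y = 0 := by
  have up : ∀ {m n : ℕ} {x : G}, x ∈ Φ.F n → m ≤ n → x ∈ Φ.F m := fun hx h => Φ.anti _ _ h hx
  rcases Nat.mod_two_eq_zero_or_one N with he | ho
  · obtain ⟨χ1, i1, v1, z1⟩ := Φ.chiE' N he (by omega)
    obtain ⟨χ2, i2, v2, z2⟩ := Φ.chiE N he (by omega)
    obtain ⟨e, hr⟩ := Φ.rh_even (N - 2) (by omega) (by omega)
    rw [show N - 2 + 2 = N by omega, show N - 2 + 4 = N + 2 by omega,
      show N - 2 + 8 = N + 6 by omega] at hr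
    have hs := Φ.sh_even (N - 2) (by omega) (by omega)
    rw [show N - 2 + 4 = N + 2 by omega, show N - 2 + 1 = N - 1 by omega] at hs
    have m0 : Φ.h N ∈ Φ.F (N + 2) := Φ.hF N
    have m2 : Φ.h (N + 2) ^ e ∈ Φ.F (N + 4) := (Φ.F _).pow_mem (Φ.hF (N + 2)) e
    have m1 : Φ.h (N - 1) ∈ Φ.F (N + 1) := by
      have := Φ.hF (N - 1)
      rwa [show N - 1 + 2 = N + 1 by omega] at this
    have hv1 : χ1 (comm (Φ.h (N - 2)) (Φ.h 0)) = 1 := by
      rw [i1.cg hr ((Φ.F _).mul_mem (up m0 (by omega)) (up m2 (by omega)))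
        (Φ.anti _ _ (by omega)) (fun a ha => z1 a (up ha (by omega))),
        i1.1 _ _ (up m0 (by omega)) (up m2 (by omega)), v1, z1 _ (up m2 (by omega)), add_zero]
    have hv2 : χ2 (comm (Φ.h (N - 2)) (Φ.h 0)) = 0 := by
      apply z2
      have := Φ.cm _ _ _ _ (Φ.hF (N - 2)) (Φ.hF 0)
      exact up this (by omega)
    have hv3 : χ2 (comm (Φ.h (N - 2)) (Φ.o 1)) = 1 := by
      rw [i2.cg hs m1 (Φ.anti _ _ (by omega)) z2, v2]
    set a := S.c (Φ.h (N - 2)) (Φ.h 0) with ha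
    set b := S.c (Φ.h (N - 2)) (Φ.o 1) + a * χ1 (comm (Φ.h (N - 2)) (Φ.o 1)) with hb
    have hχ : IsInv S.D (fun t => a * χ1 t + b * χ2 t) := by
      rw [hD]
      exact (i1.smul a).add (i2.smul b)
    refine ⟨_, hχ, ?_, ?_⟩
    · intro t ht
      show a * χ1 t + b * χ2 t = 0
      rw [z1 t ht, z2 t (up ht (by omega)), mul_zero, mul_zero, add_zero]
    · intro v hv y
      refine Ctx.even_zero ⟨Φ, S.adj _ hχ, N, hD, hN⟩ he ?_ ?_ v y hv
      · show (S.adj _ hχ).c (Φ.h (N - 2)) (Φ.h 0) = 0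
        rw [S.adj_c, hv1, hv2, ← ha, mul_one, mul_zero, add_zero, Sys.zz]
      · show (S.adj _ hχ).c (Φ.h (N - 2)) (Φ.o 1) = 0
        rw [S.adj_c, hv3, mul_one, ← add_assoc, ← hb, Sys.zz]
  · obtain ⟨χ1, i1, v1, w1, z1⟩ := Φ.chiO N ho (by omega)
    have hr := Φ.ro N ho
    have m0 : Φ.o (N + 2) ∈ Φ.F (N + 1) := up (Φ.oF (N + 2) (by omega)) (by omega)
    have m1 : Φ.h N ∈ Φ.F (N + 1) := up (Φ.hF N) (by omega)
    have m2 : Φ.h (N + 1) ∈ Φ.F (N + 3) := Φ.hF (N + 1)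
    have m2' := up m2 (show N + 1 ≤ N + 3 by omega)
    have hv1 : χ1 (comm (Φ.o N) (Φ.h 0)) = 1 := by
      rw [i1.cg hr ((Φ.F _).mul_mem ((Φ.F _).mul_mem m0 m1) m2')
        (Φ.anti _ _ (by omega)) (fun a ha => z1 a (up ha (by omega))),
        i1.1 _ _ ((Φ.F _).mul_mem m0 m1) m2', i1.1 _ _ m0 m1, v1, w1, z1 _ m2, add_zero,
        add_zero]
    set a := S.c (Φ.o N) (Φ.h 0) with ha
    have hχ : IsInv S.D (fun t => a * χ1 t) := by
      rw [hD]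
      exact i1.smul a
    refine ⟨_, hχ, ?_, ?_⟩
    · intro t ht
      show a * χ1 t = 0
      rw [z1 t ht, mul_zero]
    · intro v hv y
      refine OddCtx.c_zero ⟨⟨Φ, S.adj _ hχ, N, hD, hN⟩, ho, ?_⟩ v y hv
      show (S.adj _ hχ).c (Φ.o N) (Φ.h 0) = 0
      rw [S.adj_c, hv1, ← ha, mul_one, Sys.zz]

/-- **The extension step** -/
theorem step (Γ : Type) [Group Γ] (π : Γ →* G) (hπ : Function.Surjective π) (N : ℕ)
    (hN : 40 ≤ N) (T : Γ → ZMod 2)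
    (hadd : ∀ a b, π a ∈ Φ.F (N + 1) → π b ∈ Φ.F (N + 1) → T (a * b) = T a + T b)
    (hinv : ∀ g a, π a ∈ Φ.F (N + 1) → T (g * a * g⁻¹) = T a) :
    ∃ T' : Γ → ZMod 2, (∀ a b, π a ∈ Φ.F N → π b ∈ Φ.F N → T' (a * b) = T' a + T' b) ∧
      (∀ g a, π a ∈ Φ.F N → T' (g * a * g⁻¹) = T' a) ∧
      ∀ a, π a ∈ Φ.F (N + 3) → T' a = T a := by
  let S0 : Sys G := ⟨Γ, π, hπ, Φ.F (N + 1), Φ.nor _, T, hadd, hinv⟩
  obtain ⟨χ, hχ, hz, hc⟩ := Φ.adjust S0 N hN rfl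
  let K : Ctx G := ⟨Φ, S0.adj χ hχ, N, rfl, hN⟩
  obtain ⟨T', h1, h2, h3⟩ := (S0.adj χ hχ).extend (Φ.F N) (Φ.nor N) (Φ.anti _ _ (by omega))
    (fun v hv y => ⟨K.mem_D (K.cm _ _ _ _ hv (K.top y)) le_rfl, hc v hv y⟩)
    (fun v hv => ⟨K.domq_w hv (by show N + 1 ≤ _; omega), K.Q N v (by show N + 7 ≤ _; omega) hv⟩)
  refine ⟨T', h1, h2, fun a ha => ?_⟩
  rw [h3 a (Φ.anti _ _ (by omega) ha)]
  show T a + χ (π a) = T a
  rw [hz _ ha, add_zero]

end Facts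

end Pool.Agent.Nott
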