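import Pool.Agent.Nott.DataB
import Pool.Agent.Nott.DataC
import Pool.Agent.Nott.DataD
import Pool.Agent.Nott.DataE
import Pool.Agent.Nott.Step

/-! # All facts about the Nottingham group over the field with two elements -/

open PowerSeries

namespace Pool.Agent.Nott

noncomputable section

theorem G_cm (i j : ℕ) (x y : J) (hx : x ∈ Fn i) (hy : y ∈ Fn j) : comm x y ∈ Fn (i + j) := by
  rcases Nat.eq_zero_or_pos i with rfl | hi
  · rw [zero_add]
    have h : comm x y = (x⁻¹ * y⁻¹ * x⁻¹⁻¹) * y := by simp only [comm]; group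
    rw [h]
    exact (Fn j).mul_mem ((Fn_normal j).conj_mem _ ((Fn j).inv_mem hy) _) hy
  rcases Nat.eq_zero_or_pos j with rfl | hj
  · rw [add_zero]
    have h : comm x y = x⁻¹ * (y⁻¹ * x * y⁻¹⁻¹) := by simp only [comm]; group
    rw [h]
    exact (Fn i).mul_mem ((Fn i).inv_mem hx) ((Fn_normal i).conj_mem _ hx _)
  rw [comm_mem]
  have x1 := mem_coord.mp hx
  have y1 := mem_coord.mp hy
  have a1 : X ^ (i + j + 1) ∣ sub y (xi x) + sub 1 (xi x) :=
    taylor1 (a := i + 1) (b := j) (by rw [one_ser]; exact y1.1) x1.1 (by omega)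
  have a2 : X ^ (i + j + 1) ∣ sub x (xi y) + sub 1 (xi y) :=
    taylor1 (a := j + 1) (b := i) (by rw [one_ser]; exact x1.1) y1.1 (by omega)
  have b1 : X ^ (i + j - 1) ∣ sub y (om x) + sub 1 (om x) :=
    taylor1 (a := i - 1) (b := j) (by rw [one_ser]; exact y1.1) x1.2 (by omega)
  have b2 : X ^ (i + j - 1) ∣ sub x (om y) + sub 1 (om y) :=
    taylor1 (a := j - 1) (b := i) (by rw [one_ser]; exact x1.1) y1.2 (by omega)
  constructor
  · have e : (x * y).ser + (y * x).ser = xi (x * y) + xi (y * x) := by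
      unfold xi
      linear_combination -X * two_R
    rw [e, xi_mul, xi_mul]
    have := dvd_add a1 a2
    have e2 : xi x + xi y + (sub y (xi x) + sub 1 (xi x)) +
        (xi y + xi x + (sub x (xi y) + sub 1 (xi y))) =
        sub y (xi x) + sub 1 (xi x) + (sub x (xi y) + sub 1 (xi y)) := by
      linear_combination (xi x + xi y) * two_R
    rwa [e2]
  · have e : w (x * y) + w (y * x) = om (x * y) + om (y * x) := by
      unfold om
      linear_combination -two_R
    rw [e, om_mul, om_mul]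
    have := dvd_add (Dvd.dvd.mul_right b1 (w y)) (Dvd.dvd.mul_right b2 (w x))
    have e2 : om x + om y + om x * om y + (sub y (om x) + sub 1 (om x)) * w y +
        (om y + om x + om y * om x + (sub x (om y) + sub 1 (om y)) * w x) =
        (sub y (om x) + sub 1 (om x)) * w y + (sub x (om y) + sub 1 (om y)) * w x := by
      linear_combination (om x + om y + om x * om y) * two_R
    rwa [e2]

theorem G_sq (m : ℕ) (x : J) (hx : x ∈ Fn m) : x * x ∈ Fn (2 * m - 1) := by
  rcases Nat.eq_zero_or_pos m with rfl | hm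
  · exact Fn_zero _
  have x1 := mem_coord.mp hx
  have a1 : X ^ (2 * m - 1 + 1) ∣ sub x (xi x) + sub 1 (xi x) :=
    taylor1 (a := m + 1) (b := m) (by rw [one_ser]; exact x1.1) x1.1 (by omega)
  have b1 : X ^ (2 * m - 1 - 1) ∣ sub x (om x) + sub 1 (om x) :=
    taylor1 (a := m - 1) (b := m) (by rw [one_ser]; exact x1.1) x1.2 (by omega)
  rw [mem_coord, xi_mul, om_mul, add_self, add_self, zero_add, zero_add]
  refine ⟨a1, dvd_add ?_ (Dvd.dvd.mul_right b1 _)⟩
  exact dvd_mul' x1.2 x1.2 (by omega)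

/-- the facts for the Nottingham group -/
def nottFacts : Facts J where
  F := Fn
  o := oJ
  h := hJ
  nor := Fn_normal
  anti := Fn_anti
  top := Fn_one
  oF := oJ_mem
  hF := hJ_mem
  cm := G_cm
  sq := G_sq
  gen_one := J_gen_one
  gen_even := J_gen_even
  gen_odd := J_gen_odd
  sh_even := J_sh_even
  sh_odd := J_sh_odd
  sh_ref := J_sh_ref
  so := J_so
  rh_even := by
    intro j ej hj
    rcases Nat.lt_or_ge j 4 with h4 | h4
    · have : j = 2 := by omega
      subst this
      exact ⟨0, J_rh_even_2⟩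
    · exact ⟨j / 2, J_rh_even4 j ej h4⟩
  rh_odd := fun j ej hj => ⟨(j + 1) / 2, J_rh_odd j ej hj⟩
  rh_1 := J_rh_1
  rh_3 := J_rh_3
  ro := by
    intro i ei
    rcases Nat.lt_or_ge i 5 with h5 | h5
    · exact J_ro_1_3 i (by omega)
    · exact J_ro5 i ei h5
  kh_even := J_kh_even
  ko := J_ko
  t3h := J_t3h
  t3o := J_t3o
  oh_even := J_oh_even
  oh_odd := J_oh_odd
  hh := J_hh
  oo := J_oo
  sqh := J_sqh
  sqo := J_sqo
  sqo1 := J_sqo1
  sqr := J_sqr
  chiE := J_chiE
  chiE' := J_chiE'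
  chiO := J_chiO

end

end Pool.Agent.Nott
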