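import Pool.Agent.Nott.Odd

/-! # The case `N` even -/

namespace Pool.Agent.Nott

variable {G : Type} [Group G]

namespace Ctx
variable (K : Ctx G)

/-- for `N` even: `c (h (N-2)) (h 2) = 0` -/
theorem even_h2 (he : K.N % 2 = 0) : K.S.c (K.h (K.N - 2)) (K.h 2) = 0 := by
  have hN := K.hN
  rcases (by omega : K.N % 4 = 0 ∨ K.N % 4 = 2) with h0 | h2
  · exact K.H_ee4 (W := K.N + 4) K.Z5 (by omega) (by omega) _ _ (by omega) (by omega) rfl
      le_rfl (by omega)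
  · have h3 : (⟨K, K.N, h2, Or.inl rfl, K.Z5⟩ : KCtx G).g =
        (⟨K, K.N, h2, Or.inl rfl, K.Z5⟩ : KCtx G).δ := KCtx.key _
    have h4 : K.S.c (K.h (K.N - 2)) (K.h 2) = K.S.c (K.h (K.N - 1)) (K.h 0) := h3
    rw [h4]
    exact K.c_hD (by omega) _

/-- for `N` even, `c` vanishes on `F N × G` once it vanishes for the generators -/
theorem even_zero (he : K.N % 2 = 0) (h0 : K.S.c (K.h (K.N - 2)) (K.h 0) = 0)
    (h1 : K.S.c (K.h (K.N - 2)) (K.o 1) = 0) (v y : G) (hv : v ∈ K.F K.N) :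
    K.S.c v y = 0 := by
  have hN := K.hN
  have hh : K.h (K.N - 2) ∈ K.F K.N := K.hW (by omega)
  set v0 := K.h (K.N - 2) with hv0
  have dom : ∀ y, K.S.Dom v0 y := fun y => K.dom_w hh (K.top y) (by omega)
  have add : ∀ y z, K.S.c v0 (y * z) = K.S.c v0 y + K.S.c v0 z := fun y z =>
    K.S.c_mul_right (dom y) (dom z)
  have pw : ∀ y, K.S.c v0 y = 0 → ∀ n : ℕ, K.S.c v0 (y ^ n) = 0 := by
    intro y h n
    rw [K.S.c_symm (dom _), K.S.c_pow_left (K.S.dom_symm (dom y)), ← K.S.c_symm (dom y), h,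
      mul_zero]
  have cg : ∀ {D : Subgroup G} {y z : G}, Cg D y z → (∀ t ∈ D, K.S.c v0 t = 0) →
      K.S.c v0 z = 0 → K.S.c v0 y = 0 := by
    intro D y z hyz ht hz
    have e : y = z * (z⁻¹ * y) := by group
    rw [e, add, hz, ht _ hyz, add_zero]
  have h2 := K.even_h2 he
  have z5 : ∀ t ∈ K.F 5, K.S.c v0 t = 0 := fun t ht => K.Z5 _ _ _ _ hh ht (by omega)
  have z4 : ∀ t ∈ K.F 4, K.S.c v0 t = 0 := by
    intro t ht
    obtain ⟨b, hb⟩ := K.gen_even 4 t rfl (by norm_num) ht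
    exact cg hb z5 (pw _ h2 b)
  have h3 : K.S.c v0 (K.o 3) = 0 := by
    rw [← K.sqo1, add, h1, add_zero]
  have hh1 : K.S.c v0 (K.h 1) = 0 := by
    have e1 : K.S.c v0 (K.h 0 * K.h 0) = 0 := by rw [add, h0, add_zero]
    have e2 : K.h 0 * K.h 0 = K.h 1 * (K.h 2 * ((K.h 1 * K.h 2)⁻¹ * (K.h 0 * K.h 0))) := by group
    rw [e2, add, add, h2, z5 _ K.sqr, add_zero, add_zero] at e1
    exact e1
  have z3 : ∀ t ∈ K.F 3, K.S.c v0 t = 0 := by
    intro t ht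
    obtain ⟨a, b, hb⟩ := K.gen_odd 3 t rfl (by norm_num) ht
    exact cg hb z4 (by rw [add, pw _ h3 a, pw _ hh1 b, add_zero])
  have z2 : ∀ t ∈ K.F 2, K.S.c v0 t = 0 := by
    intro t ht
    obtain ⟨b, hb⟩ := K.gen_even 2 t rfl le_rfl ht
    exact cg hb z3 (pw _ h0 b)
  have z1 : ∀ t, K.S.c v0 t = 0 := by
    intro t
    obtain ⟨a, ha⟩ := K.gen_one t
    exact cg ha z2 (pw _ h1 a)
  obtain ⟨b, hb⟩ := K.gen_even K.N v he (by omega) hv
  rw [← K.hD] at hb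
  rw [(K.cgD hb (K.S.dom_pow_left (dom y) b)).2, K.S.c_pow_left (dom y), z1, mul_zero]

end Ctx

end Pool.Agent.Nott
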