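import Pool.Agent.Nott.FreePro

/-! # Finite presentability of pro-2 groups and the reduction to an extension step -/

namespace Pool.Agent.Nott

/-- the closed normal subgroup generated by a set -/
def closedNormal {F : Type} [Group F] [TopologicalSpace F] [IsTopologicalGroup F] (S : Set F) :
    Subgroup F := (Subgroup.normalClosure S).topologicalClosure

instance {F : Type} [Group F] [TopologicalSpace F] [IsTopologicalGroup F] (S : Set F) :
    (closedNormal S).Normal := Subgroup.is_normal_topologicalClosure _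

/-- A pro-2 group `G` is **finitely presented** if it is isomorphic (as a topological group) to
the quotient of a free pro-2 group of finite rank by the closed normal subgroup generated by
finitely many elements. -/
def IsFPPro2 (G : Type) [Group G] [TopologicalSpace G] : Prop :=
  IsPro2 G ∧ ∃ (d : ℕ) (S : Finset (FreePro2 d)),
    Nonempty ((FreePro2 d ⧸ closedNormal (S : Set (FreePro2 d))) ≃ₜ* G)

theorem exists_central {P : Type} [Group P] [Finite P] (hP : IsPGroup 2 P) (B : Subgroup P)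
    [B.Normal] (hB : B ≠ ⊥) :
    ∃ z ∈ B, z ≠ 1 ∧ (∀ g : P, g * z * g⁻¹ = z) ∧ z * z = 1 := by
  have : Nontrivial B := (Subgroup.nontrivial_iff_ne_bot B).mpr hB
  have h2 : 2 ∣ Nat.card B := by
    obtain ⟨n, hn0, hn⟩ := (hP.to_subgroup B).nontrivial_iff_card.mp inferInstance
    exact hn.symm ▸ dvd_pow_self _ (ne_of_gt hn0)
  have h1 : (1 : B) ∈ MulAction.fixedPoints (ConjAct P) B := fun g => smul_one g
  obtain ⟨b, hb, hne⟩ := (hP.of_equiv ConjAct.toConjAct).exists_fixed_point_of_prime_dvd_card_of_fixed_point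
    B h2 h1
  have hconj : ∀ g : P, g * (b : P) * g⁻¹ = b := by
    intro g
    have := congrArg Subtype.val (hb (ConjAct.toConjAct g))
    rw [ConjAct.Subgroup.val_conj_smul] at this
    exact this
  have hb1 : (b : P) ≠ 1 := fun h => hne (Subtype.ext h.symm)
  classical
  have hex : ∃ k : ℕ, (b : P) ^ (2 ^ k) = 1 := hP b
  obtain ⟨k, hk⟩ : ∃ k, Nat.find hex = k + 1 := by
    rcases Nat.eq_zero_or_pos (Nat.find hex) with h0 | h0
    · exfalso
      have := Nat.find_spec hex
      rw [h0, pow_zero, pow_one] at this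
      exact hb1 this
    · exact ⟨Nat.find hex - 1, by omega⟩
  refine ⟨(b : P) ^ (2 ^ k), B.pow_mem b.2 _, ?_, ?_, ?_⟩
  · exact Nat.find_min hex (by omega)
  · intro g
    rw [← conj_pow, hconj]
  · rw [← pow_add, ← two_mul, ← pow_succ', ← hk]
    exact Nat.find_spec hex

theorem exists_index_two {F : Type} [Group F] (A0 B : Subgroup F) (h0 : A0.Normal)
    (hB : B.Normal) (hle : A0 ≤ B) (hne : A0 ≠ B) (hk : ∃ k : ℕ, A0.index = 2 ^ k) :
    ∃ A : Subgroup F, A.Normal ∧ A0 ≤ A ∧ A ≤ B ∧ A ≠ B ∧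
      ∀ x ∈ B, ∀ y ∈ B, (x * y ∈ A ↔ (x ∈ A ↔ y ∈ A)) := by
  classical
  obtain ⟨k, hk⟩ := hk
  let p : ℕ → Prop := fun n => ∃ A : Subgroup F, A.Normal ∧ A0 ≤ A ∧ A ≤ B ∧ A ≠ B ∧ A.index = n
  have hp : ∃ n, p n := ⟨A0.index, A0, h0, le_rfl, hle, hne, rfl⟩
  obtain ⟨A, hA, h1, h2, h3, h4⟩ := Nat.find_spec hp
  have hmin : ∀ C : Subgroup F, C.Normal → A0 ≤ C → C ≤ B → C ≠ B → A.index ≤ C.index := by
    intro C c1 c2 c3 c4
    rw [h4]
    exact Nat.find_min' hp ⟨C, c1, c2, c3, c4, rfl⟩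
  refine ⟨A, hA, h1, h2, h3, ?_⟩
  obtain ⟨j, _, hj⟩ := (Nat.dvd_prime_pow Nat.prime_two).mp
    (hk ▸ Subgroup.index_dvd_of_le h1 : A.index ∣ 2 ^ k)
  have hfin : A.FiniteIndex := ⟨by rw [hj]; positivity⟩
  have hP : IsPGroup 2 (F ⧸ A) := IsPGroup.of_card (n := j) (by rw [← hj]; rfl)
  set mk := QuotientGroup.mk' A with hmk
  have mk1 : ∀ x, mk x = 1 ↔ x ∈ A := fun x => QuotientGroup.eq_one_iff x
  have hB' : (B.map mk).Normal := hB.map mk (QuotientGroup.mk'_surjective A)
  have hBn : B.map mk ≠ ⊥ := by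
    intro h
    apply h3
    refine le_antisymm h2 ?_
    intro b hb
    have : mk b ∈ B.map mk := Subgroup.mem_map_of_mem mk hb
    rw [h, Subgroup.mem_bot] at this
    exact (mk1 b).mp this
  obtain ⟨z, hz, hz1, hzc, hz2⟩ := exists_central hP (B.map mk) hBn
  have hzp : ∀ y, y ∈ Subgroup.zpowers z ↔ y = 1 ∨ y = z := by
    intro y
    constructor
    · intro hy
      obtain ⟨n, rfl⟩ := Subgroup.mem_zpowers_iff.mp hy
      rcases Int.even_or_odd' n with ⟨m, rfl | rfl⟩
      · left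
        rw [zpow_mul]
        have : z ^ (2 : ℤ) = 1 := by rw [zpow_two, hz2]
        rw [this, one_zpow]
      · right
        rw [zpow_add, zpow_mul]
        have : z ^ (2 : ℤ) = 1 := by rw [zpow_two, hz2]
        rw [this, one_zpow, zpow_one, one_mul]
    · rintro (h | h)
      · rw [h]; exact Subgroup.one_mem _
      · rw [h]; exact Subgroup.mem_zpowers z
  have hCn : (Subgroup.zpowers z).Normal := by
    constructor
    intro n hn g
    rcases (hzp n).mp hn with h | h
    · rw [h, mul_one, mul_inv_cancel]; exact Subgroup.one_mem _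
    · rw [h, hzc]; exact Subgroup.mem_zpowers z
  set C := (Subgroup.zpowers z).comap mk with hC
  have hCN : C.Normal := hCn.comap mk
  have hAC : A ≤ C := fun a ha => by
    rw [hC, Subgroup.mem_comap, (mk1 a).mpr ha]; exact Subgroup.one_mem _
  have hCB : C ≤ B := by
    intro c hc
    rw [hC, Subgroup.mem_comap, hzp] at hc
    rcases hc with hc | hc
    · exact h2 ((mk1 c).mp hc)
    · obtain ⟨b, hb, hbz⟩ := hz
      have h5 : mk (b⁻¹ * c) = 1 := by rw [map_mul, map_inv, hbz, hc, inv_mul_cancel]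
      have h6 := h2 ((mk1 _).mp h5)
      have : c = b * (b⁻¹ * c) := by group
      rw [this]
      exact B.mul_mem hb h6
  have hAneC : A ≠ C := by
    intro h
    obtain ⟨b, hb, hbz⟩ := hz
    have h5 : b ∈ C := by rw [hC, Subgroup.mem_comap, hbz]; exact Subgroup.mem_zpowers z
    rw [← h] at h5
    exact hz1 (hbz ▸ (mk1 b).mpr h5)
  have hCeqB : C = B := by
    by_contra hcb
    have h5 := hmin C hCN (le_trans h1 hAC) hCB hcb
    have h6 := Subgroup.index_strictAnti (lt_of_le_of_ne hAC hAneC)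
    omega
  intro x hx y hy
  rw [← hCeqB, hC, Subgroup.mem_comap, hzp] at hx hy
  rw [← mk1, ← mk1, ← mk1, map_mul]
  rcases hx with hx | hx <;> rcases hy with hy | hy <;> rw [hx, hy]
  · simp
  · simp [hz1]
  · simp [hz1]
  · simp [hz2]

/-- invariant homomorphisms at a level -/
def InvAt {F G : Type} [Group F] [Group G] (π : F →* G) (H : Subgroup G) (T : F → ZMod 2) : Prop :=
  (∀ a b, π a ∈ H → π b ∈ H → T (a * b) = T a + T b) ∧ ∀ g a, π a ∈ H → T (g * a * g⁻¹) = T a

theorem down {F G : Type} [Group F] [Group G] (π : F →* G) (Fil : ℕ → Subgroup G)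
    (ha : Antitone Fil) (n0 : ℕ)
    (step : ∀ N, n0 ≤ N → ∀ T : F → ZMod 2, InvAt π (Fil (N + 1)) T →
      ∃ T' : F → ZMod 2, InvAt π (Fil N) T' ∧ ∀ a, π a ∈ Fil (N + 3) → T' a = T a) :
    ∀ (j : ℕ) (T : F → ZMod 2), InvAt π (Fil (n0 + j)) T →
      ∃ T' : F → ZMod 2, InvAt π (Fil n0) T' ∧ ∃ K, ∀ a, π a ∈ Fil K → T' a = T a := by
  intro j
  induction j with
  | zero => intro T hT; exact ⟨T, hT, 0, fun _ _ => rfl⟩
  | succ j ih =>
    intro T hT
    obtain ⟨T1, h1, h2⟩ := step (n0 + j) (by omega) T hT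
    obtain ⟨T', h3, K, h4⟩ := ih T1 h1
    refine ⟨T', h3, max K (n0 + j + 3), fun a hK => ?_⟩
    rw [h4 a (ha (le_max_left _ _) hK), h2 a (ha (le_max_right _ _) hK)]

/-- the set of invariant homomorphisms (with open kernel) at level `n0` -/
def Hs {F G : Type} [Group F] [TopologicalSpace F] [Group G] (π : F →* G) (H : Subgroup G) :
    Set (F → ZMod 2) :=
  {T | (∀ a, π a ∉ H → T a = 0) ∧ (∀ a b, π a ∈ H → π b ∈ H → T (a * b) = T a + T b) ∧
    ∃ O : Set F, IsOpen O ∧ (1 : F) ∈ O ∧ ∀ a ∈ O, T a = 0}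

theorem Hs_finite {F G : Type} [Group F] [TopologicalSpace F] [IsTopologicalGroup F]
    [Group G] (π : F →* G) (H : Subgroup G) (hH : IsOpen ((H.comap π : Subgroup F) : Set F))
    (hi : H.index ≠ 0)
    {E : Type} [Group E] [Group.FG E] (ι : E →* F) (hι : DenseRange ι) : (Hs π H).Finite := by
  classical
  set L := H.comap (π.comp ι) with hL
  have hLi : L.FiniteIndex := by
    have h1 : H.FiniteIndex := ⟨hi⟩
    have h2 : (H.subgroupOf (π.comp ι).range).FiniteIndex := inferInstance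
    refine ⟨?_⟩
    rw [hL, Subgroup.index_comap]
    exact h2.index_ne_zero
  have hfg : L.FG := (Group.fg_iff_subgroup_fg L).mp (Subgroup.fg_of_index_ne_zero L)
  obtain ⟨s, hs⟩ := hfg
  let Ψ : (F → ZMod 2) → (s → ZMod 2) := fun T e => T (ι e)
  refine Set.Finite.of_finite_image (f := Ψ) (Set.toFinite _) ?_
  rintro T ⟨h1, h2, O, hO, hO1, hO0⟩ T' ⟨h1', h2', O', hO', hO1', hO0'⟩ hΨ
  have one : ∀ (T : F → ZMod 2), (∀ a b, π a ∈ H → π b ∈ H → T (a * b) = T a + T b) →
      T 1 = 0 := by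
    intro T h2
    have h := h2 1 1 (by rw [map_one]; exact H.one_mem) (by rw [map_one]; exact H.one_mem)
    rw [mul_one] at h
    have h3 : T 1 + 0 = T 1 + T 1 := by rw [add_zero]; exact h
    exact (add_left_cancel h3).symm
  have inv : ∀ (T : F → ZMod 2), (∀ a b, π a ∈ H → π b ∈ H → T (a * b) = T a + T b) →
      ∀ a, π a ∈ H → T a⁻¹ = T a := by
    intro T h2 a ha
    have h := h2 a a⁻¹ ha (by rw [map_inv]; exact H.inv_mem ha)
    rw [mul_inv_cancel, one T h2] at h
    have h3 : T a + T a⁻¹ = T a + T a := by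
      rw [← h]; exact (CharTwo.add_self_eq_zero _).symm
    exact add_left_cancel h3
  have hL' : ∀ e ∈ L, T (ι e) = T' (ι e) := by
    intro e he
    have he0 := he
    rw [← hs] at he
    have key : ∀ e ∈ Subgroup.closure (s : Set E), e ∈ L ∧ T (ι e) = T' (ι e) := by
      intro e he
      induction he using Subgroup.closure_induction with
      | mem x hx =>
        exact ⟨by rw [← hs]; exact Subgroup.subset_closure hx, congrFun hΨ ⟨x, hx⟩⟩
      | one => exact ⟨L.one_mem, by rw [map_one, one T h2, one T' h2']⟩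
      | mul x y _ _ ihx ihy =>
        refine ⟨L.mul_mem ihx.1 ihy.1, ?_⟩
        rw [map_mul, h2 _ _ ihx.1 ihy.1, h2' _ _ ihx.1 ihy.1, ihx.2, ihy.2]
      | inv x _ ihx =>
        refine ⟨L.inv_mem ihx.1, ?_⟩
        rw [map_inv, inv T h2 _ ihx.1, inv T' h2' _ ihx.1, ihx.2]
    exact (key e he).2
  funext x
  by_cases hx : π x ∈ H
  · -- approximate `x`
    set W : Set F := (fun y => x⁻¹ * y) ⁻¹' (O ∩ O' ∩ ((H.comap π : Subgroup F) : Set F)) with hW
    have hWo : IsOpen W := ((hO.inter hO').inter hH).preimage (continuous_const_mul x⁻¹)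
    have hxW : x ∈ W := by
      change x⁻¹ * x ∈ O ∩ O' ∩ ((H.comap π : Subgroup F) : Set F)
      rw [inv_mul_cancel]
      exact ⟨⟨hO1, hO1'⟩, (H.comap π).one_mem⟩
    obtain ⟨e, he⟩ := hι.exists_mem_open hWo ⟨x, hxW⟩
    obtain ⟨⟨he1, he2⟩, he3⟩ := he
    have he3' : π (x⁻¹ * ι e) ∈ H := he3
    have heL : e ∈ L := by
      show π (ι e) ∈ H
      have : π (ι e) = π x * π (x⁻¹ * ι e) := by rw [← map_mul, mul_inv_cancel_left]
      rw [this]
      exact H.mul_mem hx he3'
    have e1 : T (ι e) = T x := by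
      have h := h2 x (x⁻¹ * ι e) hx he3'
      rw [mul_inv_cancel_left, hO0 _ he1, add_zero] at h
      exact h
    have e2 : T' (ι e) = T' x := by
      have h := h2' x (x⁻¹ * ι e) hx he3'
      rw [mul_inv_cancel_left, hO0' _ he2, add_zero] at h
      exact h
    rw [← e1, ← e2, hL' e heL]
  · rw [h1 x hx, h1' x hx]

theorem fp_core {F G : Type} [Group F] [TopologicalSpace F] [IsTopologicalGroup F] [Group G]
    [TopologicalSpace G] (hF : IsPro2 F) (hG : IsPro2 G) {E : Type} [Group E] [Group.FG E] (ι : E →* F)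
    (hι : DenseRange ι) (π : F →* G) (hπ : Continuous π) (hs : Function.Surjective π)
    (Fil : ℕ → Subgroup G) (ho : ∀ n, IsOpen (Fil n : Set G)) (ha : Antitone Fil)
    (hb : ∀ U : Set G, IsOpen U → (1 : G) ∈ U → ∃ n, (Fil n : Set G) ⊆ U) (n0 : ℕ)
    (step : ∀ N, n0 ≤ N → ∀ T : F → ZMod 2, InvAt π (Fil (N + 1)) T →
      ∃ T' : F → ZMod 2, InvAt π (Fil N) T' ∧ ∀ a, π a ∈ Fil (N + 3) → T' a = T a) :
    ∃ S : Finset F, (∀ s ∈ S, π s = 1) ∧
      ∀ x, π x = 1 → x ∈ (Subgroup.normalClosure (S : Set F)).topologicalClosure := by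
  classical
  have := hF.comp
  have := hF.t2
  have := hG.tg
  have := hG.comp
  have := hG.t2
  have hopen : ∀ n, IsOpen (((Fil n).comap π : Subgroup F) : Set F) := fun n =>
    (ho n).preimage hπ
  have hfi : (Fil n0).index ≠ 0 := by
    have h1 : Finite (G ⧸ Fil n0) := Subgroup.quotient_finite_of_isOpen (Fil n0) (ho n0)
    exact Subgroup.index_ne_zero_of_finite
  have hfin := Hs_finite π (Fil n0) (hopen n0) hfi ι hι
  -- the finite set of representatives
  obtain ⟨S, hS1, hS2⟩ : ∃ S : Finset F, (∀ s ∈ S, π s = 1) ∧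
      ∀ x, π x = 1 → ∃ s ∈ S, ∀ T ∈ Hs π (Fil n0), T x = T s := by
    have : Finite (Hs π (Fil n0)) := hfin
    let Ψ : F → (Hs π (Fil n0) → ZMod 2) := fun x T => T.1 x
    have hfi : (Ψ '' (π.ker : Set F)).Finite := Set.toFinite _
    obtain ⟨s', hs', hs''⟩ := Finset.subset_set_image_iff.mp
      (show (hfi.toFinset : Set _) ⊆ Ψ '' (π.ker : Set F) by rw [hfi.coe_toFinset])
    refine ⟨s', fun s hs => hs' hs, fun x hx => ?_⟩
    have hx' : Ψ x ∈ hfi.toFinset := hfi.mem_toFinset.mpr ⟨x, hx, rfl⟩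
    rw [← hs''] at hx'
    obtain ⟨s, hs, he⟩ := Finset.mem_image.mp hx'
    exact ⟨s, hs, fun T hT => (congrFun he ⟨T, hT⟩).symm⟩
  refine ⟨S, hS1, ?_⟩
  set RS := (Subgroup.normalClosure (S : Set F)).topologicalClosure with hRS
  have hRSn : RS.Normal := Subgroup.is_normal_topologicalClosure _
  have hSRS : ∀ s ∈ S, s ∈ RS := fun s hs =>
    Subgroup.le_topologicalClosure _ (Subgroup.subset_normalClosure hs)
  intro r hr
  by_contra hrn
  have hclosed : IsClosed (RS : Set F) := Subgroup.isClosed_topologicalClosure _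
  have hRSR : RS ≤ π.ker := by
    apply Subgroup.topologicalClosure_minimal
    · exact Subgroup.normalClosure_le_normal (fun s hs => hS1 s hs)
    · have e : ((π.ker : Subgroup F) : Set F) = π ⁻¹' {1} := by ext x; rfl
      rw [e]
      exact isClosed_singleton.preimage hπ
  -- the open normal subgroup `V`
  obtain ⟨V, hV, hVo, hVk, hVU⟩ := hF.basis ((fun y => r * y) ⁻¹' (RS : Set F)ᶜ)
    (hclosed.isOpen_compl.preimage (continuous_const_mul r)) (by
      show r * 1 ∈ (RS : Set F)ᶜ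
      rw [mul_one]; exact hrn)
  have hA0n : (RS ⊔ V).Normal := inferInstance
  have hrA0 : r ∉ RS ⊔ V := by
    intro h
    obtain ⟨a, ha, v, hv, e⟩ := Subgroup.mem_sup_of_normal_right.mp h
    have h1 : v⁻¹ ∈ (fun y => r * y) ⁻¹' (RS : Set F)ᶜ := hVU (V.inv_mem hv)
    apply h1
    show r * v⁻¹ ∈ RS
    rw [← e, mul_inv_cancel_right]
    exact ha
  have hBn : (π.ker ⊔ V).Normal := inferInstance
  have hrB : r ∈ π.ker ⊔ V := le_sup_left (a := π.ker) hr
  obtain ⟨A, hA, hA0, hAB, hAne, hAx⟩ := exists_index_two (RS ⊔ V) (π.ker ⊔ V) hA0n hBn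
    (sup_le_sup_right hRSR V) (fun h => hrA0 (h ▸ hrB)) (by
      obtain ⟨k, hk⟩ := hVk
      obtain ⟨c, _, hc⟩ := (Nat.dvd_prime_pow Nat.prime_two).mp
        (hk ▸ Subgroup.index_dvd_of_le (le_sup_right : V ≤ RS ⊔ V) : (RS ⊔ V).index ∣ 2 ^ k)
      exact ⟨c, hc⟩)
  -- the map
  let T : F → ZMod 2 := fun x => if x ∈ A then 0 else 1
  have hT0 : ∀ x, x ∈ A → T x = 0 := fun x hx => if_pos hx
  have hTadd : ∀ a b, a ∈ π.ker ⊔ V → b ∈ π.ker ⊔ V → T (a * b) = T a + T b := by
    intro a b ha hb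
    have h := hAx a ha b hb
    show (if a * b ∈ A then (0 : ZMod 2) else 1) = (if a ∈ A then 0 else 1) + (if b ∈ A then 0 else 1)
    by_cases h1 : a ∈ A <;> by_cases h2 : b ∈ A
    · rw [if_pos h1, if_pos h2, if_pos (h.mpr ⟨fun _ => h2, fun _ => h1⟩)]; rfl
    · rw [if_pos h1, if_neg h2, if_neg (fun h3 => h2 ((h.mp h3).mp h1))]; rfl
    · rw [if_neg h1, if_pos h2, if_neg (fun h3 => h1 ((h.mp h3).mpr h2))]; rfl
    · rw [if_neg h1, if_neg h2, if_pos (h.mpr ⟨fun h3 => absurd h3 h1, fun h3 => absurd h3 h2⟩)]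
      rfl
  have hTinv : ∀ g a, T (g * a * g⁻¹) = T a := by
    intro g a
    have h : g * a * g⁻¹ ∈ A ↔ a ∈ A := ⟨fun h => by
      have := hA.conj_mem _ h g⁻¹
      rwa [show g⁻¹ * (g * a * g⁻¹) * g⁻¹⁻¹ = a by group] at this, fun h => hA.conj_mem _ h g⟩
    show (if g * a * g⁻¹ ∈ A then (0 : ZMod 2) else 1) = (if a ∈ A then 0 else 1)
    simp only [h]
  -- the level
  have hmap : IsOpen (π '' ((π.ker ⊔ V : Subgroup F) : Set F)) := by
    have e : π '' ((π.ker ⊔ V : Subgroup F) : Set F) =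
        (((π.ker ⊔ V).map π : Subgroup G) : Set G) := rfl
    have hBo : IsOpen ((π.ker ⊔ V : Subgroup F) : Set F) :=
      Subgroup.isOpen_mono (le_sup_right : V ≤ π.ker ⊔ V) hVo
    have hBfi : (π.ker ⊔ V).FiniteIndex := by
      have h1 : Finite (F ⧸ (π.ker ⊔ V)) := Subgroup.quotient_finite_of_isOpen _ hBo
      exact ⟨Subgroup.index_ne_zero_of_finite⟩
    have hcl : IsClosed (((π.ker ⊔ V).map π : Subgroup G) : Set G) := by
      rw [← e]
      exact ((Subgroup.isClosed_of_isOpen _ hBo).isCompact.image hπ).isClosed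
    have hfi2 : ((π.ker ⊔ V).map π).FiniteIndex := by
      refine ⟨fun h => ?_⟩
      have h2 := Subgroup.index_map_dvd (π.ker ⊔ V) hs
      rw [h] at h2
      exact hBfi.index_ne_zero (Nat.eq_zero_of_zero_dvd h2)
    rw [e]
    exact Subgroup.isOpen_of_isClosed_of_finiteIndex _ hcl
  obtain ⟨n1, hn1⟩ := hb _ hmap ⟨1, Subgroup.one_mem _, map_one π⟩
  have hlev : ∀ x, π x ∈ Fil (n0 + n1) → x ∈ π.ker ⊔ V := by
    intro x hx
    obtain ⟨y, hy, hyx⟩ := hn1 (ha (by omega : n1 ≤ n0 + n1) hx)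
    have h1 : x * y⁻¹ ∈ π.ker := by
      rw [MonoidHom.mem_ker, map_mul, map_inv, hyx, mul_inv_cancel]
    have : x = (x * y⁻¹) * y := by group
    rw [this]
    exact Subgroup.mul_mem _ (le_sup_left (a := π.ker) h1) hy
  obtain ⟨T1, hT1, K, hK⟩ := down π Fil ha n0 step n1 T
    ⟨fun a b h1 h2 => hTadd a b (hlev a h1) (hlev b h2), fun g a _ => hTinv g a⟩
  -- the restricted map
  let T2 : F → ZMod 2 := fun x => if π x ∈ Fil n0 then T1 x else 0
  have hT2 : ∀ x, π x ∈ Fil n0 → T2 x = T1 x := fun x hx => if_pos hx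
  have hAo : IsOpen (A : Set F) := Subgroup.isOpen_mono (le_trans le_sup_right hA0) hVo
  have hmem : T2 ∈ Hs π (Fil n0) := by
    refine ⟨fun a h => if_neg h, fun a b h1 h2 => ?_, (A : Set F) ∩
      (((Fil K).comap π : Subgroup F) : Set F) ∩ (((Fil n0).comap π : Subgroup F) : Set F),
      (hAo.inter (hopen K)).inter (hopen n0), ⟨⟨A.one_mem, Subgroup.one_mem _⟩,
        Subgroup.one_mem _⟩, ?_⟩
    · rw [hT2 _ h1, hT2 _ h2, hT2 _ (by rw [map_mul]; exact (Fil n0).mul_mem h1 h2)]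
      exact hT1.1 a b h1 h2
    · rintro a ⟨⟨h1, h2⟩, h3⟩
      rw [hT2 a h3, hK a h2, hT0 a h1]
  have hker : ∀ x, π x = 1 → T2 x = T x := by
    intro x hx
    rw [hT2 x (by rw [hx]; exact (Fil n0).one_mem), hK x (by rw [hx]; exact (Fil K).one_mem)]
  have hall : ∀ x, π x = 1 → T x = 0 := by
    intro x hx
    obtain ⟨s, hs, he⟩ := hS2 x hx
    rw [← hker x hx, he T2 hmem, hker s (hS1 s hs)]
    exact hT0 s (hA0 (le_sup_left (a := RS) (hSRS s hs)))
  -- contradiction
  apply hAne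
  refine le_antisymm hAB ?_
  rw [sup_le_iff]
  refine ⟨fun x hx => ?_, le_trans le_sup_right hA0⟩
  have h := hall x hx
  by_contra hxA
  have h2 : T x = 1 := if_neg hxA
  rw [h2] at h
  exact one_ne_zero h

/-- **Reduction**: finite presentability from an extension step -/
theorem fp_of_step {G : Type} [Group G] [TopologicalSpace G] (hG : IsPro2 G)
    (Fil : ℕ → Subgroup G) (ho : ∀ n, IsOpen (Fil n : Set G)) (ha : Antitone Fil)
    (hb : ∀ U : Set G, IsOpen U → (1 : G) ∈ U → ∃ n, (Fil n : Set G) ⊆ U)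
    (d : ℕ) (x : Fin d → G) (hx : Dense ((Subgroup.closure (Set.range x) : Subgroup G) : Set G))
    (n0 : ℕ)
    (step : ∀ (Γ : Type) [Group Γ] (π : Γ →* G), Function.Surjective π → ∀ N, n0 ≤ N →
      ∀ T : Γ → ZMod 2, InvAt π (Fil (N + 1)) T →
      ∃ T' : Γ → ZMod 2, InvAt π (Fil N) T' ∧ ∀ a, π a ∈ Fil (N + 3) → T' a = T a) :
    IsFPPro2 G := by
  have := hG.tg
  have := hG.comp
  have := hG.t2
  obtain ⟨π, ⟨hπ, hi⟩, _⟩ := FreePro2.universal x hG
  have hsurj : Function.Surjective π := by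
    have h1 : IsClosed (Set.range π) := (isCompact_range hπ).isClosed
    have h2 : ((Subgroup.closure (Set.range x) : Subgroup G) : Set G) ⊆ Set.range π := by
      have : Subgroup.closure (Set.range x) ≤ π.range := by
        rw [Subgroup.closure_le]
        rintro _ ⟨i, rfl⟩
        exact ⟨FreePro2.of i, hi i⟩
      exact this
    have h3 := closure_minimal h2 h1
    rw [hx.closure_eq] at h3
    exact fun y => h3 (Set.mem_univ y)
  obtain ⟨S, hS1, hS2⟩ := fp_core (FreePro2.isPro2 d) hG (FreePro2.ι (d := d)) FreePro2.dense π hπ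
    hsurj Fil ho ha hb n0 (step _ π hsurj)
  have hker : closedNormal (S : Set (FreePro2 d)) = π.ker := by
    apply le_antisymm
    · apply Subgroup.topologicalClosure_minimal
      · exact Subgroup.normalClosure_le_normal (fun s hs => hS1 s hs)
      · have e : ((π.ker : Subgroup (FreePro2 d)) : Set (FreePro2 d)) = π ⁻¹' {1} := by ext x; rfl
        rw [e]
        exact isClosed_singleton.preimage hπ
    · exact fun x hx => hS2 x hx
  refine ⟨hG, d, S, ⟨?_⟩⟩
  let e1 : (FreePro2 d ⧸ closedNormal (S : Set (FreePro2 d))) ≃* G :=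
    (QuotientGroup.quotientMulEquivOfEq hker).trans
      (QuotientGroup.quotientKerEquivOfSurjective π hsurj)
  have hc : Continuous e1 := by
    rw [(QuotientGroup.isQuotientMap_mk _).continuous_iff]
    exact hπ
  have e2 : Continuous e1.symm :=
    (Continuous.homeoOfEquivCompactToT2 (f := e1.toEquiv) hc).symm.continuous
  exact { e1 with
    continuous_toFun := hc
    continuous_invFun := e2 }

end Pool.Agent.Nott
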