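import Mathlib

/-! # Pro-2 groups and the free pro-2 group of rank `d` -/

namespace Pool.Agent.Nott

/-- `G` is a pro-2 group: a compact Hausdorff topological group in which the open normal subgroups
of 2-power index form a base of neighbourhoods of the identity. -/
structure IsPro2 (G : Type) [Group G] [TopologicalSpace G] : Prop where
  tg : IsTopologicalGroup G
  comp : CompactSpace G
  t2 : T2Space G
  basis : ∀ U : Set G, IsOpen U → (1 : G) ∈ U →
    ∃ V : Subgroup G, V.Normal ∧ IsOpen (V : Set G) ∧ (∃ k : ℕ, V.index = 2 ^ k) ∧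
      (V : Set G) ⊆ U

/-- the normal subgroups of 2-power index of the free group of rank `d` -/
abbrev Idx (d : ℕ) := {N : Subgroup (FreeGroup (Fin d)) // N.Normal ∧ ∃ k : ℕ, N.index = 2 ^ k}

/-- the finite quotient 2-group `FreeGroup (Fin d) ⧸ N` (with the discrete topology) -/
def Quo {d : ℕ} (N : Idx d) : Type := FreeGroup (Fin d) ⧸ N.1

section
variable {d : ℕ}

instance (N : Idx d) : Group (Quo N) :=
  haveI := N.2.1
  inferInstanceAs (Group (FreeGroup (Fin d) ⧸ N.1))

instance (N : Idx d) : TopologicalSpace (Quo N) := ⊥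

instance (N : Idx d) : DiscreteTopology (Quo N) := ⟨rfl⟩

instance (N : Idx d) : Finite (Quo N) := by
  obtain ⟨k, hk⟩ := N.2.2
  have : N.1.FiniteIndex := ⟨by rw [hk]; positivity⟩
  exact inferInstanceAs (Finite (FreeGroup (Fin d) ⧸ N.1))

/-- the projection to the quotient -/
def Quo.mk (N : Idx d) : FreeGroup (Fin d) →* Quo N :=
  haveI := N.2.1
  QuotientGroup.mk' N.1

theorem Quo.mk_surj (N : Idx d) : Function.Surjective (Quo.mk N) :=
  haveI := N.2.1
  QuotientGroup.mk'_surjective N.1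

theorem Quo.mk_eq (N : Idx d) (a b : FreeGroup (Fin d)) :
    Quo.mk N a = Quo.mk N b ↔ a⁻¹ * b ∈ N.1 := QuotientGroup.eq

/-- the transition maps -/
def Quo.map {N M : Idx d} (h : N.1 ≤ M.1) : Quo N →* Quo M :=
  haveI := N.2.1
  haveI := M.2.1
  QuotientGroup.map N.1 M.1 (MonoidHom.id _) h

theorem Quo.map_mk {N M : Idx d} (h : N.1 ≤ M.1) (a : FreeGroup (Fin d)) :
    Quo.map h (Quo.mk N a) = Quo.mk M a := rfl

end

/-- the inverse limit of the finite 2-group quotients of the free group of rank `d`,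
as a subgroup of their product -/
def freePro2 (d : ℕ) : Subgroup (∀ N : Idx d, Quo N) where
  carrier := {x | ∀ (N M : Idx d) (h : N.1 ≤ M.1), Quo.map h (x N) = x M}
  one_mem' := fun _ _ _ => map_one _
  mul_mem' := fun {a b} ha hb N M h => by
    rw [Pi.mul_apply, Pi.mul_apply, map_mul, ha N M h, hb N M h]
  inv_mem' := fun {a} ha N M h => by
    rw [Pi.inv_apply, Pi.inv_apply, map_inv, ha N M h]

/-- **The free pro-2 group of rank `d`**: the inverse limit of the finite 2-group quotients of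
the free group of rank `d`, with the inverse limit topology. -/
abbrev FreePro2 (d : ℕ) : Type := freePro2 d

section basics
variable {d : ℕ}

theorem isClosed_freePro2 : IsClosed ((freePro2 d : Subgroup (∀ N : Idx d, Quo N)) :
    Set (∀ N : Idx d, Quo N)) := by
  have : ((freePro2 d : Subgroup (∀ N : Idx d, Quo N)) : Set (∀ N : Idx d, Quo N)) =
      ⋂ (N : Idx d), ⋂ (M : Idx d), ⋂ (h : N.1 ≤ M.1),
        {x : ∀ N : Idx d, Quo N | Quo.map h (x N) = x M} := by
    ext x
    simp only [Set.mem_iInter]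
    rfl
  rw [this]
  refine isClosed_iInter fun N => isClosed_iInter fun M => isClosed_iInter fun h => ?_
  exact isClosed_eq ((continuous_of_discreteTopology (f := Quo.map h)).comp (continuous_apply N))
    (continuous_apply M)

instance : CompactSpace (FreePro2 d) :=
  isCompact_iff_compactSpace.mp isClosed_freePro2.isCompact

/-- the canonical map from the free group -/
def FreePro2.ι : FreeGroup (Fin d) →* FreePro2 d where
  toFun w := ⟨fun N => Quo.mk N w, fun _ _ _ => rfl⟩
  map_one' := by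
    apply Subtype.ext
    funext N
    exact map_one _
  map_mul' a b := by
    apply Subtype.ext
    funext N
    exact map_mul _ _ _

/-- the free generators -/
def FreePro2.of (i : Fin d) : FreePro2 d := FreePro2.ι (FreeGroup.of i)

theorem two_pow_inf {G : Type} [Group G] (H K : Subgroup G) (_ : H.Normal) (_ : K.Normal)
    (h1 : ∃ k : ℕ, H.index = 2 ^ k) (h2 : ∃ k : ℕ, K.index = 2 ^ k) :
    ∃ k : ℕ, (H ⊓ K).index = 2 ^ k := by
  obtain ⟨a, ha⟩ := h1
  obtain ⟨b, hb⟩ := h2
  have e := Subgroup.relIndex_mul_index (inf_le_left : H ⊓ K ≤ H)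
  have e2 : (H ⊓ K).relIndex H = K.relIndex H := by
    rw [inf_comm]; exact Subgroup.inf_relIndex_right K H
  have e3 : K.relIndex H ∣ 2 ^ b := by
    rw [← hb]; exact Subgroup.relIndex_dvd_index_of_normal K H
  obtain ⟨c, _, hc⟩ := (Nat.dvd_prime_pow Nat.prime_two).mp e3
  exact ⟨c + a, by rw [← e, e2, hc, ha, pow_add]⟩

theorem exists_le (s : Finset (Idx d)) : ∃ K : Idx d, ∀ N ∈ s, K.1 ≤ N.1 := by
  classical
  induction s using Finset.induction_on with
  | empty => exact ⟨⟨⊤, inferInstance, 0, by simp⟩, by simp⟩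
  | insert a s ha ih =>
    obtain ⟨K, hK⟩ := ih
    have := K.2.1
    have := a.2.1
    refine ⟨⟨a.1 ⊓ K.1, inferInstance, two_pow_inf _ _ a.2.1 K.2.1 a.2.2 K.2.2⟩, ?_⟩
    intro N hN
    rcases Finset.mem_insert.mp hN with rfl | h
    · exact inf_le_left
    · exact le_trans inf_le_right (hK N h)

/-- the projection to a finite quotient -/
def FreePro2.pr (N : Idx d) : FreePro2 d →* Quo N :=
  (Pi.evalMonoidHom (fun N : Idx d => Quo N) N).comp (freePro2 d).subtype

theorem FreePro2.pr_ι (N : Idx d) (w : FreeGroup (Fin d)) :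
    FreePro2.pr N (FreePro2.ι w) = Quo.mk N w := rfl

theorem FreePro2.pr_surj (N : Idx d) : Function.Surjective (FreePro2.pr N) := by
  intro y
  obtain ⟨w, hw⟩ := Quo.mk_surj N y
  exact ⟨FreePro2.ι w, hw⟩

theorem FreePro2.pr_cont (N : Idx d) : Continuous (FreePro2.pr N) :=
  (continuous_apply N).comp continuous_subtype_val

theorem FreePro2.ext' {x y : FreePro2 d} (h : ∀ N, FreePro2.pr N x = FreePro2.pr N y) : x = y :=
  Subtype.ext (funext h)

theorem FreePro2.ker_open (N : Idx d) : IsOpen ((FreePro2.pr N).ker : Set (FreePro2 d)) := by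
  have : ((FreePro2.pr N).ker : Set (FreePro2 d)) = FreePro2.pr N ⁻¹' {1} := by
    ext x; rfl
  rw [this]
  exact (isOpen_discrete _).preimage (FreePro2.pr_cont N)

theorem FreePro2.ker_index (N : Idx d) : ∃ k : ℕ, (FreePro2.pr N).ker.index = 2 ^ k := by
  obtain ⟨k, hk⟩ := N.2.2
  refine ⟨k, ?_⟩
  rw [Subgroup.index_ker, ← hk, MonoidHom.range_eq_top.mpr (FreePro2.pr_surj N), Nat.card_congr
    (Subgroup.topEquiv (G := Quo N)).toEquiv]
  rfl

theorem FreePro2.ker_basis (U : Set (FreePro2 d)) (hU : IsOpen U) (h1 : (1 : FreePro2 d) ∈ U) :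
    ∃ N : Idx d, ((FreePro2.pr N).ker : Set (FreePro2 d)) ⊆ U := by
  obtain ⟨U', hU', rfl⟩ := isOpen_induced_iff.mp hU
  obtain ⟨I, u, hu, hs⟩ := isOpen_pi_iff.mp hU' _ h1
  obtain ⟨K, hK⟩ := exists_le I
  refine ⟨K, ?_⟩
  intro x hx
  apply hs
  intro N hN
  have h2 : FreePro2.pr K x = 1 := hx
  have h3 : x.1 N = 1 := by
    have := x.2 K N (hK N hN)
    rw [← this]
    show Quo.map _ (FreePro2.pr K x) = 1
    rw [h2, map_one]
  rw [h3]
  exact (hu N hN).2

/-- the free pro-2 group is a pro-2 group -/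
theorem FreePro2.isPro2 (d : ℕ) : IsPro2 (FreePro2 d) where
  tg := inferInstance
  comp := inferInstance
  t2 := inferInstance
  basis := by
    intro U hU h1
    obtain ⟨N, hN⟩ := FreePro2.ker_basis U hU h1
    exact ⟨(FreePro2.pr N).ker, inferInstance, FreePro2.ker_open N, FreePro2.ker_index N, hN⟩

theorem FreePro2.dense : DenseRange (FreePro2.ι (d := d)) := by
  intro x
  rw [mem_closure_iff]
  intro U hU hx
  have h1 : IsOpen ((fun y => x * y) ⁻¹' U) := hU.preimage (continuous_const_mul x)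
  obtain ⟨N, hN⟩ := FreePro2.ker_basis _ h1 (by show x * 1 ∈ U; rwa [mul_one])
  obtain ⟨w, hw⟩ := Quo.mk_surj N (FreePro2.pr N x)
  refine ⟨FreePro2.ι w, ?_, ⟨w, rfl⟩⟩
  have h2 : x⁻¹ * FreePro2.ι w ∈ ((FreePro2.pr N).ker : Set (FreePro2 d)) := by
    show FreePro2.pr N (x⁻¹ * FreePro2.ι w) = 1
    rw [map_mul, map_inv, FreePro2.pr_ι, hw, inv_mul_cancel]
  have h3 := hN h2
  show FreePro2.ι w ∈ U
  have h4 : x * (x⁻¹ * FreePro2.ι w) ∈ U := h3
  rwa [mul_inv_cancel_left] at h4

end basics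

section universal
variable {G : Type} [Group G] [TopologicalSpace G]

/-- the open normal subgroups of 2-power index -/
abbrev Ops (G : Type) [Group G] [TopologicalSpace G] :=
  {V : Subgroup G // V.Normal ∧ IsOpen (V : Set G) ∧ ∃ k : ℕ, V.index = 2 ^ k}

variable {d : ℕ} (x : Fin d → G)

/-- preimage in the free group -/
def pre (V : Ops G) : Idx d :=
  ⟨V.1.comap (FreeGroup.lift x), haveI := V.2.1; inferInstance, by
    obtain ⟨k, hk⟩ := V.2.2.2
    have hn := V.2.1
    have h : (V.1.comap (FreeGroup.lift x)).index ∣ 2 ^ k := by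
      rw [Subgroup.index_comap, ← hk]
      exact Subgroup.relIndex_dvd_index_of_normal V.1 _
    obtain ⟨c, _, hc⟩ := (Nat.dvd_prime_pow Nat.prime_two).mp h
    exact ⟨c, hc⟩⟩

theorem mem_pre (V : Ops G) (w : FreeGroup (Fin d)) :
    w ∈ (pre x V).1 ↔ FreeGroup.lift x w ∈ V.1 := Iff.rfl

/-- candidates for the image -/
def Cand (z : FreePro2 d) (V : Ops G) : Set G :=
  {g | ∀ w, Quo.mk (pre x V) w = FreePro2.pr (pre x V) z → (FreeGroup.lift x w)⁻¹ * g ∈ V.1}

theorem mem_cand (z : FreePro2 d) (V : Ops G) (g : G) (w : FreeGroup (Fin d))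
    (hw : Quo.mk (pre x V) w = FreePro2.pr (pre x V) z) :
    g ∈ Cand x z V ↔ (FreeGroup.lift x w)⁻¹ * g ∈ V.1 := by
  constructor
  · intro h
    exact h w hw
  · intro h w' hw'
    have h1 : w'⁻¹ * w ∈ (pre x V).1 := (Quo.mk_eq _ _ _).mp (hw'.trans hw.symm)
    rw [mem_pre, map_mul, map_inv] at h1
    have : (FreeGroup.lift x w')⁻¹ * g =
      ((FreeGroup.lift x w')⁻¹ * FreeGroup.lift x w) * ((FreeGroup.lift x w)⁻¹ * g) := by group
    rw [this]
    exact V.1.mul_mem h1 h

theorem cand_inter (hG : IsPro2 G) (z : FreePro2 d) : ∃ g : G, ∀ V : Ops G, g ∈ Cand x z V := by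
  have := hG.tg
  have := hG.comp
  have := hG.t2
  have hne : Nonempty (Ops G) := ⟨⟨⊤, inferInstance, isOpen_univ, 0, by simp⟩⟩
  have key : (⋂ V : Ops G, Cand x z V).Nonempty := by
    have hclosed : ∀ V : Ops G, IsClosed (Cand x z V) := by
      intro V
      obtain ⟨w, hw⟩ := Quo.mk_surj (pre x V) (FreePro2.pr (pre x V) z)
      have e : Cand x z V = (fun g => (FreeGroup.lift x w)⁻¹ * g) ⁻¹' (V.1 : Set G) := by
        ext g
        exact mem_cand x z V g w hw
      rw [e]
      exact (Subgroup.isClosed_of_isOpen V.1 V.2.2.1).preimage (continuous_const_mul _)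
    refine IsCompact.nonempty_iInter_of_directed_nonempty_isCompact_isClosed _ ?_ ?_
      (fun V => (hclosed V).isCompact) hclosed
    · intro V W
      have hV := V.2.1
      have hW := W.2.1
      refine ⟨⟨V.1 ⊓ W.1, inferInstance, V.2.2.1.inter W.2.2.1,
        two_pow_inf _ _ V.2.1 W.2.1 V.2.2.2 W.2.2.2⟩, ?_, ?_⟩
      · intro g hg
        set K : Ops G := ⟨V.1 ⊓ W.1, inferInstance, V.2.2.1.inter W.2.2.1,
          two_pow_inf _ _ V.2.1 W.2.1 V.2.2.2 W.2.2.2⟩ with hK
        obtain ⟨w, hw⟩ := Quo.mk_surj (pre x K) (FreePro2.pr (pre x K) z)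
        have h1 : (pre x K).1 ≤ (pre x V).1 := fun t ht => by
          rw [mem_pre] at ht ⊢; exact ht.1
        have h2 : Quo.mk (pre x V) w = FreePro2.pr (pre x V) z := by
          have := z.2 (pre x K) (pre x V) h1
          show _ = z.1 (pre x V)
          rw [← this]
          show _ = Quo.map h1 (FreePro2.pr (pre x K) z)
          rw [← hw, Quo.map_mk]
        rw [mem_cand x z V g w h2]
        exact ((mem_cand x z K g w hw).mp hg).1
      · intro g hg
        set K : Ops G := ⟨V.1 ⊓ W.1, inferInstance, V.2.2.1.inter W.2.2.1,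
          two_pow_inf _ _ V.2.1 W.2.1 V.2.2.2 W.2.2.2⟩ with hK
        obtain ⟨w, hw⟩ := Quo.mk_surj (pre x K) (FreePro2.pr (pre x K) z)
        have h1 : (pre x K).1 ≤ (pre x W).1 := fun t ht => by
          rw [mem_pre] at ht ⊢; exact ht.2
        have h2 : Quo.mk (pre x W) w = FreePro2.pr (pre x W) z := by
          have := z.2 (pre x K) (pre x W) h1
          show _ = z.1 (pre x W)
          rw [← this]
          show _ = Quo.map h1 (FreePro2.pr (pre x K) z)
          rw [← hw, Quo.map_mk]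
        rw [mem_cand x z W g w h2]
        exact ((mem_cand x z K g w hw).mp hg).2
    · intro V
      obtain ⟨w, hw⟩ := Quo.mk_surj (pre x V) (FreePro2.pr (pre x V) z)
      refine ⟨FreeGroup.lift x w, ?_⟩
      rw [mem_cand x z V _ w hw, inv_mul_cancel]
      exact V.1.one_mem
  obtain ⟨g, hg⟩ := key
  exact ⟨g, fun V => Set.mem_iInter.mp hg V⟩

theorem eq_of_ops (hG : IsPro2 G) {g g' : G} (h : ∀ V : Ops G, g⁻¹ * g' ∈ V.1) : g = g' := by
  have := hG.tg
  have := hG.t2
  by_contra hne
  have h1 : (1 : G) ∈ ({g⁻¹ * g'}ᶜ : Set G) := by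
    intro h2
    apply hne
    have h3 : (1 : G) = g⁻¹ * g' := h2
    exact inv_mul_eq_one.mp h3.symm
  obtain ⟨V, hV, hVo, hk, hVU⟩ := hG.basis _ isOpen_compl_singleton h1
  exact hVU (h ⟨V, hV, hVo, hk⟩) rfl

/-- the universal map -/
noncomputable def univMap (hG : IsPro2 G) : FreePro2 d →* G :=
  MonoidHom.mk' (fun z => Classical.choose (cand_inter x hG z)) (by
    intro z z'
    have h1 := Classical.choose_spec (cand_inter x hG z)
    have h2 := Classical.choose_spec (cand_inter x hG z')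
    have h3 := Classical.choose_spec (cand_inter x hG (z * z'))
    set g := Classical.choose (cand_inter x hG z)
    set g' := Classical.choose (cand_inter x hG z')
    set g'' := Classical.choose (cand_inter x hG (z * z'))
    apply eq_of_ops hG
    intro V
    have hn := V.2.1
    obtain ⟨w, hw⟩ := Quo.mk_surj (pre x V) (FreePro2.pr (pre x V) z)
    obtain ⟨w', hw'⟩ := Quo.mk_surj (pre x V) (FreePro2.pr (pre x V) z')
    have a1 := h1 V w hw
    have a2 := h2 V w' hw'
    have a3 := h3 V (w * w') (by rw [map_mul, map_mul, hw, hw'])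
    rw [map_mul] at a3
    have e : g''⁻¹ * (g * g') =
      ((FreeGroup.lift x w * FreeGroup.lift x w')⁻¹ * g'')⁻¹ *
        ((FreeGroup.lift x w')⁻¹ * ((FreeGroup.lift x w)⁻¹ * g) * (FreeGroup.lift x w')⁻¹⁻¹) *
        ((FreeGroup.lift x w')⁻¹ * g') := by group
    rw [e]
    exact V.1.mul_mem (V.1.mul_mem (V.1.inv_mem a3) (hn.conj_mem _ a1 _)) a2)

theorem univMap_spec (hG : IsPro2 G) (z : FreePro2 d) (V : Ops G) : univMap x hG z ∈ Cand x z V :=
  Classical.choose_spec (cand_inter x hG z) V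

theorem univMap_ι (hG : IsPro2 G) (w : FreeGroup (Fin d)) :
    univMap x hG (FreePro2.ι w) = FreeGroup.lift x w := by
  symm
  apply eq_of_ops hG
  intro V
  exact univMap_spec x hG (FreePro2.ι w) V w rfl

theorem univMap_of (hG : IsPro2 G) (i : Fin d) : univMap x hG (FreePro2.of i) = x i := by
  unfold FreePro2.of
  rw [univMap_ι]
  simp

theorem univMap_cont (hG : IsPro2 G) : Continuous (univMap x hG) := by
  have := hG.tg
  refine continuous_of_continuousAt_one _ ?_
  rw [ContinuousAt, map_one, Filter.tendsto_def]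
  intro s hs
  obtain ⟨U, hUs, hU, h1⟩ := mem_nhds_iff.mp hs
  obtain ⟨V, hV, hVo, hk, hVU⟩ := hG.basis U hU h1
  have h2 := (FreePro2.ker_open (pre x ⟨V, hV, hVo, hk⟩)).mem_nhds
    (FreePro2.pr (pre x ⟨V, hV, hVo, hk⟩)).ker.one_mem
  refine Filter.mem_of_superset h2 ?_
  intro z hz
  have h3 : FreePro2.pr (pre x ⟨V, hV, hVo, hk⟩) z = 1 := hz
  have h4 := univMap_spec x hG z ⟨V, hV, hVo, hk⟩ 1 (by rw [h3, map_one])
  rw [map_one, inv_one, one_mul] at h4
  exact hUs (hVU h4)

/-- **Universal property** of the free pro-2 group -/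
theorem FreePro2.universal (hG : IsPro2 G) :
    ∃! π : FreePro2 d →* G, Continuous π ∧ ∀ i, π (FreePro2.of i) = x i := by
  have := hG.t2
  refine ⟨univMap x hG, ⟨univMap_cont x hG, univMap_of x hG⟩, ?_⟩
  rintro π ⟨hc, hi⟩
  have h1 : (π.comp FreePro2.ι) = (univMap x hG).comp FreePro2.ι := by
    apply FreeGroup.ext_hom
    intro i
    show π (FreePro2.of i) = univMap x hG (FreePro2.of i)
    rw [hi, univMap_of]
  have h2 : (π : FreePro2 d → G) = univMap x hG := by
    apply FreePro2.dense.equalizer hc (univMap_cont x hG)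
    funext w
    exact DFunLike.congr_fun h1 w
  exact DFunLike.coe_injective h2

end universal

end Pool.Agent.Nott
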