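import Pool.Agent.Nott.Level

/-! # The key lemma (action of `κ = h 2`) -/

namespace Pool.Agent.Nott

variable {G : Type} [Group G]

/-- context for the key lemma: `M ≡ 2 mod 4`, `N ∈ {M, M+1}`, vanishing from level `M+5` on -/
structure KCtx (G : Type) [Group G] extends Ctx G where
  /-- the parameter -/
  M : ℕ
  hM : M % 4 = 2
  hNM : N = M ∨ N = M + 1
  hZ : toCtx.Z (M + 5)

theorem alg3 : ∀ d a b g : ZMod 2, d = a + 0 + (b + g) + 0 → b + a = g + d := by decide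
theorem alg4 : ∀ g d a b c e : ZMod 2, g = a + 0 + (b + g) + 0 → b + c = g + d → c + e = g + d →
    e + a = g + d → g = d := by decide

namespace KCtx
variable (K : KCtx G)

theorem sN : K.N ≤ K.M + 1 := by have := K.hNM; omega
theorem sM : K.M ≤ K.N := by have := K.hNM; omega
theorem M40 : 39 ≤ K.M := by have := K.hNM; have := K.hN; omega

theorem hh_D (a b : ℕ) (h : K.N + 1 ≤ a + b + 4 + min a b) : K.S.Dom (K.h a) (K.h b) :=
  K.mem_D (K.hh a b) h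

/-- `g` : common value of `c (h a) (h b)`, `a + b = M` -/
noncomputable def g : ZMod 2 := K.S.c (K.h (K.M - 2)) (K.h 2)

/-- `δ` -/
noncomputable def δ : ZMod 2 := K.S.c (K.h (K.M - 1)) (K.h 0)

theorem H_g (a b : ℕ) (ea : a % 2 = 0) (ha : 2 ≤ a) (eb : b % 2 = 0) (hb : 2 ≤ b)
    (h : a + b = K.M) : K.S.c (K.h a) (K.h b) = K.g := by
  have := K.sN
  have := K.sM
  have := K.toCtx.H_ee (W := K.M + 4) K.hZ (by omega) a b ea ha eb hb (by omega)
  rw [this]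
  unfold g
  congr 2

/-- rho-relation for `h j`, `h k`, `j` even, `k` odd, without level condition -/
theorem K12 (j k : ℕ) (ej : j % 2 = 0) (hj : 2 ≤ j) (ek : k % 2 = 1) (hk : 3 ≤ k)
    (hs : j + k = K.M - 3 ∨ (j + k = K.M - 5 ∧ 4 ≤ j ∧ 5 ≤ k))
    (h1 : K.S.c (K.h (j + 4)) (K.h k) = 0)
    (h2 : K.S.c (K.h j) (comm (K.h k) (K.h 0)) = 0) :
    K.S.c (K.h (j + 2)) (K.h k) = 0 := by
  have s1 := K.sN
  have s2 := K.sM
  have s3 := K.M40
  have hx := K.hF j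
  have hy := K.hF k
  have hu : K.h 0 ∈ K.F 2 := K.hF 0
  have hb := K.toCtx.rh_odd6 k ek hk
  obtain ⟨e, he⟩ := K.rh_even j ej hj
  have ha : comm (K.h j) (K.h 0) ∈ K.F (j + 4) := K.cm (j + 2) 2 _ _ hx hu
  have hp := K.hh j k
  have hpD : comm (K.h j) (K.h k) ∈ K.S.D := K.toCtx.mem_D hp (by omega)
  have d1 : K.S.Dom (K.h (j + 2)) (K.h k) := K.hh_D _ _ (by omega)
  have d2 : K.S.Dom (K.h (j + 4)) (K.h k) := K.hh_D _ _ (by omega)
  have d2' := K.S.dom_pow_left d2 e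
  obtain ⟨d3, h3⟩ := K.toCtx.cgl K.hZ he hy (by omega) (by omega) (K.S.dom_mul_left d1 d2')
  obtain ⟨_, h4⟩ := K.S.INV (x := K.h j) (y := K.h k) (u := K.h 0)
    (K.toCtx.dom_w hx hb (by omega)) (K.toCtx.dom_w ha hb (by omega)) d3
    (K.S.dom_of_mem hpD _)
  rw [K.S.c_mem hpD, K.S.c_mem hpD, h2, K.hZ _ _ _ _ ha hb (by omega), h3,
    K.S.c_mul_left d1 d2', K.S.c_pow_left d2, h1, mul_zero] at h4
  simpa using h4.symm

/-- K1: `H(even ≥ 4, odd ≥ 3) = 0` at level `M + 3` -/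
theorem K1 (a b : ℕ) (ea : a % 2 = 0) (ha : 4 ≤ a) (eb : b % 2 = 1) (hb : 3 ≤ b)
    (h : a + b = K.M - 1) : K.S.c (K.h a) (K.h b) = 0 := by
  have s1 := K.sN
  have s2 := K.sM
  have s3 := K.M40
  have := K.K12 (a - 2) b (by omega) (by omega) eb hb (Or.inl (by omega))
    (K.hZ _ _ _ _ (K.hF _) (K.hF _) (by omega)) ?_
  · rwa [show a - 2 + 2 = a by omega] at this
  · rcases Nat.lt_or_ge b 5 with h5 | h5
    · have : b = 3 := by omega
      subst this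
      exact K.hZ _ _ _ _ (K.hF _) K.rh_3 (by omega)
    · obtain ⟨e, he⟩ := K.rh_odd b eb h5
      have hd : K.S.Dom (K.h (b + 4)) (K.h (a - 2)) := K.toCtx.dom_w (K.hF _) (K.hF _) (by omega)
      obtain ⟨d1, h1⟩ := K.toCtx.cgl K.hZ he (K.hF (a - 2)) (by omega) (by omega)
        (K.S.dom_pow_left hd e)
      rw [K.S.c_symm (K.S.dom_symm d1), h1, K.S.c_pow_left hd,
        K.hZ _ _ _ _ (K.hF _) (K.hF _) (by omega), mul_zero]

/-- K2: `H(even ≥ 6, odd ≥ 5) = 0` at level `M + 1` -/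
theorem K2 (a b : ℕ) (ea : a % 2 = 0) (ha : 6 ≤ a) (eb : b % 2 = 1) (hb : 5 ≤ b)
    (h : a + b = K.M - 3) : K.S.c (K.h a) (K.h b) = 0 := by
  have s1 := K.sN
  have s2 := K.sM
  have s3 := K.M40
  have := K.K12 (a - 2) b (by omega) (by omega) eb (by omega) (Or.inr ⟨by omega, by omega, hb⟩)
    (K.K1 _ _ (by omega) (by omega) eb (by omega) (by omega)) ?_
  · rwa [show a - 2 + 2 = a by omega] at this
  · obtain ⟨e, he⟩ := K.rh_odd b eb hb
    have hd : K.S.Dom (K.h (b + 4)) (K.h (a - 2)) := K.toCtx.dom_w (K.hF _) (K.hF _) (by omega)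
    obtain ⟨d1, h1⟩ := K.toCtx.cgl K.hZ he (K.hF (a - 2)) (by omega) (by omega)
      (K.S.dom_pow_left hd e)
    rw [K.S.c_symm (K.S.dom_symm d1), h1, K.S.c_pow_left hd, K.S.c_symm hd,
      K.K1 _ _ (by omega) (by omega) (by omega) (by omega) (by omega), mul_zero]

/-- K3 -/
theorem K3 (i k : ℕ) (ei : i % 2 = 1) (hi : 3 ≤ i) (ek : k % 2 = 0) (hk : 4 ≤ k)
    (h : i + k = K.M - 1) :
    K.S.c (K.o (i + 2)) (K.h k) + K.S.c (K.o i) (K.h (k + 2)) = K.g + K.δ := by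
  have s1 := K.sN
  have s2 := K.sM
  have s3 := K.M40
  have hx := K.oF i ei
  have hy := K.hF k
  have hu : K.h 0 ∈ K.F 2 := K.hF 0
  obtain ⟨e, he⟩ := K.rh_even k ek (by omega)
  have hb := K.cm _ _ _ _ hy hu
  have ha := K.cm _ _ _ _ hx hu
  have hp := K.cm _ _ _ _ hx hy
  have hab : comm (K.o i) (K.h 0) * comm (K.h k) (K.h 0) ∈ K.F 5 :=
    (K.F 5).mul_mem (K.toCtx.up ha (by omega)) (K.toCtx.up hb (by omega))
  obtain ⟨_, h2⟩ := K.S.INV (x := K.o i) (y := K.h k) (u := K.h 0)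
    (K.toCtx.dom_w hx hb (by omega)) (K.toCtx.dom_w ha hb (by omega))
    (K.toCtx.dom_w ha hy (by omega)) (K.toCtx.dom_w hp hab (by omega))
  -- c x b
  have db1 : K.S.Dom (K.o i) (K.h (k + 2)) := K.toCtx.dom_w hx (K.hF _) (by omega)
  have db2 : K.S.Dom (K.h (k + 4)) (K.o i) := K.toCtx.dom_w (K.hF _) hx (by omega)
  have db2' := K.S.dom_symm (K.S.dom_pow_left db2 e)
  have h3 := (K.toCtx.cgr K.hZ he hx (by omega) (by omega) (K.S.dom_mul_right db1 db2')).2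
  rw [K.S.c_mul_right db1 db2', K.S.c_symm db2', K.S.c_pow_left db2,
    K.hZ _ _ _ _ (K.hF (k + 4)) hx (by omega), mul_zero, add_zero] at h3
  -- c a y
  have hd1 : K.S.Dom (K.o (i + 2)) (K.h k) :=
    K.toCtx.dom_w (K.oF _ (by omega)) hy (by omega)
  have hd2 : K.S.Dom (K.h i) (K.h k) := K.toCtx.dom_w (K.hF i) hy (by omega)
  have hd3 : K.S.Dom (K.h (i + 1)) (K.h k) := K.toCtx.dom_w (K.hF (i + 1)) hy (by omega)
  have h4 := (K.toCtx.cgl K.hZ (K.ro i ei) hy (by omega) (by omega)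
    (K.S.dom_mul_left (K.S.dom_mul_left hd1 hd2) hd3)).2
  rw [K.S.c_mul_left (K.S.dom_mul_left hd1 hd2) hd3, K.S.c_mul_left hd1 hd2,
    K.S.c_symm hd2, K.K1 k i ek hk ei hi (by omega), K.H_g (i + 1) k (by omega) (by omega) ek
    (by omega) (by omega), add_zero] at h4
  -- c p u
  have hpu : K.S.c (comm (K.o i) (K.h k)) (K.h 0) = K.δ := by
    have hd : K.S.Dom (K.h (i + k)) (K.h 0) := K.toCtx.dom_w (K.hF _) hu (by omega)
    rw [(K.toCtx.cgD (K.toCtx.p_oh i k ei ek (by omega)) hd).2]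
    unfold δ
    congr 2
  rw [hpu, h3, h4, K.hZ _ _ _ _ ha hb (by omega), K.hZ _ _ _ _ hp hab (by omega)] at h2
  exact alg3 _ _ _ _ h2

/-- the square of `z = h (M/2 - 3)` -/
theorem K4 : K.S.Dom (K.h (K.M / 2 - 3) * K.h (K.M / 2 - 3)) (K.h 2) ∧
    K.S.c (K.h (K.M / 2 - 3) * K.h (K.M / 2 - 3)) (K.h 2) = K.g := by
  have s1 := K.sN
  have s2 := K.sM
  have s3 := K.M40
  have s4 := K.hM
  set x := K.M / 2 - 3 with hx
  have hk := K.kh_even x (by omega) (by omega)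
  have m1 : K.h (x + 6) ∈ K.F (x + 8) := K.hF _
  have ha : comm (K.h x) (K.h 2) ∈ K.F (x + 8) := hk.mem_of_mem (K.anti _ _ (by omega)) m1
  obtain ⟨d, h1⟩ := K.S.SQ (x := K.h x) (u := K.h 2) (K.toCtx.domq_w ha (by omega))
    (K.toCtx.dom_w ha (K.hF x) (by omega))
  refine ⟨d, ?_⟩
  have h2 := (K.toCtx.cgl K.hZ hk (K.hF x) (by omega) (by omega)
    (K.toCtx.dom_w m1 (K.hF x) (by omega))).2
  rw [h1, K.toCtx.Q _ _ (by omega) ha, zero_add, h2]
  exact K.H_g _ _ (by omega) (by omega) (by omega) (by omega) (by omega)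

/-- `[o i, h k] ≡ z²` for `i + k = M - 5` -/
theorem K5 (i k : ℕ) (ei : i % 2 = 1) (hi : 5 ≤ i) (ek : k % 2 = 0) (hk : 6 ≤ k)
    (h : i + k = K.M - 5) :
    Cg K.S.D (comm (K.o i) (K.h k)) (K.h (K.M / 2 - 3) * K.h (K.M / 2 - 3)) := by
  have s1 := K.sN
  have s2 := K.sM
  have s3 := K.M40
  have s4 := K.hM
  have h1 : Cg K.S.D (comm (K.o i) (K.h k)) (K.h (i + k)) := K.toCtx.p_oh i k ei ek (by omega)
  have h2 : Cg K.S.D (K.h (K.M / 2 - 3) * K.h (K.M / 2 - 3)) (K.h (2 * (K.M / 2 - 3) + 1)) :=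
    K.toCtx.F_le_D (by omega) (K.sqh (K.M / 2 - 3))
  have e : 2 * (K.M / 2 - 3) + 1 = i + k := by omega
  rw [e] at h2
  unfold Cg at *
  have : (K.h (K.M / 2 - 3) * K.h (K.M / 2 - 3))⁻¹ * comm (K.o i) (K.h k) =
    ((K.h (i + k))⁻¹ * (K.h (K.M / 2 - 3) * K.h (K.M / 2 - 3)))⁻¹ *
      ((K.h (i + k))⁻¹ * comm (K.o i) (K.h k)) := by group
  rw [this]
  exact K.S.D.mul_mem (K.S.D.inv_mem h2) h1

/-- **Key lemma** -/
theorem key : K.g = K.δ := by
  have s1 := K.sN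
  have s2 := K.sM
  have s3 := K.M40
  have s4 := K.hM
  set i := K.M / 2 with hi
  set k := K.M / 2 - 5 with hk
  have ei : i % 2 = 1 := by omega
  have ek : k % 2 = 0 := by omega
  have hx := K.oF i ei
  have hy := K.hF k
  have hu : K.h 2 ∈ K.F 4 := K.hF 2
  have hkb := K.kh_even k ek (by omega)
  have hka := K.ko i ei (by omega)
  have hb : comm (K.h k) (K.h 2) ∈ K.F (k + 8) :=
    hkb.mem_of_mem (K.anti _ _ (by omega)) (K.hF (k + 6))
  have ha := K.cm _ _ _ _ hx hu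
  have hp := K.cm _ _ _ _ hx hy
  have hab : comm (K.o i) (K.h 2) * comm (K.h k) (K.h 2) ∈ K.F 8 :=
    (K.F 8).mul_mem (K.toCtx.up ha (by omega)) (K.toCtx.up hb (by omega))
  have hd1 : K.S.Dom (K.h (i + 2)) (K.h k) := K.hh_D _ _ (by omega)
  have hd2 : K.S.Dom (K.o (i + 6)) (K.h k) :=
    K.toCtx.dom_w (K.oF _ (by omega)) hy (by omega)
  have hd3 : K.S.Dom (K.h (i + 5)) (K.h k) := K.toCtx.dom_w (K.hF _) hy (by omega)
  obtain ⟨da, h4⟩ := K.toCtx.cgl K.hZ hka hy (by omega) (by omega)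
    (K.S.dom_mul_left (K.S.dom_mul_left hd1 hd2) hd3)
  rw [K.S.c_mul_left (K.S.dom_mul_left hd1 hd2) hd3, K.S.c_mul_left hd1 hd2,
    K.S.c_symm hd1, K.K2 k (i + 2) ek (by omega) (by omega) (by omega) (by omega),
    K.H_g (i + 5) k (by omega) (by omega) ek (by omega) (by omega), zero_add] at h4
  obtain ⟨_, h2⟩ := K.S.INV (x := K.o i) (y := K.h k) (u := K.h 2)
    (K.toCtx.dom_w hx hb (by omega)) (K.toCtx.dom_w ha hb (by omega)) da
    (K.toCtx.dom_w hp hab (by omega))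
  have h3 := (K.toCtx.cgr K.hZ hkb hx (by omega) (by omega)
    (K.toCtx.dom_w hx (K.hF (k + 6)) (by omega))).2
  have h5 := K.toCtx.cgD (K.K5 i k ei (by omega) ek (by omega) (by omega)) K.K4.1
  rw [h5.2, K.K4.2, h3, h4, K.hZ _ _ _ _ ha hb (by omega), K.hZ _ _ _ _ hp hab (by omega)] at h2
  have e1 := K.K3 (i + 4) k (by omega) (by omega) ek (by omega) (by omega)
  have e2 := K.K3 (i + 2) (k + 2) (by omega) (by omega) (by omega) (by omega) (by omega)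
  have e3 := K.K3 i (k + 4) ei (by omega) (by omega) (by omega) (by omega)
  rw [show i + 4 + 2 = i + 6 by omega] at e1
  rw [show i + 2 + 2 = i + 4 by omega, show k + 2 + 2 = k + 4 by omega] at e2
  rw [show k + 4 + 2 = k + 6 by omega] at e3
  exact alg4 _ _ _ _ _ _ h2 e1 e2 e3

end KCtx

end Pool.Agent.Nott
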