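import Pool.Agent.Nott.Main

/-! # Level lemmas -/

namespace Pool.Agent.Nott

variable {G : Type} [Group G]

namespace Ctx
variable (K : Ctx G)

theorem gen (n : ℕ) (hn : 1 ≤ n) (x : G) (hx : x ∈ K.F n) :
    ∃ a b : ℕ, Cg (K.F (n + 1)) x (K.o n ^ a * K.h (n - 2) ^ b) ∧ (a ≠ 0 → n % 2 = 1) ∧
      (b ≠ 0 → 2 ≤ n) := by
  rcases Nat.lt_or_ge n 2 with h2 | h2
  · have h1 : n = 1 := by omega
    subst h1
    obtain ⟨a, ha⟩ := K.gen_one x
    exact ⟨a, 0, by simpa using ha, fun _ => rfl, fun h => absurd rfl h⟩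
  · rcases Nat.mod_two_eq_zero_or_one n with e | e
    · obtain ⟨b, hb⟩ := K.gen_even n x e h2 hx
      exact ⟨0, b, by simpa using hb, fun h => absurd rfl h, fun _ => h2⟩
    · obtain ⟨a, b, hab⟩ := K.gen_odd n x e (by omega) hx
      exact ⟨a, b, hab, fun _ => e, fun _ => h2⟩

/-- basis decomposition on the left -/
theorem c_gen {W n j : ℕ} (hZ : K.Z (W + 1)) (hW : K.N + 1 ≤ W) (hn : 1 ≤ n) (h : n + j = W)
    {x y : G} (hx : x ∈ K.F n) (hy : y ∈ K.F j)
    (ho : n % 2 = 1 → K.S.c (K.o n) y = 0) (hh : 2 ≤ n → K.S.c (K.h (n - 2)) y = 0) :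
    K.S.c x y = 0 := by
  obtain ⟨a, b, hab, ha, hb⟩ := K.gen n hn x hx
  have key : K.S.Dom (K.o n ^ a) y ∧ K.S.c (K.o n ^ a) y = 0 := by
    by_cases ha0 : a = 0
    · subst ha0
      rw [pow_zero]
      exact ⟨K.S.dom_one_left y, K.S.c_one_left y⟩
    · have hd := K.dom_w (K.oF n (ha ha0)) hy (by omega)
      exact ⟨K.S.dom_pow_left hd a, by rw [K.S.c_pow_left hd, ho (ha ha0), mul_zero]⟩
  have key2 : K.S.Dom (K.h (n - 2) ^ b) y ∧ K.S.c (K.h (n - 2) ^ b) y = 0 := by
    by_cases hb0 : b = 0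
    · subst hb0
      rw [pow_zero]
      exact ⟨K.S.dom_one_left y, K.S.c_one_left y⟩
    · have h2 := hb hb0
      have hd := K.dom_w (K.hF (n - 2)) hy (by omega)
      exact ⟨K.S.dom_pow_left hd b, by rw [K.S.c_pow_left hd, hh h2, mul_zero]⟩
  rw [(K.cgl hZ hab hy (by omega) (by omega) (K.S.dom_mul_left key.1 key2.1)).2,
    K.S.c_mul_left key.1 key2.1, key.2, key2.2, add_zero]

/-- closing a level -/
theorem close {W : ℕ} (hZ : K.Z (W + 1)) (hW : K.N + 1 ≤ W)
    (hA : ∀ i j, i % 2 = 1 → j % 2 = 1 → i + j = W → K.S.c (K.o i) (K.o j) = 0)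
    (hB : ∀ i k, i % 2 = 1 → i + k + 2 = W → K.S.c (K.o i) (K.h k) = 0)
    (hH : ∀ a b, a + b + 4 = W → K.S.c (K.h a) (K.h b) = 0) : K.Z W := by
  intro i j x y hx hy hij
  by_cases hW1 : W + 1 ≤ i + j
  · exact hZ i j x y hx hy hW1
  have hij' : i + j = W := by omega
  rcases Nat.eq_zero_or_pos i with rfl | hi
  · exact K.S.c_mem_right (K.mem_D hy (by omega)) x
  rcases Nat.eq_zero_or_pos j with rfl | hj
  · exact K.S.c_mem (K.mem_D hx (by omega)) y
  have symm : ∀ {u v : G} {m n : ℕ}, u ∈ K.F m → v ∈ K.F n → m + n = W →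
      K.S.c u v = K.S.c v u := fun hu hv h => K.S.c_symm (K.dom_w hu hv (by omega))
  refine K.c_gen hZ hW hi hij' hx hy (fun hi1 => ?_) (fun hi2 => ?_)
  · rw [symm (K.oF i hi1) hy hij']
    refine K.c_gen hZ hW hj (by omega) hy (K.oF i hi1) (fun hj1 => ?_) (fun hj2 => ?_)
    · exact hA j i hj1 hi1 (by omega)
    · have e : j - 2 + 2 = j := by omega
      have hh : K.h (j - 2) ∈ K.F j := by
        have := K.hF (j - 2)
        rwa [e] at this
      rw [symm hh (K.oF i hi1) (by omega)]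
      exact hB i (j - 2) hi1 (by omega)
  · have e : i - 2 + 2 = i := by omega
    have hh : K.h (i - 2) ∈ K.F i := by
      have := K.hF (i - 2)
      rwa [e] at this
    rw [symm hh hy hij']
    refine K.c_gen hZ hW hj (by omega) hy hh (fun hj1 => ?_) (fun hj2 => ?_)
    · exact hB j (i - 2) hj1 (by omega)
    · exact hH (j - 2) (i - 2) (by omega)

theorem c_hD {a : ℕ} (ha : K.N ≤ a + 1) (y : G) : K.S.c (K.h a) y = 0 :=
  K.S.c_mem (K.mem_D (K.hF a) (by omega)) y
theorem c_hD' {a : ℕ} (ha : K.N ≤ a + 1) (y : G) : K.S.c y (K.h a) = 0 :=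
  K.S.c_mem_right (K.mem_D (K.hF a) (by omega)) y
theorem c_oD {i : ℕ} (hi : i % 2 = 1) (h : K.N + 1 ≤ i) (y : G) : K.S.c (K.o i) y = 0 :=
  K.S.c_mem (K.mem_D (K.oF i hi) h) y
theorem c_oD' {i : ℕ} (hi : i % 2 = 1) (h : K.N + 1 ≤ i) (y : G) : K.S.c y (K.o i) = 0 :=
  K.S.c_mem_right (K.mem_D (K.oF i hi) h) y

/-- symmetry for pairs of `h`'s at levels in the domain -/
theorem hsymm {a b : ℕ} (h : K.N + 1 ≤ a + b + 4) : K.S.c (K.h a) (K.h b) = K.S.c (K.h b) (K.h a) :=
  K.S.c_symm (K.dom_w (K.hF a) (K.hF b) (by omega))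

/-- odd-odd pairs vanish -/
theorem H_oo {W : ℕ} (hZ : K.Z (W + 1)) (hW : K.N + 1 ≤ W) (a b : ℕ) (ea : a % 2 = 1)
    (eb : b % 2 = 1) (h : a + b + 4 = W) : K.S.c (K.h a) (K.h b) = 0 := by
  have hN := K.hN
  have key : ∀ a b : ℕ, a % 2 = 1 → b % 2 = 1 → a + b + 4 = W → 3 ≤ a →
      K.S.c (K.h a) (K.h b) = 0 := by
    intro a b ea eb h h3
    have := K.sig_eo (j := a - 1) (k := b) hZ hW (by omega) (by omega) eb (by omega)
    rwa [show a - 1 + 1 = a by omega] at this
  by_cases h3 : 3 ≤ a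
  · exact key a b ea eb h h3
  · rw [K.hsymm (by omega)]
    exact key b a eb ea (by omega) (by omega)

/-- even (`≥ 4`) - odd pairs vanish -/
theorem H_e4o {W : ℕ} (hZ : K.Z (W + 1)) (hW : K.N + 1 ≤ W) (a b : ℕ) (ea : a % 2 = 0)
    (ha : 4 ≤ a) (eb : b % 2 = 1) (h : a + b + 4 = W) : K.S.c (K.h a) (K.h b) = 0 := by
  have := K.rho_eo (j := a - 2) (k := b) hZ hW (by omega) (by omega) eb (by omega)
  rwa [show a - 2 + 2 = a by omega] at this

/-- even (`≥ 2`) - odd pairs vanish -/
theorem H_eo {W : ℕ} (hZ : K.Z (W + 1)) (hW : K.N + 1 ≤ W) (a b : ℕ) (ea : a % 2 = 0)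
    (ha : 2 ≤ a) (eb : b % 2 = 1) (h : a + b + 4 = W) : K.S.c (K.h a) (K.h b) = 0 := by
  have hN := K.hN
  by_cases h4 : 4 ≤ a
  · exact K.H_e4o hZ hW a b ea h4 eb h
  · have ha2 : a = 2 := by omega
    subst ha2
    have h1 := K.sig_ee (j := 2) (k := b - 1) hZ hW (by norm_num) (by omega) rfl (by omega)
      (by omega)
    rw [show b - 1 + 1 = b by omega] at h1
    rw [← h1, K.hsymm (by omega)]
    exact K.H_e4o hZ hW (b - 1) 3 (by omega) (by omega) rfl (by omega)

/-- all even-even pairs (indices `≥ 2`) at a level are equal -/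
theorem H_ee {W : ℕ} (hZ : K.Z (W + 1)) (hW : K.N + 1 ≤ W) (a b : ℕ) (ea : a % 2 = 0)
    (ha : 2 ≤ a) (eb : b % 2 = 0) (hb : 2 ≤ b) (h : a + b + 4 = W) :
    K.S.c (K.h a) (K.h b) = K.S.c (K.h (W - 6)) (K.h 2) := by
  have key : ∀ m a b : ℕ, b = 2 * m + 2 → a % 2 = 0 → 2 ≤ a → a + b + 4 = W →
      K.S.c (K.h a) (K.h b) = K.S.c (K.h (W - 6)) (K.h 2) := by
    intro m
    induction m with
    | zero =>
      intro a b hb ea ha h
      have : a = W - 6 := by omega
      rw [hb, this]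
    | succ m ih =>
      intro a b hb ea ha h
      have h1 := K.rho_ee (j := a) (k := b - 2) hZ hW ha (by omega) ea (by omega) (by omega)
      rw [show b - 2 + 2 = b by omega] at h1
      rw [← h1]
      exact ih (a + 2) (b - 2) (by omega) (by omega) (by omega) (by omega)
  obtain ⟨m, hm⟩ : ∃ m, b = 2 * m + 2 := ⟨(b - 2) / 2, by omega⟩
  exact key m a b hm ea ha h

theorem H_ee4 {W : ℕ} (hZ : K.Z (W + 1)) (hW : K.N + 1 ≤ W) (h4 : W % 4 = 0) (a b : ℕ)
    (ea : a % 2 = 0)
    (ha : 2 ≤ a) (eb : b % 2 = 0) (hb : 2 ≤ b) (h : a + b + 4 = W) :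
    K.S.c (K.h a) (K.h b) = 0 := by
  have hN := K.hN
  rw [K.H_ee hZ hW a b ea ha eb hb h]
  obtain ⟨m, hm⟩ : ∃ m, W = 4 * m := ⟨W / 4, by omega⟩
  have := K.H_ee hZ hW (2 * m - 2) (2 * m - 2) (by omega) (by omega) (by omega) (by omega) (by omega)
  rw [← this]
  exact K.S.c_self _

/-- the standard level step -/
theorem lvl {W : ℕ} (hZ : K.Z (W + 1)) (hW : K.N + 3 ≤ W)
    (hg : ∀ a b, a % 2 = 0 → b % 2 = 0 → 2 ≤ a → 2 ≤ b → a + b + 4 = W →
      K.S.c (K.h a) (K.h b) = 0)
    (hB1 : ∀ i, i % 2 = 1 → i + 3 = W → K.S.c (K.o i) (K.h 1) = 0) : K.Z W := by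
  have hN := K.hN
  have hW1 : K.N + 1 ≤ W := by omega
  have H : ∀ a b, a + b + 4 = W → K.S.c (K.h a) (K.h b) = 0 := by
    intro a b h
    rcases Nat.eq_zero_or_pos a with rfl | ha
    · exact K.c_hD' (by omega) _
    rcases Nat.eq_zero_or_pos b with rfl | hb
    · exact K.c_hD (by omega) _
    rcases Nat.mod_two_eq_zero_or_one a with ea | ea <;>
      rcases Nat.mod_two_eq_zero_or_one b with eb | eb
    · exact hg a b ea eb (by omega) (by omega) h
    · exact K.H_eo hZ hW1 a b ea (by omega) eb h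
    · rw [K.hsymm (by omega)]
      exact K.H_eo hZ hW1 b a eb (by omega) ea (by omega)
    · exact K.H_oo hZ hW1 a b ea eb h
  have B : ∀ i k, i % 2 = 1 → i + k + 2 = W → K.S.c (K.o i) (K.h k) = 0 := by
    have Bodd : ∀ i k, i % 2 = 1 → k % 2 = 1 → i + k + 2 = W → K.S.c (K.o i) (K.h k) = 0 := by
      intro i k ei ek h
      by_cases hk3 : 3 ≤ k
      · have := K.Bsig (i := i) (k := k - 1) hZ hW1 ei (by omega) (by omega) (by omega)
          (by omega)
        rwa [show k - 1 + 1 = k by omega] at this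
      · have : k = 1 := by omega
        subst this
        exact hB1 i ei h
    have Bev : ∀ m i k, i = 2 * m + 1 → k % 2 = 0 → i + k + 2 = W →
        K.S.c (K.o i) (K.h k) = 0 := by
      intro m
      induction m with
      | zero =>
        intro i k hi ek h
        exact K.c_hD' (by omega) _
      | succ m ih =>
        intro i k hi ek h
        rcases Nat.eq_zero_or_pos k with rfl | hk
        · exact K.c_oD (by omega) (by omega) _
        have h1 := K.Brho (i := i - 2) (k := k) hZ (by omega) (by omega) (by omega) ek (by omega)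
          (by omega)
        rw [show i - 2 + 2 = i by omega, ih (i - 2) (k + 2) (by omega) (by omega) (by omega),
          H (i - 2) k (by omega), add_zero] at h1
        exact h1
    intro i k ei h
    rcases Nat.mod_two_eq_zero_or_one k with ek | ek
    · exact Bev (i / 2) i k (by omega) ek h
    · exact Bodd i k ei ek h
  refine K.close hZ hW1 ?_ B H
  have A : ∀ m i j, i = 2 * m + 1 → j % 2 = 1 → i + j = W → K.S.c (K.o i) (K.o j) = 0 := by
    intro m
    induction m with
    | zero =>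
      intro i j hi ej h
      exact K.c_oD' ej (by omega) _
    | succ m ih =>
      intro i j hi ej h
      have hp : K.S.c (comm (K.o (i - 2)) (K.o j)) (K.h 0) = 0 :=
        K.S.c_mem (K.mem_D (K.cm _ _ _ _ (K.oF (i - 2) (by omega)) (K.oF j ej)) (by omega)) _
      have h1 := K.Arho (i := i - 2) (j := j) hZ hW1 (by omega) ej (by omega) hp
      rw [show i - 2 + 2 = i by omega, B j (i - 2) ej (by omega), B (i - 2) j (by omega) (by omega),
        ih (i - 2) (j + 2) (by omega) (by omega) (by omega)] at h1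
      simpa using h1
  intro i j ei ej h
  exact A (i / 2) i j (by omega) ej h

theorem Z5 : K.Z (K.N + 5) := by
  have hN := K.hN
  have key : ∀ m, m ≤ K.N - 3 → K.Z (2 * K.N + 2 - m) := by
    intro m
    induction m with
    | zero => intro _; exact K.Z_top
    | succ m ih =>
      intro hm
      have hZ := ih (by omega)
      set W := 2 * K.N + 2 - (m + 1) with hWdef
      have e : 2 * K.N + 2 - m = W + 1 := by omega
      rw [e] at hZ
      refine K.lvl hZ (by omega) ?_ ?_
      · intro a b ea eb ha hb h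
        rw [K.H_ee hZ (by omega) a b ea ha eb hb h]
        exact K.c_hD (by omega) _
      · intro i ei h
        exact K.c_oD ei (by omega) _
  have := key (K.N - 3) le_rfl
  rwa [show 2 * K.N + 2 - (K.N - 3) = K.N + 5 by omega] at this

/-- vanishing of the square form -/
theorem Q : ∀ m x, K.N + 7 ≤ 2 * m → x ∈ K.F m → K.S.q x = 0 := by
  have hN := K.hN
  have hZ := K.Z5
  have key : ∀ t m x, m + t = K.N + 1 → K.N + 7 ≤ 2 * m → x ∈ K.F m → K.S.q x = 0 := by
    intro t
    induction t with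
    | zero => intro m x h _ hx; exact K.S.q_mem (K.mem_D hx (by omega))
    | succ t ih =>
      intro m x h hm hx
      have ih' : ∀ y ∈ K.F (m + 1), K.S.q y = 0 := fun y hy =>
        ih (m + 1) y (by omega) (by omega) hy
      have dq : ∀ y ∈ K.F m, K.S.DomQ y := fun y hy => K.domq_w hy (by omega)
      have dd : ∀ y ∈ K.F m, ∀ z ∈ K.F m, K.S.Dom y z := fun y hy z hz =>
        K.dom_w hy hz (by omega)
      have cc : ∀ y ∈ K.F m, ∀ z ∈ K.F m, K.S.c y z = 0 := fun y hy z hz =>
        hZ m m y z hy hz (by omega)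
      have qm : ∀ y ∈ K.F m, ∀ z ∈ K.F m, K.S.q (y * z) = K.S.q y + K.S.q z := by
        intro y hy z hz
        rw [K.S.q_mul (dq y hy) (dq z hz) (dd y hy z hz), cc y hy z hz, add_zero]
      have qpow : ∀ y ∈ K.F m, K.S.q y = 0 → ∀ a : ℕ, K.S.q (y ^ a) = 0 := by
        intro y hy h0 a
        induction a with
        | zero => rw [pow_zero]; exact K.S.q_mem K.S.D.one_mem
        | succ a iha =>
          rw [pow_succ, qm _ ((K.F m).pow_mem hy a) _ hy, iha, h0, add_zero]
      have qcg : ∀ y z, Cg (K.F (m + 1)) y z → z ∈ K.F m → K.S.q y = K.S.q z := by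
        intro y z hyz hz
        have e : y = z * (z⁻¹ * y) := by group
        conv_lhs => rw [e]
        rw [qm z hz _ (K.up hyz (by omega)), ih' _ hyz, add_zero]
      have hh : K.S.q (K.h (m - 2)) = 0 := by
        rcases Nat.mod_two_eq_zero_or_one m with em | em
        · have hx0 := K.hF (m - 4)
          have ha := K.rh_even' (m - 4) (by omega) (by omega)
          rw [show m - 4 + 2 = m - 2 by omega] at ha
          have hh0 : K.h (m - 2) ∈ K.F m := K.hW (by omega)
          have ham : comm (K.h (m - 4)) (K.h 0) ∈ K.F m :=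
            Cg.mem_of_mem ha (K.anti _ _ (by omega)) hh0
          obtain ⟨_, h1⟩ := K.S.SQ (x := K.h (m - 4)) (u := K.h 0) (dq _ ham)
            (K.dom_w ham hx0 (by omega))
          rw [K.S.c_mem (K.mem_D (K.sq _ _ hx0) (by omega)), hZ _ _ _ _ ham hx0 (by omega),
            add_zero, qcg _ _ (K.up ha (by omega)) hh0] at h1
          exact h1.symm
        · have hx0 := K.hF (m - 3)
          have ha := K.sh_even (m - 3) (by omega) (by omega)
          rw [show m - 3 + 1 = m - 2 by omega] at ha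
          have hh0 : K.h (m - 2) ∈ K.F m := K.hW (by omega)
          have ham : comm (K.h (m - 3)) (K.o 1) ∈ K.F m :=
            Cg.mem_of_mem ha (K.anti _ _ (by omega)) hh0
          obtain ⟨_, h1⟩ := K.S.SQ (x := K.h (m - 3)) (u := K.o 1) (dq _ ham)
            (K.dom_w ham hx0 (by omega))
          rw [K.S.c_mem (K.mem_D (K.sq _ _ hx0) (by omega)), hZ _ _ _ _ ham hx0 (by omega),
            add_zero, qcg _ _ (K.up ha (by omega)) hh0] at h1
          exact h1.symm
      have hh0 : K.h (m - 2) ∈ K.F m := K.hW (by omega)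
      have ho : m % 2 = 1 → K.S.q (K.o m) = 0 := by
        intro em
        have hx0 := K.oF (m - 2) (by omega)
        have ha := K.ro (m - 2) (by omega)
        rw [show m - 2 + 2 = m by omega, show m - 2 + 1 = m - 1 by omega] at ha
        have hom : K.o m ∈ K.F m := K.oF m em
        have hh1 : K.h (m - 1) ∈ K.F (m + 1) := K.hW (by omega)
        have hh1' : K.h (m - 1) ∈ K.F m := K.hW (by omega)
        have hprod : K.o m * K.h (m - 2) * K.h (m - 1) ∈ K.F m :=
          (K.F m).mul_mem ((K.F m).mul_mem hom hh0) hh1'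
        have ham : comm (K.o (m - 2)) (K.h 0) ∈ K.F m :=
          Cg.mem_of_mem ha (K.anti _ _ (by omega)) hprod
        obtain ⟨_, h1⟩ := K.S.SQ (x := K.o (m - 2)) (u := K.h 0) (dq _ ham)
          (K.dom_w ham hx0 (by omega))
        rw [K.S.c_mem (K.mem_D (K.sqo _ (by omega)) (by omega)), hZ _ _ _ _ ham hx0 (by omega),
          add_zero, qcg _ _ (K.up ha (by omega)) hprod,
          qm _ ((K.F m).mul_mem hom hh0) _ hh1', qm _ hom _ hh0, ih' _ hh1, hh, add_zero,
          add_zero] at h1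
        exact h1.symm
      obtain ⟨a, b, hab, ha, hb⟩ := K.gen m (by omega) x hx
      have m1 : K.h (m - 2) ^ b ∈ K.F m := (K.F m).pow_mem hh0 b
      by_cases ha0 : a = 0
      · subst ha0
        rw [pow_zero, one_mul] at hab
        rw [qcg _ _ hab m1]
        exact qpow _ hh0 hh b
      · have hom : K.o m ∈ K.F m := K.oF m (ha ha0)
        have m2 : K.o m ^ a ∈ K.F m := (K.F m).pow_mem hom a
        rw [qcg _ _ hab ((K.F m).mul_mem m2 m1), qm _ m2 _ m1,
          qpow _ hom (ho (ha ha0)) a, qpow _ hh0 hh b, add_zero]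
  intro m x hm hx
  by_cases h : m ≤ K.N + 1
  · exact key (K.N + 1 - m) m x (by omega) hm hx
  · exact K.S.q_mem (K.mem_D hx (by omega))

end Ctx

end Pool.Agent.Nott
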