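import Pool.Agent.Nott.Facts

/-! # Extension of invariant homomorphisms: the level arguments -/

namespace Pool.Agent.Nott

variable {G : Type} [Group G]

theorem Cg.mem_of_mem {D E : Subgroup G} {x y : G} (h : Cg D x y) (hDE : D ≤ E) (hy : y ∈ E) :
    x ∈ E := by
  have : x = y * (y⁻¹ * x) := by group
  rw [this]
  exact E.mul_mem hy (hDE h)

theorem Cg.mono {D E : Subgroup G} {x y : G} (h : Cg D x y) (hDE : D ≤ E) : Cg E x y := hDE h

theorem Cg.mul_left {D : Subgroup G} {x y z : G} (h : Cg D x y) : Cg D (z * x) (z * y) := by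
  unfold Cg at *
  have : (z * y)⁻¹ * (z * x) = y⁻¹ * x := by group
  rwa [this]

/-- context: facts, a system with `D = F (N+1)` -/
structure Ctx (G : Type) [Group G] extends Facts G where
  /-- the system -/
  S : Sys G
  /-- the level -/
  N : ℕ
  hD : S.D = F (N + 1)
  hN : 40 ≤ N

namespace Ctx
variable (K : Ctx G)

theorem mem_D {i : ℕ} {x : G} (hx : x ∈ K.F i) (hi : K.N + 1 ≤ i) : x ∈ K.S.D := by
  rw [K.hD]; exact K.anti _ _ hi hx

theorem F_le_D {i : ℕ} (hi : K.N + 1 ≤ i) : K.F i ≤ K.S.D := fun _ hx => K.mem_D hx hi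

theorem up {m n : ℕ} {x : G} (hx : x ∈ K.F n) (h : m ≤ n) : x ∈ K.F m := K.anti _ _ h hx

theorem dom_w {i j : ℕ} {x y : G} (hx : x ∈ K.F i) (hy : y ∈ K.F j) (h : K.N + 1 ≤ i + j) :
    K.S.Dom x y := K.mem_D (K.cm i j x y hx hy) h

theorem domq_w {i : ℕ} {x : G} (hx : x ∈ K.F i) (h : K.N + 1 ≤ 2 * i - 1) : K.S.DomQ x :=
  K.mem_D (K.sq i x hx) h

theorem oW {i n : ℕ} (hi : i % 2 = 1) (h : n ≤ i) : K.o i ∈ K.F n := K.up (K.oF i hi) h
theorem hW {j n : ℕ} (h : n ≤ j + 2) : K.h j ∈ K.F n := K.up (K.hF j) h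

/-- vanishing of the commutator form from weight `W` on -/
def Z (W : ℕ) : Prop := ∀ i j x y, x ∈ K.F i → y ∈ K.F j → W ≤ i + j → K.S.c x y = 0

theorem Z_mono {W W' : ℕ} (h : K.Z W) (hw : W ≤ W') : K.Z W' :=
  fun i j x y hx hy hij => h i j x y hx hy (le_trans hw hij)

theorem Z_top : K.Z (2 * K.N + 2) := by
  intro i j x y hx hy hij
  by_cases hi : K.N + 1 ≤ i
  · exact K.S.c_mem (K.mem_D hx hi) y
  · exact K.S.c_mem_right (K.mem_D hy (by omega)) x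

/-- replace the left argument by a congruent one -/
theorem cgl {m W j : ℕ} {a b y : G} (hZ : K.Z W) (hab : Cg (K.F m) a b) (hy : y ∈ K.F j)
    (hm : W ≤ m + j) (hN : K.N + 1 ≤ m + j) (hb : K.S.Dom b y) :
    K.S.Dom a y ∧ K.S.c a y = K.S.c b y := by
  have e : a = b * (b⁻¹ * a) := by group
  have hd : K.S.Dom (b⁻¹ * a) y := K.dom_w hab hy hN
  constructor
  · rw [e]; exact K.S.dom_mul_left hb hd
  · conv_lhs => rw [e]
    rw [K.S.c_mul_left hb hd, hZ m j _ y hab hy hm, add_zero]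

theorem cgr {m W j : ℕ} {a b y : G} (hZ : K.Z W) (hab : Cg (K.F m) a b) (hy : y ∈ K.F j)
    (hm : W ≤ m + j) (hN : K.N + 1 ≤ m + j) (hb : K.S.Dom y b) :
    K.S.Dom y a ∧ K.S.c y a = K.S.c y b := by
  obtain ⟨h1, h2⟩ := K.cgl hZ hab hy hm hN (K.S.dom_symm hb)
  exact ⟨K.S.dom_symm h1, by rw [K.S.c_symm (K.S.dom_symm h1), h2, K.S.c_symm hb]⟩

/-- replace by an element congruent modulo `D` -/
theorem cgD {a b : G} (hab : Cg K.S.D a b) {y : G} (hb : K.S.Dom b y) :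
    K.S.Dom a y ∧ K.S.c a y = K.S.c b y := by
  have e : a = b * (b⁻¹ * a) := by group
  have hd : K.S.Dom (b⁻¹ * a) y := K.S.dom_of_mem hab y
  constructor
  · rw [e]; exact K.S.dom_mul_left hb hd
  · conv_lhs => rw [e]
    rw [K.S.c_mul_left hb hd, K.S.c_mem hab, add_zero]

theorem zz (a : ZMod 2) : a + a = 0 := CharTwo.add_self_eq_zero a

theorem eq_of_add {a b : ZMod 2} (h : a + b = 0) : a = b := by
  have h2 : a + b = b + b := by rw [h, zz]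
  exact add_right_cancel h2

/-- `H(odd,odd)`, `H(odd,even)`, `H(even,even)` relations from `o 1` -/
theorem Lsig {W j k : ℕ} (hZ : K.Z (W + 1)) (hW : K.N + 1 ≤ W) (hj : 1 ≤ j) (hk : 1 ≤ k)
    (h : j + k + 5 = W) :
    K.S.c (K.h j) (comm (K.h k) (K.o 1)) + K.S.c (comm (K.h j) (K.o 1)) (K.h k) = 0 := by
  have hx := K.hF j
  have hy := K.hF k
  have hu : K.o 1 ∈ K.F 1 := K.oF 1 rfl
  have ha := K.cm _ _ _ _ hx hu
  have hb := K.cm _ _ _ _ hy hu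
  have hp := K.hh j k
  have hab : comm (K.h j) (K.o 1) * comm (K.h k) (K.o 1) ∈ K.F 3 :=
    (K.F 3).mul_mem (K.up ha (by omega)) (K.up hb (by omega))
  obtain ⟨_, h2⟩ := K.S.INV (x := K.h j) (y := K.h k) (u := K.o 1)
    (K.dom_w hx hb (by omega)) (K.dom_w ha hb (by omega)) (K.dom_w ha hy (by omega))
    (K.dom_w hp hab (by omega))
  rw [hZ _ _ _ _ hp hu (by omega), hZ _ _ _ _ ha hb (by omega), hZ _ _ _ _ hp hab (by omega)] at h2
  rw [add_zero, add_zero] at h2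
  exact h2.symm


theorem sig_ee {W j k : ℕ} (hZ : K.Z (W + 1)) (hW : K.N + 1 ≤ W) (hj : 2 ≤ j) (hk : 2 ≤ k)
    (ej : j % 2 = 0) (ek : k % 2 = 0) (h : j + k + 5 = W) :
    K.S.c (K.h (j + 1)) (K.h k) = K.S.c (K.h j) (K.h (k + 1)) := by
  have h0 := K.Lsig hZ hW (by omega) (by omega) h
  have h1 := (K.cgl hZ (K.sh_even j ej hj) (K.hF k) (by omega) (by omega)
    (K.dom_w (K.hF (j + 1)) (K.hF k) (by omega))).2
  have h2 := (K.cgr hZ (K.sh_even k ek hk) (K.hF j) (by omega) (by omega)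
    (K.dom_w (K.hF j) (K.hF (k + 1)) (by omega))).2
  rw [h1, h2, add_comm] at h0
  exact eq_of_add h0

theorem sig_eo {W j k : ℕ} (hZ : K.Z (W + 1)) (hW : K.N + 1 ≤ W) (hj : 2 ≤ j)
    (ej : j % 2 = 0) (ek : k % 2 = 1) (h : j + k + 5 = W) :
    K.S.c (K.h (j + 1)) (K.h k) = 0 := by
  have h0 := K.Lsig hZ hW (by omega) (by omega) h
  have h1 := (K.cgl hZ (K.sh_even j ej hj) (K.hF k) (by omega) (by omega)
    (K.dom_w (K.hF (j + 1)) (K.hF k) (by omega))).2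
  have h2 := hZ _ _ _ _ (K.hF j) (K.sh_odd k ek) (by omega)
  rw [h1, h2, zero_add] at h0
  exact h0

/-- relation from `h 0` for a pair `h j`, `h k` -/
theorem Lrho {W j k : ℕ} (hZ : K.Z (W + 1)) (hW : K.N + 1 ≤ W) (hj : 1 ≤ j) (hk : 1 ≤ k)
    (h : j + k + 6 = W) :
    K.S.c (K.h j) (comm (K.h k) (K.h 0)) + K.S.c (comm (K.h j) (K.h 0)) (K.h k) = 0 := by
  have hx := K.hF j
  have hy := K.hF k
  have hu : K.h 0 ∈ K.F 2 := K.hF 0
  have ha := K.cm _ _ _ _ hx hu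
  have hb := K.cm _ _ _ _ hy hu
  have hp := K.hh j k
  have hab : comm (K.h j) (K.h 0) * comm (K.h k) (K.h 0) ∈ K.F 3 :=
    (K.F 3).mul_mem (K.up ha (by omega)) (K.up hb (by omega))
  obtain ⟨_, h2⟩ := K.S.INV (x := K.h j) (y := K.h k) (u := K.h 0)
    (K.dom_w hx hb (by omega)) (K.dom_w ha hb (by omega)) (K.dom_w ha hy (by omega))
    (K.dom_w hp hab (by omega))
  rw [hZ _ _ _ _ hp hu (by omega), hZ _ _ _ _ ha hb (by omega), hZ _ _ _ _ hp hab (by omega)] at h2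
  rw [add_zero, add_zero] at h2
  exact h2.symm

theorem rh_even' (j : ℕ) (ej : j % 2 = 0) (hj : 2 ≤ j) :
    Cg (K.F (j + 6)) (comm (K.h j) (K.h 0)) (K.h (j + 2)) := by
  obtain ⟨e, he⟩ := K.rh_even j ej hj
  have h1 : K.h (j + 4) ^ e ∈ K.F (j + 6) := (K.F (j + 6)).pow_mem (K.hF (j + 4)) e
  have h2 := K.up he (show j + 6 ≤ j + 8 by omega)
  unfold Cg
  have : (K.h (j + 2))⁻¹ * comm (K.h j) (K.h 0) =
    K.h (j + 4) ^ e * ((K.h (j + 2) * K.h (j + 4) ^ e)⁻¹ * comm (K.h j) (K.h 0)) := by group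
  rw [this]
  exact (K.F (j + 6)).mul_mem h1 h2

theorem rh_odd' (j : ℕ) (ej : j % 2 = 1) : comm (K.h j) (K.h 0) ∈ K.F (j + 5) := by
  rcases Nat.lt_or_ge j 5 with h5 | h5
  · have : j = 1 ∨ j = 3 := by omega
    rcases this with rfl | rfl
    · exact K.rh_1
    · exact K.up K.rh_3 (by norm_num)
  · obtain ⟨e, he⟩ := K.rh_odd j ej h5
    exact Cg.mem_of_mem he (K.anti _ _ (by omega))
      ((K.F (j + 5)).pow_mem (K.hW (by omega)) e)

/-- stronger version for `j ≥ 3` -/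
theorem rh_odd6 (j : ℕ) (ej : j % 2 = 1) (hj : 3 ≤ j) : comm (K.h j) (K.h 0) ∈ K.F (j + 6) := by
  rcases Nat.lt_or_ge j 5 with h5 | h5
  · have : j = 3 := by omega
    subst this
    exact K.up K.rh_3 (by norm_num)
  · obtain ⟨e, he⟩ := K.rh_odd j ej h5
    exact Cg.mem_of_mem he (K.anti _ _ (by omega))
      ((K.F (j + 6)).pow_mem (K.hW (by omega)) e)

theorem rho_ee {W j k : ℕ} (hZ : K.Z (W + 1)) (hW : K.N + 1 ≤ W) (hj : 2 ≤ j) (hk : 2 ≤ k)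
    (ej : j % 2 = 0) (ek : k % 2 = 0) (h : j + k + 6 = W) :
    K.S.c (K.h (j + 2)) (K.h k) = K.S.c (K.h j) (K.h (k + 2)) := by
  have h0 := K.Lrho hZ hW (by omega) (by omega) h
  have h1 := (K.cgl hZ (K.rh_even' j ej hj) (K.hF k) (by omega) (by omega)
    (K.dom_w (K.hF (j + 2)) (K.hF k) (by omega))).2
  have h2 := (K.cgr hZ (K.rh_even' k ek hk) (K.hF j) (by omega) (by omega)
    (K.dom_w (K.hF j) (K.hF (k + 2)) (by omega))).2
  rw [h1, h2, add_comm] at h0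
  exact eq_of_add h0

theorem rho_eo {W j k : ℕ} (hZ : K.Z (W + 1)) (hW : K.N + 1 ≤ W) (hj : 2 ≤ j)
    (ej : j % 2 = 0) (ek : k % 2 = 1) (h : j + k + 6 = W) :
    K.S.c (K.h (j + 2)) (K.h k) = 0 := by
  have h0 := K.Lrho hZ hW (by omega) (by omega) h
  have h1 := (K.cgl hZ (K.rh_even' j ej hj) (K.hF k) (by omega) (by omega)
    (K.dom_w (K.hF (j + 2)) (K.hF k) (by omega))).2
  have h2 := hZ _ _ _ _ (K.hF j) (K.rh_odd' k ek) (by omega)
  rw [h1, h2, zero_add] at h0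
  exact h0

theorem p_oh (i k : ℕ) (ei : i % 2 = 1) (ek : k % 2 = 0) (hi : K.N + 1 ≤ i + k + 2 + min i k) :
    Cg K.S.D (comm (K.o i) (K.h k)) (K.h (i + k)) :=
  K.F_le_D hi (K.oh_even i k ei ek)

/-- `B(i, odd ≥ 3)` -/
theorem Bsig {W i k : ℕ} (hZ : K.Z (W + 1)) (hW : K.N + 1 ≤ W) (ei : i % 2 = 1)
    (hk : 2 ≤ k) (ek : k % 2 = 0) (h : i + k + 3 = W)
    (hp0 : W = K.N + 1 → K.S.c (K.h (i + k)) (K.o 1) = 0) :
    K.S.c (K.o i) (K.h (k + 1)) = 0 := by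
  have hx := K.oF i ei
  have hy := K.hF k
  have hu : K.o 1 ∈ K.F 1 := K.oF 1 rfl
  have ha := K.so i ei
  have hb := K.cm _ _ _ _ hy hu
  have hp := K.cm _ _ _ _ hx hy
  have hab : comm (K.o i) (K.o 1) * comm (K.h k) (K.o 1) ∈ K.F 3 :=
    (K.F 3).mul_mem (K.up ha (by omega)) (K.up hb (by omega))
  obtain ⟨_, h2⟩ := K.S.INV (x := K.o i) (y := K.h k) (u := K.o 1)
    (K.dom_w hx hb (by omega)) (K.dom_w ha hb (by omega)) (K.dom_w ha hy (by omega))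
    (K.dom_w hp hab (by omega))
  have h3 := (K.cgr hZ (K.sh_even k ek hk) hx (by omega) (by omega)
    (K.dom_w hx (K.hF (k + 1)) (by omega))).2
  rw [hZ _ _ _ _ ha hb (by omega), hZ _ _ _ _ ha hy (by omega), hZ _ _ _ _ hp hab (by omega),
    h3, add_zero, add_zero, add_zero] at h2
  rw [← h2]
  by_cases hWN : W = K.N + 1
  · have hd : K.S.Dom (K.h (i + k)) (K.o 1) := K.dom_w (K.hF _) hu (by omega)
    rw [(K.cgD (K.p_oh i k ei ek (by omega)) hd).2]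
    exact hp0 hWN
  · exact K.S.c_mem (K.mem_D hp (by omega)) _

/-- the `h 0` relation for a pair `o i`, `h k` -/
theorem Brho {W i k : ℕ} (hZ : K.Z (W + 1)) (hW : K.N + 2 ≤ W) (ei : i % 2 = 1)
    (hk : 2 ≤ k) (ek : k % 2 = 0) (h : i + k + 4 = W)
    (hp0 : W = K.N + 2 → K.S.c (K.h (i + k)) (K.h 0) = 0) :
    K.S.c (K.o (i + 2)) (K.h k) + K.S.c (K.h i) (K.h k) = K.S.c (K.o i) (K.h (k + 2)) := by
  have hx := K.oF i ei
  have hy := K.hF k
  have hu : K.h 0 ∈ K.F 2 := K.hF 0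
  have ha := K.cm _ _ _ _ hx hu
  have hb := K.cm _ _ _ _ hy hu
  have hp := K.cm _ _ _ _ hx hy
  have hab : comm (K.o i) (K.h 0) * comm (K.h k) (K.h 0) ∈ K.F 3 :=
    (K.F 3).mul_mem (K.up ha (by omega)) (K.up hb (by omega))
  obtain ⟨_, h2⟩ := K.S.INV (x := K.o i) (y := K.h k) (u := K.h 0)
    (K.dom_w hx hb (by omega)) (K.dom_w ha hb (by omega)) (K.dom_w ha hy (by omega))
    (K.dom_w hp hab (by omega))
  have h3 := (K.cgr hZ (K.rh_even' k ek hk) hx (by omega) (by omega)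
    (K.dom_w hx (K.hF (k + 2)) (by omega))).2
  have hd1 : K.S.Dom (K.o (i + 2)) (K.h k) := K.dom_w (K.oF _ (by omega)) hy (by omega)
  have hd2 : K.S.Dom (K.h i) (K.h k) := K.dom_w (K.hF i) hy (by omega)
  have hd3 : K.S.Dom (K.h (i + 1)) (K.h k) := K.dom_w (K.hF (i + 1)) hy (by omega)
  have h4 := (K.cgl hZ (K.ro i ei) hy (by omega) (by omega)
    (K.S.dom_mul_left (K.S.dom_mul_left hd1 hd2) hd3)).2
  rw [K.S.c_mul_left (K.S.dom_mul_left hd1 hd2) hd3, K.S.c_mul_left hd1 hd2,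
    hZ _ _ _ _ (K.hF (i + 1)) hy (by omega), add_zero] at h4
  rw [hZ _ _ _ _ ha hb (by omega), hZ _ _ _ _ hp hab (by omega),
    h3, h4, add_zero, add_zero] at h2
  have h5 : K.S.c (comm (K.o i) (K.h k)) (K.h 0) = 0 := by
    by_cases hWN : W = K.N + 2
    · have hd : K.S.Dom (K.h (i + k)) (K.h 0) := K.dom_w (K.hF _) hu (by omega)
      rw [(K.cgD (K.p_oh i k ei ek (by omega)) hd).2]
      exact hp0 hWN
    · exact K.S.c_mem (K.mem_D hp (by omega)) _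
  rw [h5] at h2
  exact (eq_of_add h2.symm).symm

/-- the `h 0` relation for a pair `o i`, `o j` -/
theorem Arho {W i j : ℕ} (hZ : K.Z (W + 1)) (hW : K.N + 1 ≤ W) (ei : i % 2 = 1)
    (ej : j % 2 = 1) (h : i + j + 2 = W) (hp0 : K.S.c (comm (K.o i) (K.o j)) (K.h 0) = 0) :
    K.S.c (K.o (i + 2)) (K.o j) + K.S.c (K.o j) (K.h i) + K.S.c (K.o i) (K.o (j + 2)) +
      K.S.c (K.o i) (K.h j) = 0 := by
  have hx := K.oF i ei
  have hy := K.oF j ej
  have hu : K.h 0 ∈ K.F 2 := K.hF 0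
  have ha := K.cm _ _ _ _ hx hu
  have hb := K.cm _ _ _ _ hy hu
  have hp := K.oo i j ei ej
  have hab : comm (K.o i) (K.h 0) * comm (K.o j) (K.h 0) ∈ K.F 3 :=
    (K.F 3).mul_mem (K.up ha (by omega)) (K.up hb (by omega))
  obtain ⟨_, h2⟩ := K.S.INV (x := K.o i) (y := K.o j) (u := K.h 0)
    (K.dom_w hx hb (by omega)) (K.dom_w ha hb (by omega)) (K.dom_w ha hy (by omega))
    (K.dom_w hp hab (by omega))
  have aux : ∀ i j : ℕ, i % 2 = 1 → j % 2 = 1 → i + j + 2 = W →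
      K.S.c (comm (K.o i) (K.h 0)) (K.o j) = K.S.c (K.o (i + 2)) (K.o j) + K.S.c (K.h i) (K.o j) ∧
      K.S.Dom (comm (K.o i) (K.h 0)) (K.o j) ∧ K.S.Dom (K.h i) (K.o j) ∧
      K.S.Dom (K.o (i + 2)) (K.o j) := by
    intro i j ei ej hij
    have hy := K.oF j ej
    have hd1 : K.S.Dom (K.o (i + 2)) (K.o j) := K.dom_w (K.oF _ (by omega)) hy (by omega)
    have hd2 : K.S.Dom (K.h i) (K.o j) := K.dom_w (K.hF i) hy (by omega)
    have hd3 : K.S.Dom (K.h (i + 1)) (K.o j) := K.dom_w (K.hF (i + 1)) hy (by omega)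
    obtain ⟨h3, h4⟩ := K.cgl hZ (K.ro i ei) hy (by omega) (by omega)
      (K.S.dom_mul_left (K.S.dom_mul_left hd1 hd2) hd3)
    rw [K.S.c_mul_left (K.S.dom_mul_left hd1 hd2) hd3, K.S.c_mul_left hd1 hd2,
      hZ _ _ _ _ (K.hF (i + 1)) hy (by omega), add_zero] at h4
    exact ⟨h4, h3, hd2, hd1⟩
  obtain ⟨e1, d1, d1', _⟩ := aux i j ei ej h
  obtain ⟨e2, d2, d2', d2''⟩ := aux j i ej ei (by omega)
  rw [hp0, hZ _ _ _ _ ha hb (by omega), hZ _ _ _ _ hp hab (by omega), e1,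
    K.S.c_symm (K.S.dom_symm d2), e2, K.S.c_symm d2'', K.S.c_symm d2', K.S.c_symm d1'] at h2
  rw [h2]
  ring

end Ctx

end Pool.Agent.Nott
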