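import Pool.Agent.Nott.KLemma

/-! # The case `N = M + 1` (action of `o 3`) -/

namespace Pool.Agent.Nott

variable {G : Type} [Group G]

/-- the context with `N = M + 1` -/
structure OCtx (G : Type) [Group G] extends KCtx G where
  hN1 : N = M + 1

theorem alg5 : ∀ a b : ZMod 2, a + b = 0 → a = b := by decide
theorem alg6 : ∀ d g x n : ZMod 2, d = x + n * g → (n + 1) * g + x = n * d + (n + 1) * d → g = 0 := by
  decide

namespace OCtx
variable (K : OCtx G)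

/-- `dd` -/
noncomputable def dd : ZMod 2 := K.S.c (K.h (K.M - 1)) (K.o 1)

theorem q_cg {m n : ℕ} {a b : G} (h : Cg (K.F m) a b) (hb : b ∈ K.F n) (h1 : K.N + 7 ≤ 2 * m)
    (h2 : K.M + 5 ≤ m + n) (hq : K.S.DomQ b) : K.S.q a = K.S.q b := by
  have s1 := K.sN
  have s3 := K.M40
  have e : a = b * (b⁻¹ * a) := by group
  have d1 : K.S.DomQ (b⁻¹ * a) := K.toCtx.domq_w h (by omega)
  have d2 : K.S.Dom b (b⁻¹ * a) := K.toCtx.dom_w hb h (by omega)
  conv_lhs => rw [e]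
  rw [K.S.q_mul hq d1 d2, K.toCtx.Q m _ h1 h, K.hZ _ _ _ _ hb h (by omega), add_zero, add_zero]

theorem O1 : K.S.c (K.o 3) (K.h (K.M - 2)) = K.dd := by
  have s1 := K.hN1
  have s3 := K.M40
  have s4 := K.hM
  have ho : K.o 1 ∈ K.F 1 := K.oF 1 rfl
  have ha := K.cm _ _ _ _ ho (K.hF (K.M - 2))
  have hc := K.oh_even 1 (K.M - 2) rfl (by omega)
  have hcD : Cg K.S.D (comm (K.o 1) (K.h (K.M - 2))) (K.h (1 + (K.M - 2))) :=
    K.toCtx.F_le_D (by omega) hc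
  have e : 1 + (K.M - 2) = K.M - 1 := by omega
  rw [e] at hcD
  obtain ⟨_, h1⟩ := K.S.SQ (x := K.o 1) (u := K.h (K.M - 2)) (K.toCtx.domq_w ha (by omega))
    (K.toCtx.dom_w ha ho (by omega))
  rw [K.sqo1, K.toCtx.Q _ _ (by omega) ha, zero_add,
    (K.toCtx.cgD hcD (K.toCtx.dom_w (K.hF (K.M - 1)) ho (by omega))).2] at h1
  exact h1

theorem O2 : ∀ m i k : ℕ, i = 2 * m + 3 → k % 2 = 0 → 4 ≤ k → i + k = K.M + 1 →
    K.S.c (K.o i) (K.h k) = K.dd := by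
  have s4 := K.hM
  intro m
  induction m with
  | zero =>
    intro i k hi ek hk h
    have : k = K.M - 2 := by omega
    subst this
    subst hi
    exact K.O1
  | succ m ih =>
    intro i k hi ek hk h
    have h1 := K.K3 (i - 2) k (by omega) (by omega) ek hk (by omega)
    rw [show i - 2 + 2 = i by omega, ih (i - 2) (k + 2) (by omega) (by omega) (by omega) (by omega),
      K.key, Ctx.zz] at h1
    exact alg5 _ _ h1

theorem B_dd (i k : ℕ) (ei : i % 2 = 1) (hi : 3 ≤ i) (ek : k % 2 = 0) (hk : 4 ≤ k)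
    (h : i + k = K.M + 1) : K.S.c (K.o i) (K.h k) = K.dd :=
  K.O2 ((i - 3) / 2) i k (by omega) ek hk h

/-- `c` of the square of `h (2q)` -/
theorem sq2q (q : ℕ) (hq : K.M = 4 * q + 2) (y : G) (hy : K.S.Dom (K.h (K.M - 1)) y) :
    K.S.c (K.h (2 * q) * K.h (2 * q)) y = K.S.c (K.h (K.M - 1)) y := by
  have s1 := K.hN1
  have s3 := K.M40
  have h2 : Cg K.S.D (K.h (2 * q) * K.h (2 * q)) (K.h (2 * (2 * q) + 1)) :=
    K.toCtx.F_le_D (by omega) (K.sqh (2 * q))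
  have e : 2 * (2 * q) + 1 = K.M - 1 := by omega
  rw [e] at h2
  exact (K.toCtx.cgD h2 hy).2

theorem O3 (q : ℕ) (hq : K.M = 4 * q + 2) : K.S.q (K.h (2 * q + 2)) = 0 := by
  have s1 := K.hN1
  have s3 := K.M40
  have hx := K.hF (2 * q)
  have hu : K.h 0 ∈ K.F 2 := K.hF 0
  have h6 := K.toCtx.rh_even' (2 * q) (by omega) (by omega)
  have hm : K.h (2 * q + 2) ∈ K.F (2 * q + 4) := K.hF _
  have ha : comm (K.h (2 * q)) (K.h 0) ∈ K.F (2 * q + 4) :=
    h6.mem_of_mem (K.anti _ _ (by omega)) hm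
  obtain ⟨_, h1⟩ := K.S.SQ (x := K.h (2 * q)) (u := K.h 0) (K.toCtx.domq_w ha (by omega))
    (K.toCtx.dom_w ha hx (by omega))
  have h2 := (K.toCtx.cgl K.hZ h6 hx (by omega) (by omega)
    (K.toCtx.dom_w hm hx (by omega))).2
  rw [K.sq2q q hq _ (K.toCtx.dom_w (K.hF _) hu (by omega)), h2,
    K.H_g (2 * q + 2) (2 * q) (by omega) (by omega) (by omega) (by omega) (by omega),
    K.q_cg h6 hm (by omega) (by omega) (K.toCtx.domq_w hm (by omega))] at h1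
  have h3 : K.S.c (K.h (K.M - 1)) (K.h 0) = K.g := K.key.symm
  rw [h3] at h1
  have : K.g + 0 = K.g + K.S.q (K.h (2 * q + 2)) := by rw [add_zero, add_comm]; exact h1
  exact (add_left_cancel this).symm

theorem O4 (q : ℕ) (hq : K.M = 4 * q + 2) :
    K.dd = K.S.q (K.h (2 * q + 1)) + q * K.g := by
  have s1 := K.hN1
  have s3 := K.M40
  have hx := K.hF (2 * q)
  have hu : K.o 1 ∈ K.F 1 := K.oF 1 rfl
  have hr := K.sh_ref q (by omega)
  have m1 : K.h (2 * q + 1) ∈ K.F (2 * q + 3) := K.hF _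
  have m2 : K.h (2 * q + 2) ∈ K.F (2 * q + 4) := K.hF _
  have m3 : K.h (2 * q + 3) ∈ K.F (2 * q + 5) := K.hF _
  have m2' : K.h (2 * q + 2) ^ q ∈ K.F (2 * q + 4) := (K.F _).pow_mem m2 q
  have m3' : K.h (2 * q + 3) ^ q ∈ K.F (2 * q + 5) := (K.F _).pow_mem m3 q
  have m12 : K.h (2 * q + 1) * K.h (2 * q + 2) ^ q ∈ K.F (2 * q + 3) :=
    (K.F _).mul_mem m1 (K.toCtx.up m2' (by omega))
  have m123 : K.h (2 * q + 1) * K.h (2 * q + 2) ^ q * K.h (2 * q + 3) ^ q ∈ K.F (2 * q + 3) :=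
    (K.F _).mul_mem m12 (K.toCtx.up m3' (by omega))
  have ha : comm (K.h (2 * q)) (K.o 1) ∈ K.F (2 * q + 3) :=
    hr.mem_of_mem (K.anti _ _ (by omega)) m123
  obtain ⟨_, h1⟩ := K.S.SQ (x := K.h (2 * q)) (u := K.o 1) (K.toCtx.domq_w ha (by omega))
    (K.toCtx.dom_w ha hx (by omega))
  have d1 : K.S.Dom (K.h (2 * q + 1)) (K.h (2 * q)) := K.toCtx.dom_w m1 hx (by omega)
  have d2 : K.S.Dom (K.h (2 * q + 2)) (K.h (2 * q)) := K.toCtx.dom_w m2 hx (by omega)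
  have d3 : K.S.Dom (K.h (2 * q + 3) ^ q) (K.h (2 * q)) := K.toCtx.dom_w m3' hx (by omega)
  have d2' := K.S.dom_pow_left d2 q
  have h2 := (K.toCtx.cgl K.hZ hr hx (by omega) (by omega)
    (K.S.dom_mul_left (K.S.dom_mul_left d1 d2') d3)).2
  rw [K.S.c_mul_left (K.S.dom_mul_left d1 d2') d3, K.S.c_mul_left d1 d2', K.S.c_pow_left d2,
    K.hZ _ _ _ _ m3' hx (by omega), K.S.c_symm d1,
    K.K1 (2 * q) (2 * q + 1) (by omega) (by omega) (by omega) (by omega) (by omega),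
    K.H_g (2 * q + 2) (2 * q) (by omega) (by omega) (by omega) (by omega) (by omega),
    add_zero, zero_add] at h2
  have h3 := K.q_cg hr m123 (by omega) (by omega) (K.toCtx.domq_w m123 (by omega))
  have dq1 : K.S.DomQ (K.h (2 * q + 1)) := K.toCtx.domq_w m1 (by omega)
  have dq2 : K.S.DomQ (K.h (2 * q + 2)) := K.toCtx.domq_w m2 (by omega)
  rw [K.S.q_mul (K.toCtx.domq_w m12 (by omega)) (K.toCtx.domq_w m3' (by omega))
    (K.toCtx.dom_w m12 m3' (by omega)), K.toCtx.Q _ _ (by omega) m3',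
    K.hZ _ _ _ _ m12 m3' (by omega), add_zero, add_zero,
    K.S.q_mul dq1 (K.S.domq_pow dq2 q) (K.toCtx.dom_w m1 m2' (by omega)),
    K.hZ _ _ _ _ m1 m2' (by omega), add_zero, K.S.q_pow dq2, K.O3 q hq, mul_zero,
    add_zero] at h3
  rw [K.sq2q q hq _ (K.toCtx.dom_w (K.hF _) hu (by omega)), h2, h3] at h1
  exact h1

/-- the square of `z = h (M/2-3)` and `o 3` -/
theorem O6 (q : ℕ) (hq : K.M = 4 * q + 2) :
    K.S.Dom (K.h (K.M / 2 - 3) * K.h (K.M / 2 - 3)) (K.o 3) ∧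
    K.S.c (K.h (K.M / 2 - 3) * K.h (K.M / 2 - 3)) (K.o 3) =
      K.S.q (K.h (2 * q + 1)) + ((q - 1 : ℕ) : ZMod 2) * K.g := by
  have s1 := K.hN1
  have s3 := K.M40
  have e : K.M / 2 - 3 = 2 * q - 2 := by omega
  rw [e]
  have hx := K.hF (2 * q - 2)
  have ht := K.t3h (2 * q - 2) (by omega) (by omega)
  rw [show 2 * q - 2 + 3 = 2 * q + 1 by omega, show 2 * q - 2 + 6 = 2 * q + 4 by omega,
    show 2 * q - 2 + 10 = 2 * q + 8 by omega, show (2 * q - 2) / 2 = q - 1 by omega] at ht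
  have m1 : K.h (2 * q + 1) ∈ K.F (2 * q + 3) := K.hF _
  have m2 : K.h (2 * q + 4) ∈ K.F (2 * q + 6) := K.hF _
  have m2' : K.h (2 * q + 4) ^ (q - 1) ∈ K.F (2 * q + 6) := (K.F _).pow_mem m2 _
  have m12 : K.h (2 * q + 1) * K.h (2 * q + 4) ^ (q - 1) ∈ K.F (2 * q + 3) :=
    (K.F _).mul_mem m1 (K.toCtx.up m2' (by omega))
  have ha : comm (K.h (2 * q - 2)) (K.o 3) ∈ K.F (2 * q + 3) :=
    ht.mem_of_mem (K.anti _ _ (by omega)) m12
  have d1 : K.S.Dom (K.h (2 * q + 1)) (K.h (2 * q - 2)) := K.hh_D _ _ (by omega)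
  have d2 : K.S.Dom (K.h (2 * q + 4)) (K.h (2 * q - 2)) := K.toCtx.dom_w m2 hx (by omega)
  have d2' := K.S.dom_pow_left d2 (q - 1)
  obtain ⟨da, h2⟩ := K.toCtx.cgl K.hZ ht hx (by omega) (by omega) (K.S.dom_mul_left d1 d2')
  obtain ⟨dz, h1⟩ := K.S.SQ (x := K.h (2 * q - 2)) (u := K.o 3) (K.toCtx.domq_w ha (by omega)) da
  refine ⟨dz, ?_⟩
  rw [K.S.c_mul_left d1 d2', K.S.c_pow_left d2, K.S.c_symm d1,
    K.K2 (2 * q - 2) (2 * q + 1) (by omega) (by omega) (by omega) (by omega) (by omega),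
    K.H_g (2 * q + 4) (2 * q - 2) (by omega) (by omega) (by omega) (by omega) (by omega),
    zero_add] at h2
  have h3 := K.q_cg ht m12 (by omega) (by omega) (K.toCtx.domq_w m12 (by omega))
  rw [K.S.q_mul (K.toCtx.domq_w m1 (by omega)) (K.toCtx.domq_w m2' (by omega))
    (K.toCtx.dom_w m1 m2' (by omega)), K.toCtx.Q _ _ (by omega) m2',
    K.hZ _ _ _ _ m1 m2' (by omega), add_zero, add_zero] at h3
  rw [h1, h2, h3]

/-- `c (o i) (h (2y+1)) = 0` via the square of `h y` -/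
theorem Bsq (i y : ℕ) (ei : i % 2 = 1) (h1 : K.N + 1 ≤ i + (2 * y + 1) + 2 + min i (2 * y + 1))
    (h2 : K.N + 7 ≤ 2 * (i + y + 2)) (h3 : K.M + 5 ≤ i + y + 2 + min i y + (y + 2))
    (h4 : K.M + 5 ≤ 3 * y + 4 + i) (h5 : y % 2 = 0 → K.N + 1 ≤ i + y + y + 4 + min (i + y) y)
    (h6 : y % 2 = 0 → K.S.c (K.h (i + y)) (K.h y) = 0) :
    K.S.Dom (K.o i) (K.h (2 * y + 1)) ∧ K.S.c (K.o i) (K.h (2 * y + 1)) = 0 := by
  have s1 := K.hN1
  have s3 := K.M40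
  have hx := K.hF y
  have hu := K.oF i ei
  have d0 : K.S.Dom (K.o i) (K.h (2 * y + 1)) :=
    K.toCtx.mem_D (K.oh_odd i (2 * y + 1) ei (by omega)) h1
  refine ⟨d0, ?_⟩
  have ha0 := K.cm _ _ _ _ hu hx
  have ha : comm (K.h y) (K.o i) ∈ K.F (i + y + 2) := by
    rw [← comm_inv]
    exact (K.F _).inv_mem (K.toCtx.up ha0 (by omega))
  have key : K.S.Dom (comm (K.o i) (K.h y)) (K.h y) ∧
      K.S.c (comm (K.o i) (K.h y)) (K.h y) = 0 := by
    rcases Nat.mod_two_eq_zero_or_one y with ey | ey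
    · have hc := K.oh_even i y ei ey
      obtain ⟨q1, q2⟩ := K.toCtx.cgl K.hZ hc hx (by omega) (by omega) (K.hh_D _ _ (h5 ey))
      exact ⟨q1, by rw [q2, h6 ey]⟩
    · have hc := K.oh_odd i y ei ey
      exact ⟨K.toCtx.dom_w hc hx (by omega), K.hZ _ _ _ _ hc hx (by omega)⟩
  have da : K.S.Dom (comm (K.h y) (K.o i)) (K.h y) := by
    rw [← comm_inv]; exact K.S.dom_inv_left key.1
  have ca : K.S.c (comm (K.h y) (K.o i)) (K.h y) = 0 := by
    rw [← comm_inv, K.S.c_inv_left key.1]; exact key.2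
  obtain ⟨_, e1⟩ := K.S.SQ (x := K.h y) (u := K.o i) (K.toCtx.domq_w ha (by omega)) da
  rw [K.toCtx.Q _ _ (by omega) ha, ca, add_zero,
    (K.toCtx.cgl K.hZ (K.sqh y) hu (by omega) (by omega) (K.S.dom_symm d0)).2] at e1
  rw [K.S.c_symm d0]
  exact e1

/-- **`g = 0`** -/
theorem g_zero : K.g = 0 := by
  have s1 := K.hN1
  have s3 := K.M40
  have s4 := K.hM
  obtain ⟨q, hq⟩ : ∃ q, K.M = 4 * q + 2 := ⟨K.M / 4, by omega⟩
  set i := 2 * q + 1 with hi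
  set k := 2 * q - 4 with hk
  have ei : i % 2 = 1 := by omega
  have ek : k % 2 = 0 := by omega
  have hx := K.oF i ei
  have hy := K.hF k
  have hu : K.o 3 ∈ K.F 3 := K.oF 3 rfl
  have htb := K.t3h k ek (by omega)
  have hta := K.t3o i ei (by omega)
  obtain ⟨dB, cB⟩ := K.Bsq i (q - 1) ei (by omega) (by omega) (by omega) (by omega)
    (fun _ => by omega) (fun ey => by
      rw [K.S.c_symm (K.hh_D _ _ (by omega))]
      exact K.K2 (q - 1) (i + (q - 1)) ey (by omega) (by omega) (by omega) (by omega))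
  rw [show 2 * (q - 1) + 1 = k + 3 by omega] at dB cB
  have m1 : K.h (k + 3) ∈ K.F (k + 5) := K.hF _
  have m2 : K.h (k + 6) ∈ K.F (k + 8) := K.hF _
  have m2' : K.h (k + 6) ^ (k / 2) ∈ K.F (k + 8) := (K.F _).pow_mem m2 _
  have hb : comm (K.h k) (K.o 3) ∈ K.F (k + 5) :=
    htb.mem_of_mem (K.anti _ _ (by omega)) ((K.F _).mul_mem m1 (K.toCtx.up m2' (by omega)))
  have mo : K.o (i + 6) ∈ K.F (i + 6) := K.oF _ (by omega)
  have ha : comm (K.o i) (K.o 3) ∈ K.F (i + 6) :=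
    hta.mem_of_mem (K.anti _ _ (by omega)) ((K.F _).pow_mem mo _)
  have hp := K.cm _ _ _ _ hx hy
  have hab : comm (K.o i) (K.o 3) * comm (K.h k) (K.o 3) ∈ K.F 9 :=
    (K.F 9).mul_mem (K.toCtx.up ha (by omega)) (K.toCtx.up hb (by omega))
  -- c x b
  have d2 : K.S.Dom (K.h (k + 6)) (K.o i) := K.toCtx.dom_w m2 hx (by omega)
  have d2' := K.S.dom_symm (K.S.dom_pow_left d2 (k / 2))
  obtain ⟨db, h3⟩ := K.toCtx.cgr K.hZ htb hx (by omega) (by omega) (K.S.dom_mul_right dB d2')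
  rw [K.S.c_mul_right dB d2', cB, K.S.c_symm d2', K.S.c_pow_left d2, K.S.c_symm d2,
    K.B_dd i (k + 6) ei (by omega) (by omega) (by omega) (by omega), zero_add] at h3
  -- c a y
  have d4 : K.S.Dom (K.o (i + 6)) (K.h k) := K.toCtx.dom_w mo hy (by omega)
  have h4 := (K.toCtx.cgl K.hZ hta hy (by omega) (by omega) (K.S.dom_pow_left d4 _)).2
  rw [K.S.c_pow_left d4, K.B_dd (i + 6) k (by omega) (by omega) ek (by omega) (by omega)] at h4
  obtain ⟨_, h2⟩ := K.S.INV (x := K.o i) (y := K.h k) (u := K.o 3) db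
    (K.toCtx.dom_w ha hb (by omega)) (K.toCtx.dom_w ha hy (by omega))
    (K.toCtx.dom_w hp hab (by omega))
  have h5 := K.toCtx.cgD (K.K5 i k ei (by omega) ek (by omega) (by omega)) (K.O6 q hq).1
  rw [h5.2, (K.O6 q hq).2, h3, h4, K.hZ _ _ _ _ ha hb (by omega),
    K.hZ _ _ _ _ hp hab (by omega), add_zero, add_zero] at h2
  have h6 := K.O4 q hq
  have c1 : (((i + 1) / 2 : ℕ) : ZMod 2) = (q : ZMod 2) + 1 := by
    rw [show (i + 1) / 2 = q + 1 by omega]; push_cast; ring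
  have c2 : ((k / 2 : ℕ) : ZMod 2) = (q : ZMod 2) := by
    have : k / 2 + 2 = q := by omega
    have h7 : ((k / 2 + 2 : ℕ) : ZMod 2) = (q : ZMod 2) := by rw [this]
    push_cast at h7
    rw [← h7, show (2 : ZMod 2) = 0 from rfl, add_zero]
  have c3 : ((q - 1 : ℕ) : ZMod 2) = (q : ZMod 2) + 1 := by
    have : q - 1 + 1 = q := by omega
    have h7 : ((q - 1 + 1 : ℕ) : ZMod 2) = (q : ZMod 2) := by rw [this]
    push_cast at h7
    rw [← h7, add_assoc, show (1 + 1 : ZMod 2) = 0 from rfl, add_zero]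
  rw [c1, c2, c3, add_comm (K.S.q _)] at h2
  exact alg6 _ _ _ _ h6 h2

theorem δ_zero : K.δ = 0 := by rw [← K.key]; exact K.g_zero

end OCtx

end Pool.Agent.Nott
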