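import Pool.Agent.Nott.OLemma

/-! # The case `N` odd -/

namespace Pool.Agent.Nott

variable {G : Type} [Group G]

/-- context: `N` odd, `c (o N) (h 0) = 0` -/
structure OddCtx (G : Type) [Group G] extends Ctx G where
  hodd : N % 2 = 1
  ho0 : S.c (o N) (h 0) = 0

namespace OddCtx
variable (K : OddCtx G)

theorem Z4 : K.Z (K.N + 4) :=
  K.toCtx.lvl (W := K.N + 4) K.toCtx.Z5 (by omega)
    (fun a b ea eb ha hb h => by have := K.hodd; omega)
    (fun i ei h => by have := K.hodd; omega)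

/-- the context for `N ≡ 3 mod 4` -/
noncomputable def oc (h3 : K.N % 4 = 3) : OCtx G where
  toCtx := K.toCtx
  M := K.N - 1
  hM := by omega
  hNM := by omega
  hZ := by
    have e : K.N - 1 + 5 = K.N + 4 := by omega
    rw [e]
    exact K.Z4
  hN1 := by
    show K.N = K.N - 1 + 1
    omega

/-- pairing of `o i` with `h 1` from the square of `h 0` -/
theorem B1 {W i : ℕ} (hZ : K.Z W) (ei : i % 2 = 1) (hW : W ≤ i + 4) (hN : K.N + 1 ≤ i + 3)
    (h7 : K.N + 7 ≤ 2 * (i + 2)) : K.S.c (K.o i) (K.h 1) = 0 := by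
  have hN := K.hN
  have hx : K.h 0 ∈ K.F 2 := K.hF 0
  have hu := K.oF i ei
  have ha : comm (K.h 0) (K.o i) ∈ K.F (i + 2) := by
    have := K.cm _ _ _ _ hx hu
    exact K.toCtx.up this (by omega)
  obtain ⟨_, h1⟩ := K.S.SQ (x := K.h 0) (u := K.o i) (K.toCtx.domq_w ha (by omega))
    (K.toCtx.dom_w ha hx (by omega))
  rw [K.toCtx.Q _ _ (by omega) ha, hZ _ _ _ _ ha hx (by omega), add_zero] at h1
  have m1 : K.h 1 ∈ K.F 3 := K.hF 1
  have m2 : K.h 2 ∈ K.F 4 := K.hF 2
  have d1 : K.S.Dom (K.h 1) (K.o i) := K.toCtx.dom_w m1 hu (by omega)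
  have d2 : K.S.Dom (K.h 2) (K.o i) := K.toCtx.dom_w m2 hu (by omega)
  rw [(K.toCtx.cgl hZ K.sqr hu (by omega) (by omega) (K.S.dom_mul_left d1 d2)).2,
    K.S.c_mul_left d1 d2, hZ _ _ _ _ m2 hu (by omega), add_zero] at h1
  rw [K.S.c_symm (K.S.dom_symm d1)]
  exact h1

theorem Z3 : K.Z (K.N + 3) := by
  have hN := K.hN
  have ho := K.hodd
  refine K.toCtx.lvl (W := K.N + 3) K.Z4 (by omega) ?_ ?_
  · intro a b ea eb ha hb h
    rcases (by omega : K.N % 4 = 1 ∨ K.N % 4 = 3) with h1 | h3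
    · exact K.toCtx.H_ee4 (W := K.N + 3) K.Z4 (by omega) (by omega) a b ea ha eb hb h
    · have h4 := (K.oc h3).H_g a b ea ha eb hb (by show a + b = K.N - 1; omega)
      rw [(K.oc h3).g_zero] at h4
      exact h4
  · intro i ei h
    exact K.B1 K.Z4 ei (by omega) (by omega) (by omega)

theorem dz : K.S.c (K.h (K.N - 2)) (K.h 0) = 0 := by
  have hN := K.hN
  have ho := K.hodd
  rcases (by omega : K.N % 4 = 1 ∨ K.N % 4 = 3) with h1 | h3
  · obtain ⟨z, hz⟩ : ∃ z, K.N = 2 * z + 3 := ⟨(K.N - 3) / 2, by omega⟩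
    have hx := K.hF z
    have hu : K.h 0 ∈ K.F 2 := K.hF 0
    have ha := K.toCtx.rh_odd6 z (by omega) (by omega)
    obtain ⟨_, e1⟩ := K.S.SQ (x := K.h z) (u := K.h 0) (K.toCtx.domq_w ha (by omega))
      (K.toCtx.dom_w ha hx (by omega))
    rw [K.toCtx.Q _ _ (by omega) ha, K.Z3 _ _ _ _ ha hx (by omega), add_zero] at e1
    have h2 : Cg K.S.D (K.h z * K.h z) (K.h (2 * z + 1)) :=
      K.toCtx.F_le_D (by omega) (K.sqh z)
    rw [(K.toCtx.cgD h2 (K.toCtx.dom_w (K.hF (2 * z + 1)) hu (by omega))).2] at e1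
    rwa [show K.N - 2 = 2 * z + 1 by omega]
  · have h4 := (K.oc h3).δ_zero
    have e : K.N - 2 = K.N - 1 - 1 := by omega
    rw [e]
    exact h4

theorem Z2 : K.Z (K.N + 2) := by
  have hN := K.hN
  have ho := K.hodd
  have H : ∀ a b, a + b + 4 = K.N + 2 → K.S.c (K.h a) (K.h b) = 0 := by
    intro a b h
    rcases Nat.eq_zero_or_pos a with rfl | ha
    · rw [K.toCtx.hsymm (by omega), show b = K.N - 2 by omega]
      exact K.dz
    rcases Nat.eq_zero_or_pos b with rfl | hb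
    · rw [show a = K.N - 2 by omega]
      exact K.dz
    rcases Nat.mod_two_eq_zero_or_one a with ea | ea <;>
      rcases Nat.mod_two_eq_zero_or_one b with eb | eb
    · omega
    · exact K.toCtx.H_eo K.Z3 (by omega) a b ea (by omega) eb h
    · rw [K.toCtx.hsymm (by omega)]
      exact K.toCtx.H_eo K.Z3 (by omega) b a eb (by omega) ea (by omega)
    · omega
  refine K.toCtx.close K.Z3 (by omega) ?_ ?_ H
  · intro i j ei ej h
    omega
  · have Bev : ∀ m i k, i = 2 * m + 1 → i + k + 2 = K.N + 2 →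
        K.S.c (K.o i) (K.h k) = 0 := by
      intro m
      induction m with
      | zero =>
        intro i k hi h
        exact K.toCtx.c_hD' (by omega) _
      | succ m ih =>
        intro i k hi h
        rcases Nat.eq_zero_or_pos k with rfl | hk
        · rw [show i = K.N by omega]
          exact K.ho0
        have h1 := K.toCtx.Brho (W := K.N + 2) (i := i - 2) (k := k) K.Z3 (by omega) (by omega)
          (by omega) (by omega) (by omega)
          (fun _ => by rw [show i - 2 + k = K.N - 2 by omega]; exact K.dz)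
        rw [show i - 2 + 2 = i by omega, ih (i - 2) (k + 2) (by omega) (by omega),
          H (i - 2) k (by omega), add_zero] at h1
        exact h1
    intro i k ei h
    exact Bev (i / 2) i k (by omega) h

theorem dd0 : K.S.c (K.h (K.N - 2)) (K.o 1) = 0 := by
  have hN := K.hN
  have ho := K.hodd
  have h1m : K.o 1 ∈ K.F 1 := K.oF 1 rfl
  have h3m : K.o 3 ∈ K.F 3 := K.oF 3 rfl
  have ha := K.cm _ _ _ _ h1m (K.hF (K.N - 3))
  have hc : Cg K.S.D (comm (K.o 1) (K.h (K.N - 3))) (K.h (1 + (K.N - 3))) :=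
    K.toCtx.F_le_D (by omega) (K.oh_even 1 (K.N - 3) rfl (by omega))
  rw [show 1 + (K.N - 3) = K.N - 2 by omega] at hc
  obtain ⟨_, h1⟩ := K.S.SQ (x := K.o 1) (u := K.h (K.N - 3)) (K.toCtx.domq_w ha (by omega))
    (K.toCtx.dom_w ha h1m (by omega))
  rw [K.sqo1, K.toCtx.Q _ _ (by omega) ha, zero_add,
    (K.toCtx.cgD hc (K.toCtx.dom_w (K.hF (K.N - 2)) h1m (by omega))).2,
    K.Z2 _ _ _ _ h3m (K.hF (K.N - 3)) (by omega)] at h1
  exact h1.symm

/-- the odd-odd pairs `B` at level `N+1` -/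
theorem Bodd (i k : ℕ) (ei : i % 2 = 1) (ek : k % 2 = 1) (h : i + k + 2 = K.N + 1) :
    K.S.c (K.o i) (K.h k) = 0 := by
  have hN := K.hN
  have ho := K.hodd
  by_cases hk3 : 3 ≤ k
  · have := K.toCtx.Bsig (W := K.N + 1) (i := i) (k := k - 1) K.Z2 (by omega) ei (by omega)
      (by omega) (by omega) (fun _ => by rw [show i + (k - 1) = K.N - 2 by omega]; exact K.dd0)
    rwa [show k - 1 + 1 = k by omega] at this
  · have : k = 1 := by omega
    subst this
    exact K.B1 K.Z2 ei (by omega) (by omega) (by omega)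

theorem A_const (i j : ℕ) (ei : i % 2 = 1) (ej : j % 2 = 1) (h : i + j = K.N + 1) :
    K.S.c (K.o i) (K.o j) = K.S.c (K.o K.N) (K.o 1) := by
  have hN := K.hN
  have ho := K.hodd
  have key : ∀ m i j : ℕ, j = 2 * m + 1 → i % 2 = 1 → i + j = K.N + 1 →
      K.S.c (K.o i) (K.o j) = K.S.c (K.o K.N) (K.o 1) := by
    intro m
    induction m with
    | zero =>
      intro i j hj ei h
      rw [show i = K.N by omega, show j = 1 by omega]
    | succ m ih =>
      intro i j hj ei h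
      have hp : K.S.c (comm (K.o i) (K.o (j - 2))) (K.h 0) = 0 :=
        K.Z2 _ _ _ _ (K.oo i (j - 2) ei (by omega)) (K.hF 0) (by omega)
      have h1 := K.toCtx.Arho (W := K.N + 1) (i := i) (j := j - 2) K.Z2 (by omega) ei (by omega)
        (by omega) hp
      rw [show j - 2 + 2 = j by omega, K.Bodd (j - 2) i (by omega) ei (by omega),
        K.Bodd i (j - 2) ei (by omega) (by omega), add_zero, add_zero,
        ih (i + 2) (j - 2) (by omega) (by omega) (by omega)] at h1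
      exact (Ctx.eq_of_add h1).symm
  exact key (j / 2) i j (by omega) ei h

theorem A_zero : K.S.c (K.o K.N) (K.o 1) = 0 := by
  have hN := K.hN
  have ho := K.hodd
  rcases (by omega : K.N % 4 = 1 ∨ K.N % 4 = 3) with h1 | h3
  · obtain ⟨m, hm⟩ : ∃ m, K.N = 4 * m + 1 := ⟨K.N / 4, by omega⟩
    rw [← K.A_const (2 * m + 1) (2 * m + 1) (by omega) (by omega) (by omega)]
    exact K.S.c_self _
  · obtain ⟨q, hq⟩ : ∃ q, K.N = 4 * q + 3 := ⟨K.N / 4, by omega⟩
    have hqM : (K.oc h3).M = 4 * q + 2 := by show K.N - 1 = 4 * q + 2; omega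
    -- the square form of `h (2q+1)`
    have hqq : K.S.q (K.h (2 * q + 1)) = 0 := by
      have h4 := (K.oc h3).O4 q hqM
      rw [(K.oc h3).g_zero, mul_zero, add_zero] at h4
      have h5 : (K.oc h3).dd = 0 := by
        have := K.dd0
        rw [show K.N - 2 = K.N - 1 - 1 by omega] at this
        exact this
      rw [h5] at h4
      exact h4.symm
    have hB : K.S.Dom (K.o (2 * q - 1)) (K.h (2 * q + 1)) ∧
        K.S.c (K.o (2 * q - 1)) (K.h (2 * q + 1)) = 0 := by
      have hMN : K.N = K.N - 1 + 1 := by omega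
      exact (K.oc h3).Bsq (2 * q - 1) q (by omega) (by show K.N + 1 ≤ _; omega)
        (by show K.N + 7 ≤ _; omega) (by show K.N - 1 + 5 ≤ _; omega)
        (by show K.N - 1 + 5 ≤ _; omega) (fun _ => by show K.N + 1 ≤ _; omega) (fun ey => by
          have hd : K.S.Dom (K.h (2 * q - 1 + q)) (K.h q) := K.toCtx.mem_D (K.hh _ _) (by omega)
          have h5 := (K.oc h3).K2 q (2 * q - 1 + q) ey (by omega) (by omega) (by omega)
            (by rw [hqM]; omega)
          have h6 := K.S.c_symm hd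
          exact h6.trans h5)
    obtain ⟨dB, cB⟩ := hB
    have hx := K.oF (2 * q - 1) (by omega)
    have hu : K.h 2 ∈ K.F 4 := K.hF 2
    have hk := K.ko (2 * q - 1) (by omega) (by omega)
    rw [show 2 * q - 1 + 2 = 2 * q + 1 by omega, show 2 * q - 1 + 6 = 2 * q + 5 by omega,
      show 2 * q - 1 + 5 = 2 * q + 4 by omega, show 2 * q - 1 + 8 = 2 * q + 7 by omega] at hk
    have m1 : K.h (2 * q + 1) ∈ K.F (2 * q + 3) := K.hF _
    have m2 : K.o (2 * q + 5) ∈ K.F (2 * q + 5) := K.oF _ (by omega)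
    have m3 : K.h (2 * q + 4) ∈ K.F (2 * q + 6) := K.hF _
    have m12 : K.h (2 * q + 1) * K.o (2 * q + 5) ∈ K.F (2 * q + 3) :=
      (K.F _).mul_mem m1 (K.toCtx.up m2 (by omega))
    have m123 : K.h (2 * q + 1) * K.o (2 * q + 5) * K.h (2 * q + 4) ∈ K.F (2 * q + 3) :=
      (K.F _).mul_mem m12 (K.toCtx.up m3 (by omega))
    have ha : comm (K.o (2 * q - 1)) (K.h 2) ∈ K.F (2 * q + 3) :=
      hk.mem_of_mem (K.anti _ _ (by omega)) m123
    -- c of x²
    have hxx : K.o (2 * q - 1) * K.o (2 * q - 1) ∈ K.S.D :=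
      K.toCtx.mem_D (K.sqo _ (by omega)) (by omega)
    have d1 : K.S.Dom (K.h (2 * q + 1)) (K.o (2 * q - 1)) := K.S.dom_symm dB
    have d2 : K.S.Dom (K.o (2 * q + 5)) (K.o (2 * q - 1)) := K.toCtx.dom_w m2 hx (by omega)
    have d3 : K.S.Dom (K.h (2 * q + 4)) (K.o (2 * q - 1)) := K.toCtx.dom_w m3 hx (by omega)
    obtain ⟨da, h2⟩ := K.toCtx.cgl K.Z2 hk hx (by omega) (by omega)
      (K.S.dom_mul_left (K.S.dom_mul_left d1 d2) d3)
    rw [K.S.c_mul_left (K.S.dom_mul_left d1 d2) d3, K.S.c_mul_left d1 d2, K.S.c_symm d1, cB,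
      K.A_const (2 * q + 5) (2 * q - 1) (by omega) (by omega) (by omega),
      K.Z2 _ _ _ _ m3 hx (by omega), zero_add, add_zero] at h2
    obtain ⟨_, h4⟩ := K.S.SQ (x := K.o (2 * q - 1)) (u := K.h 2) (K.toCtx.domq_w ha (by omega)) da
    have h5 := (K.oc h3).q_cg (m := 2 * q + 7) (n := 2 * q + 3) hk m123
      (by show K.N + 7 ≤ _; omega) (by show K.N - 1 + 5 ≤ _; omega)
      (K.toCtx.domq_w m123 (by omega))
    have h6 : K.S.q (K.h (2 * q + 1) * K.o (2 * q + 5) * K.h (2 * q + 4)) = 0 := by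
      rw [K.S.q_mul (K.toCtx.domq_w m12 (by omega)) (K.toCtx.domq_w m3 (by omega))
        (K.toCtx.dom_w m12 m3 (by omega)), K.toCtx.Q _ _ (by omega) m3,
        K.Z2 _ _ _ _ m12 m3 (by omega), add_zero, add_zero,
        K.S.q_mul (K.toCtx.domq_w m1 (by omega)) (K.toCtx.domq_w m2 (by omega))
        (K.toCtx.dom_w m1 m2 (by omega)), K.toCtx.Q _ _ (by omega) m2,
        K.Z2 _ _ _ _ m1 m2 (by omega), add_zero, add_zero, hqq]
    have h7 : K.S.q (comm (K.o (2 * q - 1)) (K.h 2)) = 0 := h5.trans h6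
    rw [K.S.c_mem hxx, h7, zero_add, h2] at h4
    exact h4.symm

/-- `c` vanishes on `F N × G` -/
theorem c_zero (v y : G) (hv : v ∈ K.F K.N) : K.S.c v y = 0 := by
  have hN := K.hN
  have ho := K.hodd
  have h1m : K.o 1 ∈ K.F 1 := K.oF 1 rfl
  have hy := K.top y
  have hh : K.h (K.N - 2) ∈ K.F K.N := K.toCtx.hW (by omega)
  have hoN := K.oF K.N ho
  refine K.toCtx.c_gen (W := K.N + 1) K.Z2 (by omega) (by omega) rfl hv hy (fun _ => ?_)
    (fun _ => ?_)
  · rw [K.S.c_symm (K.toCtx.dom_w hoN hy (by omega))]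
    refine K.toCtx.c_gen (W := K.N + 1) (n := 1) K.Z2 (by omega) (by omega) (by omega) hy hoN
      (fun _ => ?_) (fun h => by omega)
    rw [K.S.c_symm (K.toCtx.dom_w h1m hoN (by omega))]
    exact K.A_zero
  · rw [K.S.c_symm (K.toCtx.dom_w hh hy (by omega))]
    refine K.toCtx.c_gen (W := K.N + 1) (n := 1) K.Z2 (by omega) (by omega) (by omega) hy hh
      (fun _ => ?_) (fun h => by omega)
    rw [K.S.c_symm (K.toCtx.dom_w h1m hh (by omega))]
    exact K.dd0

end OddCtx

end Pool.Agent.Nott
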