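import Pool.Agent.Nott.Basic
import Pool.Agent.Nott.Facts
import Pool.Agent.Nott.FreePro

/-! # The topology of the Nottingham group, index and topological generation -/

open PowerSeries

namespace Pool.Agent.Nott

/-- the coefficients of a series as a function -/
noncomputable def cf (f : J) : ℕ → ZMod 2 := fun n => coeff n f.ser

noncomputable instance : TopologicalSpace J := TopologicalSpace.induced cf inferInstance

theorem cf_continuous : Continuous cf := continuous_induced_dom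

theorem cf_injective : Function.Injective cf := fun f g h => by
  apply J.ext
  ext n
  exact congrFun h n

instance : T2Space J := T2Space.of_injective_continuous cf_injective cf_continuous

theorem continuous_coeff (n : ℕ) : Continuous fun f : J => coeff n f.ser :=
  (continuous_apply n).comp cf_continuous

theorem cf_range : Set.range cf = {x : ℕ → ZMod 2 | x 0 = 0 ∧ x 1 = 1} := by
  ext x
  constructor
  · rintro ⟨f, rfl⟩
    exact ⟨f.c0, f.c1⟩
  · rintro ⟨h0, h1⟩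
    exact ⟨⟨mk x, by rw [coeff_mk]; exact h0, by rw [coeff_mk]; exact h1⟩, by
      funext n; simp [cf]⟩

theorem cf_closedEmbedding : Topology.IsClosedEmbedding cf := by
  refine ⟨⟨⟨rfl⟩, cf_injective⟩, ?_⟩
  rw [cf_range]
  have h0 : IsClosed {x : ℕ → ZMod 2 | x 0 = 0} :=
    isClosed_eq (continuous_apply 0) continuous_const
  have h1 : IsClosed {x : ℕ → ZMod 2 | x 1 = 1} :=
    isClosed_eq (continuous_apply 1) continuous_const
  exact h0.inter h1

instance : CompactSpace J := cf_closedEmbedding.compactSpace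

/-- congruence of series modulo `X ^ (n + 1)` -/
def Eqm (n : ℕ) (a b : R) : Prop := ∀ m ≤ n, coeff m a = coeff m b

theorem eqm_iff {n : ℕ} {a b : R} : Eqm n a b ↔ X ^ (n + 1) ∣ a - b := by
  rw [X_pow_dvd_iff]
  constructor
  · intro h m hm
    rw [map_sub, h m (by omega), sub_self]
  · intro h m hm
    have := h m (by omega)
    rw [map_sub, sub_eq_zero] at this
    exact this

theorem Eqm.subst {n : ℕ} {a b : R} {f g : J} (hab : Eqm n a b) (hfg : Eqm n f.ser g.ser) :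
    Eqm n (a.subst f.ser) (b.subst g.ser) := by
  rw [eqm_iff] at *
  have h1 : X ^ (n + 1) ∣ a.subst f.ser - b.subst f.ser := by
    obtain ⟨c, hc⟩ := hab
    have : a.subst f.ser - b.subst f.ser = f.ser ^ (n + 1) * c.subst f.ser := by
      rw [← sub_apply, ← sub_apply, ← sub_apply, ← map_sub, hc, map_mul, map_pow, sub_X]
    rw [this]
    exact Dvd.dvd.mul_right (pow_dvd_pow_of_dvd (X_dvd_iff.mpr f.cc) _) _
  have h2 : X ^ (n + 1) ∣ b.subst f.ser - b.subst g.ser := by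
    rw [X_pow_dvd_iff]
    intro m hm
    rw [map_sub, coeff_subst' f.hs, coeff_subst' g.hs, sub_eq_zero]
    apply finsum_congr
    intro d
    congr 1
    have h3 : X ^ (n + 1) ∣ f.ser ^ d - g.ser ^ d := hfg.trans (sub_dvd_pow_sub_pow _ _ _)
    have := (X_pow_dvd_iff.mp h3) m hm
    rwa [map_sub, sub_eq_zero] at this
  have h3 := dvd_add h1 h2
  rwa [sub_add_sub_cancel] at h3

/-- a set which is determined locally by finitely many coefficients is open -/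
theorem isOpen_of {U : Set J} (h : ∀ f ∈ U, ∃ n, ∀ g : J, Eqm n g.ser f.ser → g ∈ U) :
    IsOpen U := by
  rw [isOpen_iff_mem_nhds]
  intro f hf
  obtain ⟨n, hn⟩ := h f hf
  have hV : IsOpen {g : J | ∀ m ∈ Finset.range (n + 1), coeff m g.ser = coeff m f.ser} := by
    have : {g : J | ∀ m ∈ Finset.range (n + 1), coeff m g.ser = coeff m f.ser} =
        ⋂ m ∈ Finset.range (n + 1), {g : J | coeff m g.ser = coeff m f.ser} := by
      ext g; simp
    rw [this]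
    exact isOpen_biInter_finset fun m _ =>
      (isOpen_discrete ({coeff m f.ser} : Set (ZMod 2))).preimage (continuous_coeff m)
  refine Filter.mem_of_superset (hV.mem_nhds (fun m _ => rfl)) fun g hg => hn g fun m hm => ?_
  exact hg m (Finset.mem_range.mpr (by omega))

theorem exists_of_isOpen {U : Set J} (hU : IsOpen U) {f : J} (hf : f ∈ U) :
    ∃ n, ∀ g : J, Eqm n g.ser f.ser → g ∈ U := by
  obtain ⟨V, hV, rfl⟩ := isOpen_induced_iff.mp hU
  obtain ⟨I, u, hu, hsub⟩ := isOpen_pi_iff.mp hV _ hf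
  refine ⟨I.sup id, fun g hg => hsub ?_⟩
  intro i hi
  have : cf g i = cf f i := hg i (Finset.le_sup (f := id) hi)
  show cf g i ∈ u i
  rw [this]
  exact (hu i hi).2

theorem continuous_of {T : Type} [TopologicalSpace T] {φ : T → J}
    (h : ∀ t n, ∃ V : Set T, IsOpen V ∧ t ∈ V ∧ ∀ t' ∈ V, Eqm n (φ t').ser (φ t).ser) :
    Continuous φ := by
  rw [continuous_def]
  intro U hU
  rw [isOpen_iff_mem_nhds]
  intro t ht
  obtain ⟨n, hn⟩ := exists_of_isOpen hU ht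
  obtain ⟨V, hV, htV, hsub⟩ := h t n
  exact Filter.mem_of_superset (hV.mem_nhds htV) fun t' ht' => hn _ (hsub t' ht')

theorem isOpen_eqm (n : ℕ) (f : J) : IsOpen {g : J | Eqm n g.ser f.ser} :=
  isOpen_of fun _ hg => ⟨n, fun _ hg' m hm => (hg' m hm).trans (hg m hm)⟩

theorem eqm_inv {n : ℕ} {f g : J} (h : Eqm n g.ser f.ser) : Eqm n (g⁻¹).ser (f⁻¹).ser := by
  -- `g⁻¹ = f⁻¹ * (g * f⁻¹)⁻¹ ...`
  have h1 : Eqm n (g * f⁻¹).ser (1 : J).ser := by
    have h2 : Eqm n (g.ser.subst (f⁻¹).ser) (f.ser.subst (f⁻¹).ser) :=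
      Eqm.subst h (fun m _ => rfl)
    have h3 : f.ser.subst (f⁻¹).ser = (1 : J).ser := by
      rw [← mul_ser, mul_inv_cancel]
    rw [h3] at h2
    exact h2
  have h4 : Eqm n (g⁻¹ * (g * f⁻¹)).ser (g⁻¹ * 1).ser := by
    rw [mul_ser, mul_ser]
    exact Eqm.subst (f := g * f⁻¹) (g := 1) (fun m _ => rfl) h1
  rw [inv_mul_cancel_left, mul_one] at h4
  exact fun m hm => (h4 m hm).symm

instance : IsTopologicalGroup J where
  continuous_mul := continuous_of fun t n =>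
    ⟨{g : J | Eqm n g.ser t.1.ser} ×ˢ {g : J | Eqm n g.ser t.2.ser},
      (isOpen_eqm n _).prod (isOpen_eqm n _), ⟨fun _ _ => rfl, fun _ _ => rfl⟩,
      fun _ ht' => Eqm.subst ht'.1 ht'.2⟩
  continuous_inv := continuous_of fun t n =>
    ⟨{g : J | Eqm n g.ser t.ser}, isOpen_eqm n _, fun _ _ => rfl, fun _ ht' => eqm_inv ht'⟩

theorem isOpen_inF (n : ℕ) : IsOpen {f : J | inF n f} := by
  refine isOpen_of fun f hf => ⟨2 * n + 1, fun g hg => ⟨?_, ?_⟩⟩
  · rw [X_pow_dvd_iff]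
    intro m hm
    have h1 := (X_pow_dvd_iff.mp hf.1) m hm
    rw [map_add] at h1 ⊢
    rw [hg m (by omega)]
    exact h1
  · rw [X_pow_dvd_iff]
    intro m hm
    have h1 := (X_pow_dvd_iff.mp hf.2) m hm
    rw [map_add] at h1 ⊢
    rw [w, coeff_od] at h1 ⊢
    rw [hg _ (by omega)]
    exact h1

theorem exists_inF_subset {U : Set J} (hU : IsOpen U) (h1 : (1 : J) ∈ U) :
    ∃ n, ∀ f : J, inF n f → f ∈ U := by
  obtain ⟨n, hn⟩ := exists_of_isOpen hU h1
  refine ⟨n, fun f hf => hn f ?_⟩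
  rw [eqm_iff, sub_eq, one_ser]
  exact hf.1

theorem Fil_open (n : ℕ) : IsOpen {f : J | inF n f} := isOpen_inF n

theorem Fil_basis (U : Set J) (hU : IsOpen U) (h1 : (1 : J) ∈ U) :
    ∃ n, {f : J | inF n f} ⊆ U := by
  obtain ⟨n, hn⟩ := exists_inF_subset hU h1
  exact ⟨n, fun f hf => hn f hf⟩

theorem J_nhds_basis : (nhds (1 : J)).HasBasis (fun _ : ℕ => True)
    (fun k => {f : J | X ^ (k + 1) ∣ f.ser - X}) := by
  have key : ∀ k, {f : J | X ^ (k + 1) ∣ f.ser - X} = {f : J | Eqm k f.ser (1 : J).ser} := by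
    intro k
    ext f
    rw [Set.mem_ofPred_eq, Set.mem_ofPred_eq, eqm_iff, one_ser]
  constructor
  intro U
  constructor
  · intro hU
    obtain ⟨V, hVU, hV, h1⟩ := mem_nhds_iff.mp hU
    obtain ⟨n, hn⟩ := exists_of_isOpen hV h1
    refine ⟨n, trivial, ?_⟩
    rw [key]
    exact fun f hf => hVU (hn f hf)
  · rintro ⟨k, -, hk⟩
    rw [key] at hk
    exact Filter.mem_of_superset ((isOpen_eqm k 1).mem_nhds (fun m _ => rfl)) hk

/-- the congruence subgroups -/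
def Jk (k : ℕ) : Subgroup J where
  carrier := {f | Eqm k f.ser (1 : J).ser}
  one_mem' := fun _ _ => rfl
  mul_mem' := fun {f g} hf hg => by
    have := Eqm.subst (a := f.ser) (b := (1 : J).ser) (f := g) (g := 1) hf hg
    rwa [← mul_ser, ← mul_ser, mul_one] at this
  inv_mem' := fun {f} hf => by
    have := eqm_inv (n := k) (f := 1) (g := f) hf
    rwa [inv_one] at this

theorem Jk_normal (k : ℕ) : (Jk k).Normal := by
  constructor
  intro f hf g
  have h1 : Eqm k (f * g⁻¹).ser (1 * g⁻¹).ser := by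
    rw [mul_ser, mul_ser]
    exact Eqm.subst (f := g⁻¹) (g := g⁻¹) hf (fun _ _ => rfl)
  have h2 : Eqm k (g * (f * g⁻¹)).ser (g * (1 * g⁻¹)).ser := by
    rw [mul_ser, mul_ser g]
    exact Eqm.subst (f := f * g⁻¹) (g := 1 * g⁻¹) (fun _ _ => rfl) h1
  rw [one_mul, mul_inv_cancel, ← mul_assoc] at h2
  exact h2

theorem Jk_open (k : ℕ) : IsOpen (Jk k : Set J) := isOpen_eqm k 1

theorem Jk_one (f : J) : f ∈ Jk 1 := by
  intro m hm
  rcases m with _ | _ | m
  · rw [f.c0, (1 : J).c0]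
  · rw [f.c1, (1 : J).c1]
  · omega

theorem Jk_sq {k : ℕ} (hk : 1 ≤ k) {f : J} (hf : f ∈ Jk k) : f * f ∈ Jk (k + 1) := by
  have hf' : X ^ (k + 1) ∣ f.ser + X := by
    have := eqm_iff.mp hf
    rwa [sub_eq] at this
  obtain ⟨c, hc⟩ := hf'
  obtain ⟨u, hu⟩ := X_dvd_iff.mpr f.cc
  have hu1 : constantCoeff u = 1 := by
    have h1 := f.c1
    rw [hu, show (1 : ℕ) = 0 + 1 from rfl, coeff_succ_X_mul] at h1
    simpa using h1
  have hser : f.ser = X + X ^ (k + 1) * c := by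
    rw [← hc, add_comm X, add_assoc, add_self, add_zero]
  show Eqm (k + 1) (f * f).ser (1 : J).ser
  rw [eqm_iff, sub_eq, one_ser]
  have h2 : (f * f).ser = f.ser + f.ser ^ (k + 1) * sub f c := by
    rw [mul_ser']
    conv_lhs => rw [hser]
    rw [map_add, map_mul, map_pow, sub_X]
  have h3 : (f * f).ser + X = X ^ (k + 1) * (c + u ^ (k + 1) * sub f c) := by
    rw [h2]
    have h4 : f.ser ^ (k + 1) = X ^ (k + 1) * u ^ (k + 1) := by rw [← mul_pow, ← hu]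
    rw [h4]
    have h5 : f.ser + X ^ (k + 1) * u ^ (k + 1) * sub f c + X =
        (f.ser + X) + X ^ (k + 1) * u ^ (k + 1) * sub f c := by ring
    rw [h5, hc]
    ring
  rw [h3, pow_succ]
  refine mul_dvd_mul_left _ (X_dvd_iff.mpr ?_)
  rw [map_add, map_mul, map_pow, hu1, one_pow, one_mul]
  have h6 : constantCoeff (sub f c) = constantCoeff c := by
    have h7 : X ∣ c - C (constantCoeff c) := by
      rw [X_dvd_iff, map_sub, constantCoeff_C, sub_self]
    obtain ⟨e, he⟩ := h7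
    have h8 : c = C (constantCoeff c) + X * e := by rw [← he]; ring
    conv_lhs => rw [h8]
    have h9 : sub f (C (constantCoeff c)) = C (constantCoeff c) :=
      (substAlgHom f.hs : R →ₐ[ZMod 2] R).commutes (constantCoeff c)
    rw [map_add, map_mul, sub_X, map_add, map_mul, f.cc, zero_mul, add_zero, h9,
      constantCoeff_C]
  rw [h6]
  exact CharTwo.add_self_eq_zero _

theorem Jk_pow (f : J) (m : ℕ) : f ^ 2 ^ m ∈ Jk (m + 1) := by
  induction m with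
  | zero => rw [pow_zero, pow_one]; exact Jk_one f
  | succ m ih =>
    have h1 : f ^ 2 ^ (m + 1) = f ^ 2 ^ m * f ^ 2 ^ m := by
      rw [← pow_add, ← two_mul, ← pow_succ']
    rw [h1]
    exact Jk_sq (by omega) ih

theorem Jk_anti {m n : ℕ} (h : m ≤ n) : Jk n ≤ Jk m := fun _ hf i hi => hf i (by omega)

theorem Jk_index (k : ℕ) : ∃ r, (Jk k).index = 2 ^ r := by
  have hn := Jk_normal k
  have hfin : Finite (J ⧸ Jk k) := (Jk k).quotient_finite_of_isOpen (Jk_open k)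
  have hp : IsPGroup 2 (J ⧸ Jk k) := by
    intro q
    obtain ⟨x, rfl⟩ := QuotientGroup.mk_surjective q
    refine ⟨k, ?_⟩
    rw [← QuotientGroup.mk_pow, QuotientGroup.eq_one_iff]
    exact Jk_anti (by omega) (Jk_pow x k)
  have : Fact (Nat.Prime 2) := ⟨Nat.prime_two⟩
  obtain ⟨r, hr⟩ := (IsPGroup.iff_card (p := 2)).mp hp
  exact ⟨r, hr⟩

theorem J_isPro2 : IsPro2 J where
  tg := inferInstance
  comp := inferInstance
  t2 := inferInstance
  basis := fun U hU h1 => by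
    obtain ⟨n, hn⟩ := exists_of_isOpen hU h1
    exact ⟨Jk n, Jk_normal n, Jk_open n, Jk_index n, fun f hf => hn f hf⟩

/-! ## Index and generation from the list of facts -/

section Abstract

variable {G : Type} [Group G] (Φ : Facts G)

theorem Facts.sq_mem_two (x : G) : x * x ∈ Φ.F 2 := by
  obtain ⟨a, ha⟩ := Φ.gen_one x
  have hn := Φ.nor 2
  unfold Cg at ha
  set y := Φ.o 1 ^ a with hy
  have hyy : y * y ∈ Φ.F 2 := by
    have h1 : y * y = (Φ.o 1 * Φ.o 1) ^ a := by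
      rw [hy, ← pow_add, ← two_mul, pow_mul, pow_two]
    rw [h1, Φ.sqo1]
    exact (Φ.F 2).pow_mem (Φ.anti 2 3 (by norm_num) (Φ.oF 3 rfl)) _
  have h2 : x * x = (y * y) * (y⁻¹ * (y⁻¹ * x) * y⁻¹⁻¹) * (y⁻¹ * x) := by group
  rw [h2]
  exact (Φ.F 2).mul_mem ((Φ.F 2).mul_mem hyy (hn.conj_mem _ ha _)) ha

theorem Facts.pow_mem (x : G) (n : ℕ) : x ^ 2 ^ (n + 1) ∈ Φ.F (n + 2) := by
  induction n with
  | zero =>
    have : x ^ 2 ^ (0 + 1) = x * x := by rw [zero_add, pow_one, pow_two]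
    rw [this]
    exact Φ.sq_mem_two x
  | succ n ih =>
    have h1 : x ^ 2 ^ (n + 1 + 1) = x ^ 2 ^ (n + 1) * x ^ 2 ^ (n + 1) := by
      rw [← pow_add, ← two_mul, ← pow_succ']
    rw [h1]
    exact Φ.anti _ _ (by omega) (Φ.sq _ _ ih)

theorem Facts.index_eq (n : ℕ) (hf : (Φ.F n).FiniteIndex) : ∃ k, (Φ.F n).index = 2 ^ k := by
  have hn := Φ.nor n
  have hfin : Finite (G ⧸ Φ.F n) := by
    exact Subgroup.finite_quotient_of_finiteIndex
  have hp : IsPGroup 2 (G ⧸ Φ.F n) := by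
    intro q
    obtain ⟨x, rfl⟩ := QuotientGroup.mk_surjective q
    refine ⟨n + 1, ?_⟩
    rw [← QuotientGroup.mk_pow, QuotientGroup.eq_one_iff]
    exact Φ.anti _ _ (by omega) (Φ.pow_mem x n)
  have : Fact (Nat.Prime 2) := ⟨Nat.prime_two⟩
  obtain ⟨k, hk⟩ := (IsPGroup.iff_card (p := 2)).mp hp
  exact ⟨k, hk⟩

/-- the subgroup generated by `o 1`, `h 0` and `h 2` -/
def Facts.gens : Subgroup G := Subgroup.closure {Φ.o 1, Φ.h 0, Φ.h 2}

theorem Facts.o1_mem : Φ.o 1 ∈ Φ.gens := Subgroup.subset_closure (by simp)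
theorem Facts.h0_mem : Φ.h 0 ∈ Φ.gens := Subgroup.subset_closure (by simp)
theorem Facts.h2_mem : Φ.h 2 ∈ Φ.gens := Subgroup.subset_closure (by simp)

/-- `x` is congruent to an element of `gens` modulo `F n` -/
def Facts.Ap (n : ℕ) (x : G) : Prop := ∃ s ∈ Φ.gens, Cg (Φ.F n) x s

theorem Facts.ap_of_mem {n : ℕ} {x : G} (h : x ∈ Φ.gens) : Φ.Ap n x :=
  ⟨x, h, by unfold Cg; rw [inv_mul_cancel]; exact (Φ.F n).one_mem⟩

theorem Facts.ap_of_F {n : ℕ} {x : G} (h : x ∈ Φ.F n) : Φ.Ap n x :=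
  ⟨1, Φ.gens.one_mem, by unfold Cg; rw [inv_one, one_mul]; exact h⟩

theorem Facts.ap_mono {m n : ℕ} {x : G} (h : Φ.Ap n x) (hmn : m ≤ n) : Φ.Ap m x := by
  obtain ⟨s, hs, hx⟩ := h
  exact ⟨s, hs, Φ.anti _ _ hmn hx⟩

theorem Facts.ap_mul {n : ℕ} {x y : G} (hx : Φ.Ap n x) (hy : Φ.Ap n y) : Φ.Ap n (x * y) := by
  obtain ⟨s, hs, hx⟩ := hx
  obtain ⟨t, ht, hy⟩ := hy
  refine ⟨s * t, Φ.gens.mul_mem hs ht, ?_⟩
  unfold Cg at *
  have hn := Φ.nor n
  have : (s * t)⁻¹ * (x * y) = (t⁻¹ * (s⁻¹ * x) * t⁻¹⁻¹) * (t⁻¹ * y) := by group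
  rw [this]
  exact (Φ.F n).mul_mem (hn.conj_mem _ hx _) hy

theorem Facts.ap_inv {n : ℕ} {x : G} (hx : Φ.Ap n x) : Φ.Ap n x⁻¹ := by
  obtain ⟨s, hs, hx⟩ := hx
  refine ⟨s⁻¹, Φ.gens.inv_mem hs, ?_⟩
  unfold Cg at *
  have hn := Φ.nor n
  have : s⁻¹⁻¹ * x⁻¹ = (x * (s⁻¹ * x)⁻¹ * x⁻¹) := by group
  rw [this]
  exact hn.conj_mem _ ((Φ.F n).inv_mem hx) _

theorem Facts.ap_pow {n : ℕ} {x : G} (hx : Φ.Ap n x) (a : ℕ) : Φ.Ap n (x ^ a) := by
  induction a with
  | zero => rw [pow_zero]; exact Φ.ap_of_mem Φ.gens.one_mem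
  | succ a ih => rw [pow_succ]; exact Φ.ap_mul ih hx

theorem Facts.ap_cg {n : ℕ} {x y : G} (h : Cg (Φ.F n) x y) (hy : Φ.Ap n y) : Φ.Ap n x := by
  have : x = y * (y⁻¹ * x) := by group
  rw [this]
  exact Φ.ap_mul hy (Φ.ap_of_F h)

theorem Facts.ap_cg' {n : ℕ} {x y : G} (h : Cg (Φ.F n) x y) (hx : Φ.Ap n x) : Φ.Ap n y := by
  have : y = x * (y⁻¹ * x)⁻¹ := by group
  rw [this]
  exact Φ.ap_mul hx (Φ.ap_inv (Φ.ap_of_F h))

/-- cancel a factor -/
theorem Facts.ap_left {n : ℕ} {x y : G} (h : Φ.Ap n (x * y)) (hy : Φ.Ap n y) : Φ.Ap n x := by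
  have : x = x * y * y⁻¹ := by group
  rw [this]
  exact Φ.ap_mul h (Φ.ap_inv hy)

theorem Facts.ap_comm {n : ℕ} {x y : G} (hx : Φ.Ap n x) (hy : y ∈ Φ.gens) :
    Φ.Ap (n + 1) (comm x y) := by
  obtain ⟨s, hs, hx⟩ := hx
  unfold Cg at hx
  set f := s⁻¹ * x with hf
  have hxs : x = s * f := by rw [hf]; group
  -- [s f, y] = f⁻¹ [s,y] f [f,y]
  have h1 : comm x y = comm s y * comm (comm s y) f * comm f y := by
    rw [hxs]; unfold comm; group
  rw [h1]
  have h2 : Φ.Ap (n + 1) (comm s y) := Φ.ap_of_mem (by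
    unfold comm
    exact Φ.gens.mul_mem (Φ.gens.mul_mem (Φ.gens.mul_mem (Φ.gens.inv_mem hs) (Φ.gens.inv_mem hy))
      hs) hy)
  have h3 : Φ.Ap (n + 1) (comm (comm s y) f) := Φ.ap_of_F (by
    have := Φ.cm 1 n _ _ (Φ.top (comm s y)) hx
    rwa [add_comm] at this)
  have h4 : Φ.Ap (n + 1) (comm f y) := Φ.ap_of_F (Φ.cm n 1 _ _ hx (Φ.top y))
  exact Φ.ap_mul (Φ.ap_mul h2 h3) h4

theorem Facts.ap_all (n : ℕ) : ∀ x, Φ.Ap (n + 1) x := by
  induction n with
  | zero => exact fun x => Φ.ap_of_F (Φ.top x)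
  | succ n ih =>
    -- level `n + 1 → n + 2`; it is enough to treat the generators of `F (n+1)`
    have red : (∀ x ∈ Φ.F (n + 1), Φ.Ap (n + 2) x) → ∀ x, Φ.Ap (n + 2) x := by
      intro hF x
      obtain ⟨s, hs, hx⟩ := ih x
      have : x = s * (s⁻¹ * x) := by group
      rw [this]
      exact Φ.ap_mul (Φ.ap_of_mem hs) (hF _ hx)
    apply red
    rcases n with _ | _ | _ | _ | n
    · -- F 1 / F 2
      intro x _
      obtain ⟨a, ha⟩ := Φ.gen_one x
      exact Φ.ap_cg ha (Φ.ap_pow (Φ.ap_of_mem Φ.o1_mem) a)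
    · -- F 2 / F 3
      intro x hx
      obtain ⟨b, hb⟩ := Φ.gen_even 2 x rfl le_rfl hx
      exact Φ.ap_cg hb (Φ.ap_pow (Φ.ap_of_mem Φ.h0_mem) b)
    · -- F 3 / F 4
      intro x hx
      obtain ⟨a, b, hb⟩ := Φ.gen_odd 3 x rfl le_rfl hx
      refine Φ.ap_cg hb (Φ.ap_mul (Φ.ap_pow ?_ a) (Φ.ap_pow ?_ b))
      · rw [← Φ.sqo1]
        exact Φ.ap_mul (Φ.ap_of_mem Φ.o1_mem) (Φ.ap_of_mem Φ.o1_mem)
      · show Φ.Ap 4 (Φ.h 1)
        have h1 := Φ.ap_cg' (n := 4) (Φ.anti 4 5 (by norm_num) Φ.sqr)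
          (Φ.ap_mul (Φ.ap_of_mem Φ.h0_mem) (Φ.ap_of_mem Φ.h0_mem))
        exact Φ.ap_left h1 (Φ.ap_of_mem Φ.h2_mem)
    · -- F 4 / F 5
      intro x hx
      obtain ⟨b, hb⟩ := Φ.gen_even 4 x rfl (by norm_num) hx
      exact Φ.ap_cg hb (Φ.ap_pow (Φ.ap_of_mem Φ.h2_mem) b)
    · -- F (n + 5) / F (n + 6)
      intro x hx
      -- the generator `h (n + 3)`
      have hh : Φ.Ap (n + 6) (Φ.h (n + 3)) := by
        rcases Nat.even_or_odd n with hn | hn
        · -- n even: `n + 2` even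
          have h1 := Φ.sh_even (n + 2) (by obtain ⟨k, rfl⟩ := hn; omega) (by omega)
          exact Φ.ap_cg' h1 (Φ.ap_comm (ih _) Φ.o1_mem)
        · obtain ⟨e, he⟩ := Φ.rh_even (n + 1) (by obtain ⟨k, rfl⟩ := hn; omega)
            (by obtain ⟨k, rfl⟩ := hn; omega)
          have h1 : Φ.Ap (n + 6) (Φ.h (n + 3) * Φ.h (n + 5) ^ e) :=
            Φ.ap_cg' (Φ.anti _ _ (by omega) he) (Φ.ap_comm (ih _) Φ.h0_mem)
          exact Φ.ap_left h1 (Φ.ap_pow (Φ.ap_of_F (Φ.anti _ _ (by omega) (Φ.hF (n + 5)))) e)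
      rcases Nat.even_or_odd n with hn | hn
      · -- n + 5 odd
        obtain ⟨a, b, hb⟩ := Φ.gen_odd (n + 5) x (by obtain ⟨k, rfl⟩ := hn; omega) (by omega) hx
        refine Φ.ap_cg hb (Φ.ap_mul (Φ.ap_pow ?_ a) (Φ.ap_pow hh b))
        have h1 : Φ.Ap (n + 6) (Φ.o (n + 5) * Φ.h (n + 3) * Φ.h (n + 4)) :=
          Φ.ap_cg' (Φ.anti _ _ (by omega) (Φ.ro (n + 3) (by obtain ⟨k, rfl⟩ := hn; omega)))
            (Φ.ap_comm (ih _) Φ.h0_mem)
        exact Φ.ap_left (Φ.ap_left h1 (Φ.ap_of_F (Φ.hF (n + 4)))) hh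
      · obtain ⟨b, hb⟩ := Φ.gen_even (n + 5) x (by obtain ⟨k, rfl⟩ := hn; omega) (by omega) hx
        exact Φ.ap_cg hb (Φ.ap_pow hh b)

/-- `gens` is dense when the filtration is a basis at the identity -/
theorem Facts.gens_dense [TopologicalSpace G] [IsTopologicalGroup G]
    (hb : ∀ U : Set G, IsOpen U → (1 : G) ∈ U → ∃ n, (Φ.F n : Set G) ⊆ U) :
    Φ.gens.topologicalClosure = ⊤ := by
  rw [eq_top_iff]
  intro x _
  rw [← SetLike.mem_coe, Subgroup.topologicalClosure_coe, mem_closure_iff]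
  intro U hU hxU
  -- the set of `y` with `x * y ∈ U`
  have hV : IsOpen ((fun y => x * y) ⁻¹' U) := hU.preimage (continuous_const_mul x)
  obtain ⟨n, hn⟩ := hb _ hV (by simpa using hxU)
  obtain ⟨s, hs, hx⟩ := Φ.ap_all n x
  refine ⟨s, ?_, hs⟩
  unfold Cg at hx
  have h1 : x⁻¹ * s ∈ Φ.F (n + 1) := by
    have := (Φ.F (n + 1)).inv_mem hx
    rwa [mul_inv_rev, inv_inv] at this
  have h2 := hn (Φ.anti _ _ (Nat.le_succ n) h1)
  simpa using h2

theorem Facts.range_dense [TopologicalSpace G] [IsTopologicalGroup G]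
    (hb : ∀ U : Set G, IsOpen U → (1 : G) ∈ U → ∃ n, (Φ.F n : Set G) ⊆ U) :
    (Subgroup.closure (Set.range ![Φ.o 1, Φ.h 0, Φ.h 2])).topologicalClosure = ⊤ := by
  have h : Set.range ![Φ.o 1, Φ.h 0, Φ.h 2] = {Φ.o 1, Φ.h 0, Φ.h 2} := by
    ext y
    constructor
    · rintro ⟨i, rfl⟩
      fin_cases i <;> simp
    · rintro (rfl | rfl | rfl)
      · exact ⟨0, rfl⟩
      · exact ⟨1, rfl⟩
      · exact ⟨2, rfl⟩
  rw [h]
  exact Φ.gens_dense hb

theorem Facts.index_eq' [TopologicalSpace G] [IsTopologicalGroup G] [CompactSpace G]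
    (ho : ∀ n, IsOpen (Φ.F n : Set G)) (n : ℕ) : ∃ k, (Φ.F n).index = 2 ^ k :=
  Φ.index_eq n (by
    have : Finite (G ⧸ Φ.F n) := (Φ.F n).quotient_finite_of_isOpen (ho n)
    exact Subgroup.finiteIndex_of_finite_quotient)

end Abstract

theorem dense_gen (Φ : Facts J) (hF : ∀ n, 1 ≤ n → ∀ f, f ∈ Φ.F n ↔ inF n f) :
    Dense ((Subgroup.closure (Set.range ![Φ.o 1, Φ.h 0, Φ.h 2]) : Subgroup J) : Set J) := by
  have hb : ∀ U : Set J, IsOpen U → (1 : J) ∈ U → ∃ n, (Φ.F n : Set J) ⊆ U := by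
    intro U hU h1
    obtain ⟨n, hn⟩ := Fil_basis U hU h1
    refine ⟨n + 1, fun f hf => hn ?_⟩
    have h2 := (hF (n + 1) (by omega) f).mp hf
    exact ⟨(pow_dvd_pow X (by omega)).trans h2.1, (pow_dvd_pow X (by omega)).trans h2.2⟩
  have h := Φ.range_dense hb
  rw [dense_iff_closure_eq, ← Subgroup.topologicalClosure_coe, h, Subgroup.coe_top]

end Pool.Agent.Nott
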